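import Pool.Agent.Lib.MP_02a951_nt.Run

set_option autoImplicit false

set_option maxRecDepth 100000

namespace Pool.Agent.Lib.MP_02a951_nt

theorem b0 : Seg 625 (3, 96795) (221878, 113143) :=
  seg_of_run (by decide +kernel) (by norm_num) (by norm_num) (by norm_num)

theorem b1 : Seg 625 (221878, 113143) (443753, 92861) :=
  seg_of_run (by decide +kernel) (by norm_num) (by norm_num) (by norm_num)

theorem b2 : Seg 625 (443753, 92861) (665628, 92370) :=
  seg_of_run (by decide +kernel) (by norm_num) (by norm_num) (by norm_num)

theorem b3 : Seg 625 (665628, 92370) (887503, 176595) :=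
  seg_of_run (by decide +kernel) (by norm_num) (by norm_num) (by norm_num)

theorem b4 : Seg 625 (887503, 176595) (1109378, 122460) :=
  seg_of_run (by decide +kernel) (by norm_num) (by norm_num) (by norm_num)

theorem b5 : Seg 625 (1109378, 122460) (1331253, 103426) :=
  seg_of_run (by decide +kernel) (by norm_num) (by norm_num) (by norm_num)

theorem b6 : Seg 625 (1331253, 103426) (1553128, 101938) :=
  seg_of_run (by decide +kernel) (by norm_num) (by norm_num) (by norm_num)

theorem b7 : Seg 625 (1553128, 101938) (1775003, 70676) :=
  seg_of_run (by decide +kernel) (by norm_num) (by norm_num) (by norm_num)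

theorem b8 : Seg 625 (1775003, 70676) (43753, 129249) :=
  seg_of_run (by decide +kernel) (by norm_num) (by norm_num) (by norm_num)

theorem b9 : Seg 625 (43753, 129249) (265628, 98334) :=
  seg_of_run (by decide +kernel) (by norm_num) (by norm_num) (by norm_num)

theorem b10 : Seg 625 (265628, 98334) (487503, 114204) :=
  seg_of_run (by decide +kernel) (by norm_num) (by norm_num) (by norm_num)

theorem b11 : Seg 625 (487503, 114204) (709378, 78292) :=
  seg_of_run (by decide +kernel) (by norm_num) (by norm_num) (by norm_num)

theorem b12 : Seg 625 (709378, 78292) (931253, 108990) :=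
  seg_of_run (by decide +kernel) (by norm_num) (by norm_num) (by norm_num)

theorem b13 : Seg 625 (931253, 108990) (1153128, 86003) :=
  seg_of_run (by decide +kernel) (by norm_num) (by norm_num) (by norm_num)

theorem b14 : Seg 625 (1153128, 86003) (1375003, 114375) :=
  seg_of_run (by decide +kernel) (by norm_num) (by norm_num) (by norm_num)

theorem b15 : Seg 625 (1375003, 114375) (1596878, 158342) :=
  seg_of_run (by decide +kernel) (by norm_num) (by norm_num) (by norm_num)

theorem b16 : Seg 625 (1596878, 158342) (1818753, 130088) :=
  seg_of_run (by decide +kernel) (by norm_num) (by norm_num) (by norm_num)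

theorem b17 : Seg 625 (1818753, 130088) (87503, 89758) :=
  seg_of_run (by decide +kernel) (by norm_num) (by norm_num) (by norm_num)

theorem b18 : Seg 625 (87503, 89758) (309378, 137044) :=
  seg_of_run (by decide +kernel) (by norm_num) (by norm_num) (by norm_num)

theorem b19 : Seg 625 (309378, 137044) (531253, 79859) :=
  seg_of_run (by decide +kernel) (by norm_num) (by norm_num) (by norm_num)

theorem b20 : Seg 625 (531253, 79859) (753128, 102154) :=
  seg_of_run (by decide +kernel) (by norm_num) (by norm_num) (by norm_num)

theorem b21 : Seg 625 (753128, 102154) (975003, 93315) :=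
  seg_of_run (by decide +kernel) (by norm_num) (by norm_num) (by norm_num)

theorem b22 : Seg 625 (975003, 93315) (1196878, 61857) :=
  seg_of_run (by decide +kernel) (by norm_num) (by norm_num) (by norm_num)

theorem b23 : Seg 625 (1196878, 61857) (1418753, 98645) :=
  seg_of_run (by decide +kernel) (by norm_num) (by norm_num) (by norm_num)

theorem b24 : Seg 625 (1418753, 98645) (1640628, 97632) :=
  seg_of_run (by decide +kernel) (by norm_num) (by norm_num) (by norm_num)

theorem b25 : Seg 625 (1640628, 97632) (1862503, 122272) :=
  seg_of_run (by decide +kernel) (by norm_num) (by norm_num) (by norm_num)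

theorem b26 : Seg 625 (1862503, 122272) (131253, 98484) :=
  seg_of_run (by decide +kernel) (by norm_num) (by norm_num) (by norm_num)

theorem b27 : Seg 625 (131253, 98484) (353128, 78126) :=
  seg_of_run (by decide +kernel) (by norm_num) (by norm_num) (by norm_num)

theorem b28 : Seg 625 (353128, 78126) (575003, 199156) :=
  seg_of_run (by decide +kernel) (by norm_num) (by norm_num) (by norm_num)

theorem b29 : Seg 625 (575003, 199156) (796878, 109535) :=
  seg_of_run (by decide +kernel) (by norm_num) (by norm_num) (by norm_num)

theorem b30 : Seg 625 (796878, 109535) (1018753, 112542) :=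
  seg_of_run (by decide +kernel) (by norm_num) (by norm_num) (by norm_num)

theorem b31 : Seg 625 (1018753, 112542) (1240628, 91506) :=
  seg_of_run (by decide +kernel) (by norm_num) (by norm_num) (by norm_num)

theorem b32 : Seg 625 (1240628, 91506) (1462503, 84928) :=
  seg_of_run (by decide +kernel) (by norm_num) (by norm_num) (by norm_num)

theorem b33 : Seg 625 (1462503, 84928) (1684378, 183187) :=
  seg_of_run (by decide +kernel) (by norm_num) (by norm_num) (by norm_num)

theorem b34 : Seg 625 (1684378, 183187) (1906253, 126590) :=
  seg_of_run (by decide +kernel) (by norm_num) (by norm_num) (by norm_num)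

theorem b35 : Seg 625 (1906253, 126590) (175003, 132408) :=
  seg_of_run (by decide +kernel) (by norm_num) (by norm_num) (by norm_num)

theorem b36 : Seg 625 (175003, 132408) (396878, 89551) :=
  seg_of_run (by decide +kernel) (by norm_num) (by norm_num) (by norm_num)

theorem b37 : Seg 625 (396878, 89551) (618753, 101999) :=
  seg_of_run (by decide +kernel) (by norm_num) (by norm_num) (by norm_num)

theorem b38 : Seg 625 (618753, 101999) (840628, 107690) :=
  seg_of_run (by decide +kernel) (by norm_num) (by norm_num) (by norm_num)

theorem b39 : Seg 625 (840628, 107690) (1062503, 104327) :=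
  seg_of_run (by decide +kernel) (by norm_num) (by norm_num) (by norm_num)

theorem b40 : Seg 625 (1062503, 104327) (1284378, 194902) :=
  seg_of_run (by decide +kernel) (by norm_num) (by norm_num) (by norm_num)

theorem b41 : Seg 625 (1284378, 194902) (1506253, 96370) :=
  seg_of_run (by decide +kernel) (by norm_num) (by norm_num) (by norm_num)

theorem b42 : Seg 625 (1506253, 96370) (1728128, 96662) :=
  seg_of_run (by decide +kernel) (by norm_num) (by norm_num) (by norm_num)

theorem b43 : Seg 625 (1728128, 96662) (1950003, 150899) :=
  seg_of_run (by decide +kernel) (by norm_num) (by norm_num) (by norm_num)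

theorem b44 : Seg 625 (1950003, 150899) (218753, 104085) :=
  seg_of_run (by decide +kernel) (by norm_num) (by norm_num) (by norm_num)

theorem b45 : Seg 625 (218753, 104085) (440628, 91971) :=
  seg_of_run (by decide +kernel) (by norm_num) (by norm_num) (by norm_num)

theorem b46 : Seg 625 (440628, 91971) (662503, 153435) :=
  seg_of_run (by decide +kernel) (by norm_num) (by norm_num) (by norm_num)

theorem b47 : Seg 625 (662503, 153435) (884378, 66807) :=
  seg_of_run (by decide +kernel) (by norm_num) (by norm_num) (by norm_num)

theorem b48 : Seg 625 (884378, 66807) (1106253, 94883) :=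
  seg_of_run (by decide +kernel) (by norm_num) (by norm_num) (by norm_num)

theorem b49 : Seg 625 (1106253, 94883) (1328128, 93161) :=
  seg_of_run (by decide +kernel) (by norm_num) (by norm_num) (by norm_num)

theorem b50 : Seg 625 (1328128, 93161) (1550003, 80903) :=
  seg_of_run (by decide +kernel) (by norm_num) (by norm_num) (by norm_num)

theorem b51 : Seg 625 (1550003, 80903) (1771878, 77459) :=
  seg_of_run (by decide +kernel) (by norm_num) (by norm_num) (by norm_num)

theorem b52 : Seg 625 (1771878, 77459) (40628, 91256) :=
  seg_of_run (by decide +kernel) (by norm_num) (by norm_num) (by norm_num)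

theorem b53 : Seg 625 (40628, 91256) (262503, 145639) :=
  seg_of_run (by decide +kernel) (by norm_num) (by norm_num) (by norm_num)

theorem b54 : Seg 625 (262503, 145639) (484378, 93967) :=
  seg_of_run (by decide +kernel) (by norm_num) (by norm_num) (by norm_num)

theorem b55 : Seg 625 (484378, 93967) (706253, 150605) :=
  seg_of_run (by decide +kernel) (by norm_num) (by norm_num) (by norm_num)

theorem b56 : Seg 625 (706253, 150605) (928128, 95426) :=
  seg_of_run (by decide +kernel) (by norm_num) (by norm_num) (by norm_num)

theorem b57 : Seg 625 (928128, 95426) (1150003, 92857) :=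
  seg_of_run (by decide +kernel) (by norm_num) (by norm_num) (by norm_num)

theorem b58 : Seg 625 (1150003, 92857) (1371878, 199937) :=
  seg_of_run (by decide +kernel) (by norm_num) (by norm_num) (by norm_num)

theorem b59 : Seg 625 (1371878, 199937) (1593753, 126978) :=
  seg_of_run (by decide +kernel) (by norm_num) (by norm_num) (by norm_num)

theorem b60 : Seg 625 (1593753, 126978) (1815628, 107415) :=
  seg_of_run (by decide +kernel) (by norm_num) (by norm_num) (by norm_num)

theorem b61 : Seg 625 (1815628, 107415) (84378, 91642) :=
  seg_of_run (by decide +kernel) (by norm_num) (by norm_num) (by norm_num)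

theorem b62 : Seg 625 (84378, 91642) (306253, 85791) :=
  seg_of_run (by decide +kernel) (by norm_num) (by norm_num) (by norm_num)

theorem b63 : Seg 625 (306253, 85791) (528128, 115833) :=
  seg_of_run (by decide +kernel) (by norm_num) (by norm_num) (by norm_num)

theorem b64 : Seg 625 (528128, 115833) (750003, 109015) :=
  seg_of_run (by decide +kernel) (by norm_num) (by norm_num) (by norm_num)

theorem b65 : Seg 625 (750003, 109015) (971878, 124926) :=
  seg_of_run (by decide +kernel) (by norm_num) (by norm_num) (by norm_num)

theorem b66 : Seg 625 (971878, 124926) (1193753, 120742) :=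
  seg_of_run (by decide +kernel) (by norm_num) (by norm_num) (by norm_num)

theorem b67 : Seg 625 (1193753, 120742) (1415628, 83236) :=
  seg_of_run (by decide +kernel) (by norm_num) (by norm_num) (by norm_num)

theorem b68 : Seg 625 (1415628, 83236) (1637503, 119249) :=
  seg_of_run (by decide +kernel) (by norm_num) (by norm_num) (by norm_num)

theorem b69 : Seg 625 (1637503, 119249) (1859378, 129572) :=
  seg_of_run (by decide +kernel) (by norm_num) (by norm_num) (by norm_num)

theorem b70 : Seg 625 (1859378, 129572) (128128, 95982) :=
  seg_of_run (by decide +kernel) (by norm_num) (by norm_num) (by norm_num)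

theorem b71 : Seg 625 (128128, 95982) (350003, 113104) :=
  seg_of_run (by decide +kernel) (by norm_num) (by norm_num) (by norm_num)

theorem b72 : Seg 625 (350003, 113104) (571878, 63369) :=
  seg_of_run (by decide +kernel) (by norm_num) (by norm_num) (by norm_num)

theorem b73 : Seg 625 (571878, 63369) (793753, 143991) :=
  seg_of_run (by decide +kernel) (by norm_num) (by norm_num) (by norm_num)

theorem b74 : Seg 625 (793753, 143991) (1015628, 97819) :=
  seg_of_run (by decide +kernel) (by norm_num) (by norm_num) (by norm_num)

theorem b75 : Seg 625 (1015628, 97819) (1237503, 97958) :=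
  seg_of_run (by decide +kernel) (by norm_num) (by norm_num) (by norm_num)

theorem b76 : Seg 625 (1237503, 97958) (1459378, 89892) :=
  seg_of_run (by decide +kernel) (by norm_num) (by norm_num) (by norm_num)

theorem b77 : Seg 625 (1459378, 89892) (1681253, 98596) :=
  seg_of_run (by decide +kernel) (by norm_num) (by norm_num) (by norm_num)

theorem b78 : Seg 625 (1681253, 98596) (1903128, 185178) :=
  seg_of_run (by decide +kernel) (by norm_num) (by norm_num) (by norm_num)

theorem b79 : Seg 625 (1903128, 185178) (171878, 105653) :=
  seg_of_run (by decide +kernel) (by norm_num) (by norm_num) (by norm_num)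

theorem b80 : Seg 625 (171878, 105653) (393753, 124514) :=
  seg_of_run (by decide +kernel) (by norm_num) (by norm_num) (by norm_num)

theorem b81 : Seg 625 (393753, 124514) (615628, 128908) :=
  seg_of_run (by decide +kernel) (by norm_num) (by norm_num) (by norm_num)

theorem b82 : Seg 625 (615628, 128908) (837503, 97574) :=
  seg_of_run (by decide +kernel) (by norm_num) (by norm_num) (by norm_num)

theorem b83 : Seg 625 (837503, 97574) (1059378, 161907) :=
  seg_of_run (by decide +kernel) (by norm_num) (by norm_num) (by norm_num)

theorem b84 : Seg 625 (1059378, 161907) (1281253, 117114) :=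
  seg_of_run (by decide +kernel) (by norm_num) (by norm_num) (by norm_num)

theorem b85 : Seg 625 (1281253, 117114) (1503128, 147402) :=
  seg_of_run (by decide +kernel) (by norm_num) (by norm_num) (by norm_num)

theorem b86 : Seg 625 (1503128, 147402) (1725003, 84584) :=
  seg_of_run (by decide +kernel) (by norm_num) (by norm_num) (by norm_num)

theorem b87 : Seg 625 (1725003, 84584) (1946878, 97069) :=
  seg_of_run (by decide +kernel) (by norm_num) (by norm_num) (by norm_num)

theorem b88 : Seg 625 (1946878, 97069) (215628, 109794) :=
  seg_of_run (by decide +kernel) (by norm_num) (by norm_num) (by norm_num)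

theorem b89 : Seg 625 (215628, 109794) (437503, 127216) :=
  seg_of_run (by decide +kernel) (by norm_num) (by norm_num) (by norm_num)

theorem b90 : Seg 625 (437503, 127216) (659378, 176876) :=
  seg_of_run (by decide +kernel) (by norm_num) (by norm_num) (by norm_num)

theorem b91 : Seg 625 (659378, 176876) (881253, 96031) :=
  seg_of_run (by decide +kernel) (by norm_num) (by norm_num) (by norm_num)

theorem b92 : Seg 625 (881253, 96031) (1103128, 102310) :=
  seg_of_run (by decide +kernel) (by norm_num) (by norm_num) (by norm_num)

theorem b93 : Seg 625 (1103128, 102310) (1325003, 145267) :=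
  seg_of_run (by decide +kernel) (by norm_num) (by norm_num) (by norm_num)

theorem b94 : Seg 625 (1325003, 145267) (1546878, 94049) :=
  seg_of_run (by decide +kernel) (by norm_num) (by norm_num) (by norm_num)

theorem b95 : Seg 625 (1546878, 94049) (1768753, 97398) :=
  seg_of_run (by decide +kernel) (by norm_num) (by norm_num) (by norm_num)

theorem b96 : Seg 625 (1768753, 97398) (37503, 138296) :=
  seg_of_run (by decide +kernel) (by norm_num) (by norm_num) (by norm_num)

theorem b97 : Seg 625 (37503, 138296) (259378, 76676) :=
  seg_of_run (by decide +kernel) (by norm_num) (by norm_num) (by norm_num)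

theorem b98 : Seg 625 (259378, 76676) (481253, 120180) :=
  seg_of_run (by decide +kernel) (by norm_num) (by norm_num) (by norm_num)

theorem b99 : Seg 625 (481253, 120180) (703128, 89925) :=
  seg_of_run (by decide +kernel) (by norm_num) (by norm_num) (by norm_num)

theorem b100 : Seg 625 (703128, 89925) (925003, 93963) :=
  seg_of_run (by decide +kernel) (by norm_num) (by norm_num) (by norm_num)

theorem b101 : Seg 625 (925003, 93963) (1146878, 94076) :=
  seg_of_run (by decide +kernel) (by norm_num) (by norm_num) (by norm_num)

theorem b102 : Seg 625 (1146878, 94076) (1368753, 89681) :=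
  seg_of_run (by decide +kernel) (by norm_num) (by norm_num) (by norm_num)

theorem b103 : Seg 625 (1368753, 89681) (1590628, 196107) :=
  seg_of_run (by decide +kernel) (by norm_num) (by norm_num) (by norm_num)

theorem b104 : Seg 625 (1590628, 196107) (1812503, 108615) :=
  seg_of_run (by decide +kernel) (by norm_num) (by norm_num) (by norm_num)

theorem b105 : Seg 625 (1812503, 108615) (81253, 165949) :=
  seg_of_run (by decide +kernel) (by norm_num) (by norm_num) (by norm_num)

theorem b106 : Seg 625 (81253, 165949) (303128, 101250) :=
  seg_of_run (by decide +kernel) (by norm_num) (by norm_num) (by norm_num)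

theorem b107 : Seg 625 (303128, 101250) (525003, 73251) :=
  seg_of_run (by decide +kernel) (by norm_num) (by norm_num) (by norm_num)

theorem b108 : Seg 625 (525003, 73251) (746878, 182648) :=
  seg_of_run (by decide +kernel) (by norm_num) (by norm_num) (by norm_num)

theorem b109 : Seg 625 (746878, 182648) (968753, 115349) :=
  seg_of_run (by decide +kernel) (by norm_num) (by norm_num) (by norm_num)

theorem b110 : Seg 625 (968753, 115349) (1190628, 143589) :=
  seg_of_run (by decide +kernel) (by norm_num) (by norm_num) (by norm_num)

theorem b111 : Seg 625 (1190628, 143589) (1412503, 86920) :=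
  seg_of_run (by decide +kernel) (by norm_num) (by norm_num) (by norm_num)

theorem b112 : Seg 625 (1412503, 86920) (1634378, 103387) :=
  seg_of_run (by decide +kernel) (by norm_num) (by norm_num) (by norm_num)

theorem b113 : Seg 625 (1634378, 103387) (1856253, 121943) :=
  seg_of_run (by decide +kernel) (by norm_num) (by norm_num) (by norm_num)

theorem b114 : Seg 625 (1856253, 121943) (125003, 90393) :=
  seg_of_run (by decide +kernel) (by norm_num) (by norm_num) (by norm_num)

theorem b115 : Seg 625 (125003, 90393) (346878, 127012) :=
  seg_of_run (by decide +kernel) (by norm_num) (by norm_num) (by norm_num)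

theorem b116 : Seg 625 (346878, 127012) (568753, 152949) :=
  seg_of_run (by decide +kernel) (by norm_num) (by norm_num) (by norm_num)

theorem b117 : Seg 625 (568753, 152949) (790628, 96812) :=
  seg_of_run (by decide +kernel) (by norm_num) (by norm_num) (by norm_num)

theorem b118 : Seg 625 (790628, 96812) (1012503, 118739) :=
  seg_of_run (by decide +kernel) (by norm_num) (by norm_num) (by norm_num)

theorem b119 : Seg 625 (1012503, 118739) (1234378, 102499) :=
  seg_of_run (by decide +kernel) (by norm_num) (by norm_num) (by norm_num)

theorem b120 : Seg 625 (1234378, 102499) (1456253, 88831) :=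
  seg_of_run (by decide +kernel) (by norm_num) (by norm_num) (by norm_num)

theorem b121 : Seg 625 (1456253, 88831) (1678128, 119782) :=
  seg_of_run (by decide +kernel) (by norm_num) (by norm_num) (by norm_num)

theorem b122 : Seg 625 (1678128, 119782) (1900003, 72071) :=
  seg_of_run (by decide +kernel) (by norm_num) (by norm_num) (by norm_num)

theorem b123 : Seg 625 (1900003, 72071) (168753, 146623) :=
  seg_of_run (by decide +kernel) (by norm_num) (by norm_num) (by norm_num)

theorem b124 : Seg 625 (168753, 146623) (390628, 112223) :=
  seg_of_run (by decide +kernel) (by norm_num) (by norm_num) (by norm_num)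

theorem c0 : Seg 625 (3, 96795) (221878, 113143) := b0

theorem c1 : Seg 1250 (3, 96795) (443753, 92861) := c0.trans b1

theorem c2 : Seg 1875 (3, 96795) (665628, 92370) := c1.trans b2

theorem c3 : Seg 2500 (3, 96795) (887503, 176595) := c2.trans b3

theorem c4 : Seg 3125 (3, 96795) (1109378, 122460) := c3.trans b4

theorem c5 : Seg 3750 (3, 96795) (1331253, 103426) := c4.trans b5

theorem c6 : Seg 4375 (3, 96795) (1553128, 101938) := c5.trans b6

theorem c7 : Seg 5000 (3, 96795) (1775003, 70676) := c6.trans b7

theorem c8 : Seg 5625 (3, 96795) (43753, 129249) := c7.trans b8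

theorem c9 : Seg 6250 (3, 96795) (265628, 98334) := c8.trans b9

theorem c10 : Seg 6875 (3, 96795) (487503, 114204) := c9.trans b10

theorem c11 : Seg 7500 (3, 96795) (709378, 78292) := c10.trans b11

theorem c12 : Seg 8125 (3, 96795) (931253, 108990) := c11.trans b12

theorem c13 : Seg 8750 (3, 96795) (1153128, 86003) := c12.trans b13

theorem c14 : Seg 9375 (3, 96795) (1375003, 114375) := c13.trans b14

theorem c15 : Seg 10000 (3, 96795) (1596878, 158342) := c14.trans b15

theorem c16 : Seg 10625 (3, 96795) (1818753, 130088) := c15.trans b16

theorem c17 : Seg 11250 (3, 96795) (87503, 89758) := c16.trans b17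

theorem c18 : Seg 11875 (3, 96795) (309378, 137044) := c17.trans b18

theorem c19 : Seg 12500 (3, 96795) (531253, 79859) := c18.trans b19

theorem c20 : Seg 13125 (3, 96795) (753128, 102154) := c19.trans b20

theorem c21 : Seg 13750 (3, 96795) (975003, 93315) := c20.trans b21

theorem c22 : Seg 14375 (3, 96795) (1196878, 61857) := c21.trans b22

theorem c23 : Seg 15000 (3, 96795) (1418753, 98645) := c22.trans b23

theorem c24 : Seg 15625 (3, 96795) (1640628, 97632) := c23.trans b24

theorem c25 : Seg 16250 (3, 96795) (1862503, 122272) := c24.trans b25

theorem c26 : Seg 16875 (3, 96795) (131253, 98484) := c25.trans b26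

theorem c27 : Seg 17500 (3, 96795) (353128, 78126) := c26.trans b27

theorem c28 : Seg 18125 (3, 96795) (575003, 199156) := c27.trans b28

theorem c29 : Seg 18750 (3, 96795) (796878, 109535) := c28.trans b29

theorem c30 : Seg 19375 (3, 96795) (1018753, 112542) := c29.trans b30

theorem c31 : Seg 20000 (3, 96795) (1240628, 91506) := c30.trans b31

theorem c32 : Seg 20625 (3, 96795) (1462503, 84928) := c31.trans b32

theorem c33 : Seg 21250 (3, 96795) (1684378, 183187) := c32.trans b33

theorem c34 : Seg 21875 (3, 96795) (1906253, 126590) := c33.trans b34

theorem c35 : Seg 22500 (3, 96795) (175003, 132408) := c34.trans b35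

theorem c36 : Seg 23125 (3, 96795) (396878, 89551) := c35.trans b36

theorem c37 : Seg 23750 (3, 96795) (618753, 101999) := c36.trans b37

theorem c38 : Seg 24375 (3, 96795) (840628, 107690) := c37.trans b38

theorem c39 : Seg 25000 (3, 96795) (1062503, 104327) := c38.trans b39

theorem c40 : Seg 25625 (3, 96795) (1284378, 194902) := c39.trans b40

theorem c41 : Seg 26250 (3, 96795) (1506253, 96370) := c40.trans b41

theorem c42 : Seg 26875 (3, 96795) (1728128, 96662) := c41.trans b42

theorem c43 : Seg 27500 (3, 96795) (1950003, 150899) := c42.trans b43

theorem c44 : Seg 28125 (3, 96795) (218753, 104085) := c43.trans b44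

theorem c45 : Seg 28750 (3, 96795) (440628, 91971) := c44.trans b45

theorem c46 : Seg 29375 (3, 96795) (662503, 153435) := c45.trans b46

theorem c47 : Seg 30000 (3, 96795) (884378, 66807) := c46.trans b47

theorem c48 : Seg 30625 (3, 96795) (1106253, 94883) := c47.trans b48

theorem c49 : Seg 31250 (3, 96795) (1328128, 93161) := c48.trans b49

theorem c50 : Seg 31875 (3, 96795) (1550003, 80903) := c49.trans b50

theorem c51 : Seg 32500 (3, 96795) (1771878, 77459) := c50.trans b51

theorem c52 : Seg 33125 (3, 96795) (40628, 91256) := c51.trans b52

theorem c53 : Seg 33750 (3, 96795) (262503, 145639) := c52.trans b53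

theorem c54 : Seg 34375 (3, 96795) (484378, 93967) := c53.trans b54

theorem c55 : Seg 35000 (3, 96795) (706253, 150605) := c54.trans b55

theorem c56 : Seg 35625 (3, 96795) (928128, 95426) := c55.trans b56

theorem c57 : Seg 36250 (3, 96795) (1150003, 92857) := c56.trans b57

theorem c58 : Seg 36875 (3, 96795) (1371878, 199937) := c57.trans b58

theorem c59 : Seg 37500 (3, 96795) (1593753, 126978) := c58.trans b59

theorem c60 : Seg 38125 (3, 96795) (1815628, 107415) := c59.trans b60

theorem c61 : Seg 38750 (3, 96795) (84378, 91642) := c60.trans b61

theorem c62 : Seg 39375 (3, 96795) (306253, 85791) := c61.trans b62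

theorem c63 : Seg 40000 (3, 96795) (528128, 115833) := c62.trans b63

theorem c64 : Seg 40625 (3, 96795) (750003, 109015) := c63.trans b64

theorem c65 : Seg 41250 (3, 96795) (971878, 124926) := c64.trans b65

theorem c66 : Seg 41875 (3, 96795) (1193753, 120742) := c65.trans b66

theorem c67 : Seg 42500 (3, 96795) (1415628, 83236) := c66.trans b67

theorem c68 : Seg 43125 (3, 96795) (1637503, 119249) := c67.trans b68

theorem c69 : Seg 43750 (3, 96795) (1859378, 129572) := c68.trans b69

theorem c70 : Seg 44375 (3, 96795) (128128, 95982) := c69.trans b70

theorem c71 : Seg 45000 (3, 96795) (350003, 113104) := c70.trans b71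

theorem c72 : Seg 45625 (3, 96795) (571878, 63369) := c71.trans b72

theorem c73 : Seg 46250 (3, 96795) (793753, 143991) := c72.trans b73

theorem c74 : Seg 46875 (3, 96795) (1015628, 97819) := c73.trans b74

theorem c75 : Seg 47500 (3, 96795) (1237503, 97958) := c74.trans b75

theorem c76 : Seg 48125 (3, 96795) (1459378, 89892) := c75.trans b76

theorem c77 : Seg 48750 (3, 96795) (1681253, 98596) := c76.trans b77

theorem c78 : Seg 49375 (3, 96795) (1903128, 185178) := c77.trans b78

theorem c79 : Seg 50000 (3, 96795) (171878, 105653) := c78.trans b79

theorem c80 : Seg 50625 (3, 96795) (393753, 124514) := c79.trans b80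

theorem c81 : Seg 51250 (3, 96795) (615628, 128908) := c80.trans b81

theorem c82 : Seg 51875 (3, 96795) (837503, 97574) := c81.trans b82

theorem c83 : Seg 52500 (3, 96795) (1059378, 161907) := c82.trans b83

theorem c84 : Seg 53125 (3, 96795) (1281253, 117114) := c83.trans b84

theorem c85 : Seg 53750 (3, 96795) (1503128, 147402) := c84.trans b85

theorem c86 : Seg 54375 (3, 96795) (1725003, 84584) := c85.trans b86

theorem c87 : Seg 55000 (3, 96795) (1946878, 97069) := c86.trans b87

theorem c88 : Seg 55625 (3, 96795) (215628, 109794) := c87.trans b88

theorem c89 : Seg 56250 (3, 96795) (437503, 127216) := c88.trans b89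

theorem c90 : Seg 56875 (3, 96795) (659378, 176876) := c89.trans b90

theorem c91 : Seg 57500 (3, 96795) (881253, 96031) := c90.trans b91

theorem c92 : Seg 58125 (3, 96795) (1103128, 102310) := c91.trans b92

theorem c93 : Seg 58750 (3, 96795) (1325003, 145267) := c92.trans b93

theorem c94 : Seg 59375 (3, 96795) (1546878, 94049) := c93.trans b94

theorem c95 : Seg 60000 (3, 96795) (1768753, 97398) := c94.trans b95

theorem c96 : Seg 60625 (3, 96795) (37503, 138296) := c95.trans b96

theorem c97 : Seg 61250 (3, 96795) (259378, 76676) := c96.trans b97

theorem c98 : Seg 61875 (3, 96795) (481253, 120180) := c97.trans b98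

theorem c99 : Seg 62500 (3, 96795) (703128, 89925) := c98.trans b99

theorem c100 : Seg 63125 (3, 96795) (925003, 93963) := c99.trans b100

theorem c101 : Seg 63750 (3, 96795) (1146878, 94076) := c100.trans b101

theorem c102 : Seg 64375 (3, 96795) (1368753, 89681) := c101.trans b102

theorem c103 : Seg 65000 (3, 96795) (1590628, 196107) := c102.trans b103

theorem c104 : Seg 65625 (3, 96795) (1812503, 108615) := c103.trans b104

theorem c105 : Seg 66250 (3, 96795) (81253, 165949) := c104.trans b105

theorem c106 : Seg 66875 (3, 96795) (303128, 101250) := c105.trans b106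

theorem c107 : Seg 67500 (3, 96795) (525003, 73251) := c106.trans b107

theorem c108 : Seg 68125 (3, 96795) (746878, 182648) := c107.trans b108

theorem c109 : Seg 68750 (3, 96795) (968753, 115349) := c108.trans b109

theorem c110 : Seg 69375 (3, 96795) (1190628, 143589) := c109.trans b110

theorem c111 : Seg 70000 (3, 96795) (1412503, 86920) := c110.trans b111

theorem c112 : Seg 70625 (3, 96795) (1634378, 103387) := c111.trans b112

theorem c113 : Seg 71250 (3, 96795) (1856253, 121943) := c112.trans b113

theorem c114 : Seg 71875 (3, 96795) (125003, 90393) := c113.trans b114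

theorem c115 : Seg 72500 (3, 96795) (346878, 127012) := c114.trans b115

theorem c116 : Seg 73125 (3, 96795) (568753, 152949) := c115.trans b116

theorem c117 : Seg 73750 (3, 96795) (790628, 96812) := c116.trans b117

theorem c118 : Seg 74375 (3, 96795) (1012503, 118739) := c117.trans b118

theorem c119 : Seg 75000 (3, 96795) (1234378, 102499) := c118.trans b119

theorem c120 : Seg 75625 (3, 96795) (1456253, 88831) := c119.trans b120

theorem c121 : Seg 76250 (3, 96795) (1678128, 119782) := c120.trans b121

theorem c122 : Seg 76875 (3, 96795) (1900003, 72071) := c121.trans b122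

theorem c123 : Seg 77500 (3, 96795) (168753, 146623) := c122.trans b123

theorem c124 : Seg 78125 (3, 96795) (390628, 112223) := c123.trans b124

end Pool.Agent.Lib.MP_02a951_nt
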