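import Pool.Agent.Lib.MP_02a951_nt.Run

set_option autoImplicit false

set_option maxRecDepth 100000

namespace Pool.Agent.Lib.MP_02a951_nt

theorem b125 : Seg 625 (390628, 112223) (612503, 121447) :=
  seg_of_run (by decide +kernel) (by norm_num) (by norm_num) (by norm_num)

theorem b126 : Seg 625 (612503, 121447) (834378, 86973) :=
  seg_of_run (by decide +kernel) (by norm_num) (by norm_num) (by norm_num)

theorem b127 : Seg 625 (834378, 86973) (1056253, 99344) :=
  seg_of_run (by decide +kernel) (by norm_num) (by norm_num) (by norm_num)

theorem b128 : Seg 625 (1056253, 99344) (1278128, 175576) :=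
  seg_of_run (by decide +kernel) (by norm_num) (by norm_num) (by norm_num)

theorem b129 : Seg 625 (1278128, 175576) (1500003, 108982) :=
  seg_of_run (by decide +kernel) (by norm_num) (by norm_num) (by norm_num)

theorem b130 : Seg 625 (1500003, 108982) (1721878, 117321) :=
  seg_of_run (by decide +kernel) (by norm_num) (by norm_num) (by norm_num)

theorem b131 : Seg 625 (1721878, 117321) (1943753, 90788) :=
  seg_of_run (by decide +kernel) (by norm_num) (by norm_num) (by norm_num)

theorem b132 : Seg 625 (1943753, 90788) (212503, 70087) :=
  seg_of_run (by decide +kernel) (by norm_num) (by norm_num) (by norm_num)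

theorem b133 : Seg 625 (212503, 70087) (434378, 126043) :=
  seg_of_run (by decide +kernel) (by norm_num) (by norm_num) (by norm_num)

theorem b134 : Seg 625 (434378, 126043) (656253, 105940) :=
  seg_of_run (by decide +kernel) (by norm_num) (by norm_num) (by norm_num)

theorem b135 : Seg 625 (656253, 105940) (878128, 125629) :=
  seg_of_run (by decide +kernel) (by norm_num) (by norm_num) (by norm_num)

theorem b136 : Seg 625 (878128, 125629) (1100003, 72819) :=
  seg_of_run (by decide +kernel) (by norm_num) (by norm_num) (by norm_num)

theorem b137 : Seg 625 (1100003, 72819) (1321878, 98691) :=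
  seg_of_run (by decide +kernel) (by norm_num) (by norm_num) (by norm_num)

theorem b138 : Seg 625 (1321878, 98691) (1543753, 76722) :=
  seg_of_run (by decide +kernel) (by norm_num) (by norm_num) (by norm_num)

theorem b139 : Seg 625 (1543753, 76722) (1765628, 109749) :=
  seg_of_run (by decide +kernel) (by norm_num) (by norm_num) (by norm_num)

theorem b140 : Seg 625 (1765628, 109749) (34378, 131696) :=
  seg_of_run (by decide +kernel) (by norm_num) (by norm_num) (by norm_num)

theorem b141 : Seg 625 (34378, 131696) (256253, 100487) :=
  seg_of_run (by decide +kernel) (by norm_num) (by norm_num) (by norm_num)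

theorem b142 : Seg 625 (256253, 100487) (478128, 89238) :=
  seg_of_run (by decide +kernel) (by norm_num) (by norm_num) (by norm_num)

theorem b143 : Seg 625 (478128, 89238) (700003, 141950) :=
  seg_of_run (by decide +kernel) (by norm_num) (by norm_num) (by norm_num)

theorem b144 : Seg 625 (700003, 141950) (921878, 90644) :=
  seg_of_run (by decide +kernel) (by norm_num) (by norm_num) (by norm_num)

theorem b145 : Seg 625 (921878, 90644) (1143753, 101485) :=
  seg_of_run (by decide +kernel) (by norm_num) (by norm_num) (by norm_num)

theorem b146 : Seg 625 (1143753, 101485) (1365628, 83236) :=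
  seg_of_run (by decide +kernel) (by norm_num) (by norm_num) (by norm_num)

theorem b147 : Seg 625 (1365628, 83236) (1587503, 67602) :=
  seg_of_run (by decide +kernel) (by norm_num) (by norm_num) (by norm_num)

theorem b148 : Seg 625 (1587503, 67602) (1809378, 119007) :=
  seg_of_run (by decide +kernel) (by norm_num) (by norm_num) (by norm_num)

theorem b149 : Seg 625 (1809378, 119007) (78128, 106439) :=
  seg_of_run (by decide +kernel) (by norm_num) (by norm_num) (by norm_num)

theorem b150 : Seg 625 (78128, 106439) (300003, 91943) :=
  seg_of_run (by decide +kernel) (by norm_num) (by norm_num) (by norm_num)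

theorem b151 : Seg 625 (300003, 91943) (521878, 89819) :=
  seg_of_run (by decide +kernel) (by norm_num) (by norm_num) (by norm_num)

theorem b152 : Seg 625 (521878, 89819) (743753, 88692) :=
  seg_of_run (by decide +kernel) (by norm_num) (by norm_num) (by norm_num)

theorem b153 : Seg 625 (743753, 88692) (965628, 250876) :=
  seg_of_run (by decide +kernel) (by norm_num) (by norm_num) (by norm_num)

theorem b154 : Seg 625 (965628, 250876) (1187503, 125617) :=
  seg_of_run (by decide +kernel) (by norm_num) (by norm_num) (by norm_num)

theorem b155 : Seg 625 (1187503, 125617) (1409378, 95297) :=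
  seg_of_run (by decide +kernel) (by norm_num) (by norm_num) (by norm_num)

theorem b156 : Seg 625 (1409378, 95297) (1631253, 107398) :=
  seg_of_run (by decide +kernel) (by norm_num) (by norm_num) (by norm_num)

theorem b157 : Seg 625 (1631253, 107398) (1853128, 87285) :=
  seg_of_run (by decide +kernel) (by norm_num) (by norm_num) (by norm_num)

theorem b158 : Seg 625 (1853128, 87285) (121878, 151251) :=
  seg_of_run (by decide +kernel) (by norm_num) (by norm_num) (by norm_num)

theorem b159 : Seg 625 (121878, 151251) (343753, 125111) :=
  seg_of_run (by decide +kernel) (by norm_num) (by norm_num) (by norm_num)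

theorem b160 : Seg 625 (343753, 125111) (565628, 125123) :=
  seg_of_run (by decide +kernel) (by norm_num) (by norm_num) (by norm_num)

theorem b161 : Seg 625 (565628, 125123) (787503, 98902) :=
  seg_of_run (by decide +kernel) (by norm_num) (by norm_num) (by norm_num)

theorem b162 : Seg 625 (787503, 98902) (1009378, 117414) :=
  seg_of_run (by decide +kernel) (by norm_num) (by norm_num) (by norm_num)

theorem b163 : Seg 625 (1009378, 117414) (1231253, 91784) :=
  seg_of_run (by decide +kernel) (by norm_num) (by norm_num) (by norm_num)

theorem b164 : Seg 625 (1231253, 91784) (1453128, 137271) :=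
  seg_of_run (by decide +kernel) (by norm_num) (by norm_num) (by norm_num)

theorem b165 : Seg 625 (1453128, 137271) (1675003, 191655) :=
  seg_of_run (by decide +kernel) (by norm_num) (by norm_num) (by norm_num)

theorem b166 : Seg 625 (1675003, 191655) (1896878, 93397) :=
  seg_of_run (by decide +kernel) (by norm_num) (by norm_num) (by norm_num)

theorem b167 : Seg 625 (1896878, 93397) (165628, 87602) :=
  seg_of_run (by decide +kernel) (by norm_num) (by norm_num) (by norm_num)

theorem b168 : Seg 625 (165628, 87602) (387503, 143535) :=
  seg_of_run (by decide +kernel) (by norm_num) (by norm_num) (by norm_num)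

theorem b169 : Seg 625 (387503, 143535) (609378, 96770) :=
  seg_of_run (by decide +kernel) (by norm_num) (by norm_num) (by norm_num)

theorem b170 : Seg 625 (609378, 96770) (831253, 85221) :=
  seg_of_run (by decide +kernel) (by norm_num) (by norm_num) (by norm_num)

theorem b171 : Seg 625 (831253, 85221) (1053128, 126709) :=
  seg_of_run (by decide +kernel) (by norm_num) (by norm_num) (by norm_num)

theorem b172 : Seg 625 (1053128, 126709) (1275003, 76054) :=
  seg_of_run (by decide +kernel) (by norm_num) (by norm_num) (by norm_num)

theorem b173 : Seg 625 (1275003, 76054) (1496878, 94859) :=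
  seg_of_run (by decide +kernel) (by norm_num) (by norm_num) (by norm_num)

theorem b174 : Seg 625 (1496878, 94859) (1718753, 106918) :=
  seg_of_run (by decide +kernel) (by norm_num) (by norm_num) (by norm_num)

theorem b175 : Seg 625 (1718753, 106918) (1940628, 85913) :=
  seg_of_run (by decide +kernel) (by norm_num) (by norm_num) (by norm_num)

theorem b176 : Seg 625 (1940628, 85913) (209378, 83033) :=
  seg_of_run (by decide +kernel) (by norm_num) (by norm_num) (by norm_num)

theorem b177 : Seg 625 (209378, 83033) (431253, 71099) :=
  seg_of_run (by decide +kernel) (by norm_num) (by norm_num) (by norm_num)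

theorem b178 : Seg 625 (431253, 71099) (653128, 118963) :=
  seg_of_run (by decide +kernel) (by norm_num) (by norm_num) (by norm_num)

theorem b179 : Seg 625 (653128, 118963) (875003, 88059) :=
  seg_of_run (by decide +kernel) (by norm_num) (by norm_num) (by norm_num)

theorem b180 : Seg 625 (875003, 88059) (1096878, 129753) :=
  seg_of_run (by decide +kernel) (by norm_num) (by norm_num) (by norm_num)

theorem b181 : Seg 625 (1096878, 129753) (1318753, 107807) :=
  seg_of_run (by decide +kernel) (by norm_num) (by norm_num) (by norm_num)

theorem b182 : Seg 625 (1318753, 107807) (1540628, 88104) :=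
  seg_of_run (by decide +kernel) (by norm_num) (by norm_num) (by norm_num)

theorem b183 : Seg 625 (1540628, 88104) (1762503, 176991) :=
  seg_of_run (by decide +kernel) (by norm_num) (by norm_num) (by norm_num)

theorem b184 : Seg 625 (1762503, 176991) (31253, 126878) :=
  seg_of_run (by decide +kernel) (by norm_num) (by norm_num) (by norm_num)

theorem b185 : Seg 625 (31253, 126878) (253128, 123905) :=
  seg_of_run (by decide +kernel) (by norm_num) (by norm_num) (by norm_num)

theorem b186 : Seg 625 (253128, 123905) (475003, 101734) :=
  seg_of_run (by decide +kernel) (by norm_num) (by norm_num) (by norm_num)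

theorem b187 : Seg 625 (475003, 101734) (696878, 81801) :=
  seg_of_run (by decide +kernel) (by norm_num) (by norm_num) (by norm_num)

theorem b188 : Seg 625 (696878, 81801) (918753, 103834) :=
  seg_of_run (by decide +kernel) (by norm_num) (by norm_num) (by norm_num)

theorem b189 : Seg 625 (918753, 103834) (1140628, 116902) :=
  seg_of_run (by decide +kernel) (by norm_num) (by norm_num) (by norm_num)

theorem b190 : Seg 625 (1140628, 116902) (1362503, 154882) :=
  seg_of_run (by decide +kernel) (by norm_num) (by norm_num) (by norm_num)

theorem b191 : Seg 625 (1362503, 154882) (1584378, 122181) :=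
  seg_of_run (by decide +kernel) (by norm_num) (by norm_num) (by norm_num)

theorem b192 : Seg 625 (1584378, 122181) (1806253, 77306) :=
  seg_of_run (by decide +kernel) (by norm_num) (by norm_num) (by norm_num)

theorem b193 : Seg 625 (1806253, 77306) (75003, 116616) :=
  seg_of_run (by decide +kernel) (by norm_num) (by norm_num) (by norm_num)

theorem b194 : Seg 625 (75003, 116616) (296878, 115803) :=
  seg_of_run (by decide +kernel) (by norm_num) (by norm_num) (by norm_num)

theorem b195 : Seg 625 (296878, 115803) (518753, 91425) :=
  seg_of_run (by decide +kernel) (by norm_num) (by norm_num) (by norm_num)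

theorem b196 : Seg 625 (518753, 91425) (740628, 121041) :=
  seg_of_run (by decide +kernel) (by norm_num) (by norm_num) (by norm_num)

theorem b197 : Seg 625 (740628, 121041) (962503, 69420) :=
  seg_of_run (by decide +kernel) (by norm_num) (by norm_num) (by norm_num)

theorem b198 : Seg 625 (962503, 69420) (1184378, 98403) :=
  seg_of_run (by decide +kernel) (by norm_num) (by norm_num) (by norm_num)

theorem b199 : Seg 625 (1184378, 98403) (1406253, 114830) :=
  seg_of_run (by decide +kernel) (by norm_num) (by norm_num) (by norm_num)

theorem b200 : Seg 625 (1406253, 114830) (1628128, 103539) :=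
  seg_of_run (by decide +kernel) (by norm_num) (by norm_num) (by norm_num)

theorem b201 : Seg 625 (1628128, 103539) (1850003, 90285) :=
  seg_of_run (by decide +kernel) (by norm_num) (by norm_num) (by norm_num)

theorem b202 : Seg 625 (1850003, 90285) (118753, 103278) :=
  seg_of_run (by decide +kernel) (by norm_num) (by norm_num) (by norm_num)

theorem b203 : Seg 625 (118753, 103278) (340628, 154668) :=
  seg_of_run (by decide +kernel) (by norm_num) (by norm_num) (by norm_num)

theorem b204 : Seg 625 (340628, 154668) (562503, 132823) :=
  seg_of_run (by decide +kernel) (by norm_num) (by norm_num) (by norm_num)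

theorem b205 : Seg 625 (562503, 132823) (784378, 133590) :=
  seg_of_run (by decide +kernel) (by norm_num) (by norm_num) (by norm_num)

theorem b206 : Seg 625 (784378, 133590) (1006253, 98989) :=
  seg_of_run (by decide +kernel) (by norm_num) (by norm_num) (by norm_num)

theorem b207 : Seg 625 (1006253, 98989) (1228128, 81022) :=
  seg_of_run (by decide +kernel) (by norm_num) (by norm_num) (by norm_num)

theorem b208 : Seg 625 (1228128, 81022) (1450003, 138502) :=
  seg_of_run (by decide +kernel) (by norm_num) (by norm_num) (by norm_num)

theorem b209 : Seg 625 (1450003, 138502) (1671878, 113804) :=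
  seg_of_run (by decide +kernel) (by norm_num) (by norm_num) (by norm_num)

theorem b210 : Seg 625 (1671878, 113804) (1893753, 160235) :=
  seg_of_run (by decide +kernel) (by norm_num) (by norm_num) (by norm_num)

theorem b211 : Seg 625 (1893753, 160235) (162503, 84603) :=
  seg_of_run (by decide +kernel) (by norm_num) (by norm_num) (by norm_num)

theorem b212 : Seg 625 (162503, 84603) (384378, 94599) :=
  seg_of_run (by decide +kernel) (by norm_num) (by norm_num) (by norm_num)

theorem b213 : Seg 625 (384378, 94599) (606253, 95152) :=
  seg_of_run (by decide +kernel) (by norm_num) (by norm_num) (by norm_num)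

theorem b214 : Seg 625 (606253, 95152) (828128, 128913) :=
  seg_of_run (by decide +kernel) (by norm_num) (by norm_num) (by norm_num)

theorem b215 : Seg 625 (828128, 128913) (1050003, 148536) :=
  seg_of_run (by decide +kernel) (by norm_num) (by norm_num) (by norm_num)

theorem b216 : Seg 625 (1050003, 148536) (1271878, 106875) :=
  seg_of_run (by decide +kernel) (by norm_num) (by norm_num) (by norm_num)

theorem b217 : Seg 625 (1271878, 106875) (1493753, 100958) :=
  seg_of_run (by decide +kernel) (by norm_num) (by norm_num) (by norm_num)

theorem b218 : Seg 625 (1493753, 100958) (1715628, 138518) :=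
  seg_of_run (by decide +kernel) (by norm_num) (by norm_num) (by norm_num)

theorem b219 : Seg 625 (1715628, 138518) (1937503, 89629) :=
  seg_of_run (by decide +kernel) (by norm_num) (by norm_num) (by norm_num)

theorem b220 : Seg 625 (1937503, 89629) (206253, 76276) :=
  seg_of_run (by decide +kernel) (by norm_num) (by norm_num) (by norm_num)

theorem b221 : Seg 625 (206253, 76276) (428128, 108390) :=
  seg_of_run (by decide +kernel) (by norm_num) (by norm_num) (by norm_num)

theorem b222 : Seg 625 (428128, 108390) (650003, 81054) :=
  seg_of_run (by decide +kernel) (by norm_num) (by norm_num) (by norm_num)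

theorem b223 : Seg 625 (650003, 81054) (871878, 115937) :=
  seg_of_run (by decide +kernel) (by norm_num) (by norm_num) (by norm_num)

theorem b224 : Seg 625 (871878, 115937) (1093753, 94971) :=
  seg_of_run (by decide +kernel) (by norm_num) (by norm_num) (by norm_num)

theorem b225 : Seg 625 (1093753, 94971) (1315628, 104725) :=
  seg_of_run (by decide +kernel) (by norm_num) (by norm_num) (by norm_num)

theorem b226 : Seg 625 (1315628, 104725) (1537503, 96977) :=
  seg_of_run (by decide +kernel) (by norm_num) (by norm_num) (by norm_num)

theorem b227 : Seg 625 (1537503, 96977) (1759378, 94719) :=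
  seg_of_run (by decide +kernel) (by norm_num) (by norm_num) (by norm_num)

theorem b228 : Seg 625 (1759378, 94719) (28128, 201786) :=
  seg_of_run (by decide +kernel) (by norm_num) (by norm_num) (by norm_num)

theorem b229 : Seg 625 (28128, 201786) (250003, 106454) :=
  seg_of_run (by decide +kernel) (by norm_num) (by norm_num) (by norm_num)

theorem b230 : Seg 625 (250003, 106454) (471878, 119658) :=
  seg_of_run (by decide +kernel) (by norm_num) (by norm_num) (by norm_num)

theorem b231 : Seg 625 (471878, 119658) (693753, 86284) :=
  seg_of_run (by decide +kernel) (by norm_num) (by norm_num) (by norm_num)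

theorem b232 : Seg 625 (693753, 86284) (915628, 79848) :=
  seg_of_run (by decide +kernel) (by norm_num) (by norm_num) (by norm_num)

theorem b233 : Seg 625 (915628, 79848) (1137503, 153365) :=
  seg_of_run (by decide +kernel) (by norm_num) (by norm_num) (by norm_num)

theorem b234 : Seg 625 (1137503, 153365) (1359378, 113091) :=
  seg_of_run (by decide +kernel) (by norm_num) (by norm_num) (by norm_num)

theorem b235 : Seg 625 (1359378, 113091) (1581253, 160651) :=
  seg_of_run (by decide +kernel) (by norm_num) (by norm_num) (by norm_num)

theorem b236 : Seg 625 (1581253, 160651) (1803128, 84174) :=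
  seg_of_run (by decide +kernel) (by norm_num) (by norm_num) (by norm_num)

theorem b237 : Seg 625 (1803128, 84174) (71878, 103552) :=
  seg_of_run (by decide +kernel) (by norm_num) (by norm_num) (by norm_num)

theorem b238 : Seg 625 (71878, 103552) (293753, 133215) :=
  seg_of_run (by decide +kernel) (by norm_num) (by norm_num) (by norm_num)

theorem b239 : Seg 625 (293753, 133215) (515628, 96768) :=
  seg_of_run (by decide +kernel) (by norm_num) (by norm_num) (by norm_num)

theorem b240 : Seg 625 (515628, 96768) (737503, 112927) :=
  seg_of_run (by decide +kernel) (by norm_num) (by norm_num) (by norm_num)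

theorem b241 : Seg 625 (737503, 112927) (959378, 154158) :=
  seg_of_run (by decide +kernel) (by norm_num) (by norm_num) (by norm_num)

theorem b242 : Seg 625 (959378, 154158) (1181253, 98257) :=
  seg_of_run (by decide +kernel) (by norm_num) (by norm_num) (by norm_num)

theorem b243 : Seg 625 (1181253, 98257) (1403128, 138102) :=
  seg_of_run (by decide +kernel) (by norm_num) (by norm_num) (by norm_num)

theorem b244 : Seg 625 (1403128, 138102) (1625003, 89039) :=
  seg_of_run (by decide +kernel) (by norm_num) (by norm_num) (by norm_num)

theorem b245 : Seg 625 (1625003, 89039) (1846878, 91893) :=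
  seg_of_run (by decide +kernel) (by norm_num) (by norm_num) (by norm_num)

theorem b246 : Seg 625 (1846878, 91893) (115628, 101226) :=
  seg_of_run (by decide +kernel) (by norm_num) (by norm_num) (by norm_num)

theorem b247 : Seg 625 (115628, 101226) (337503, 69827) :=
  seg_of_run (by decide +kernel) (by norm_num) (by norm_num) (by norm_num)

theorem b248 : Seg 625 (337503, 69827) (559378, 123558) :=
  seg_of_run (by decide +kernel) (by norm_num) (by norm_num) (by norm_num)

theorem b249 : Seg 625 (559378, 123558) (781253, 95084) :=
  seg_of_run (by decide +kernel) (by norm_num) (by norm_num) (by norm_num)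

theorem c125 : Seg 625 (390628, 112223) (612503, 121447) := b125

theorem c126 : Seg 1250 (390628, 112223) (834378, 86973) := c125.trans b126

theorem c127 : Seg 1875 (390628, 112223) (1056253, 99344) := c126.trans b127

theorem c128 : Seg 2500 (390628, 112223) (1278128, 175576) := c127.trans b128

theorem c129 : Seg 3125 (390628, 112223) (1500003, 108982) := c128.trans b129

theorem c130 : Seg 3750 (390628, 112223) (1721878, 117321) := c129.trans b130

theorem c131 : Seg 4375 (390628, 112223) (1943753, 90788) := c130.trans b131

theorem c132 : Seg 5000 (390628, 112223) (212503, 70087) := c131.trans b132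

theorem c133 : Seg 5625 (390628, 112223) (434378, 126043) := c132.trans b133

theorem c134 : Seg 6250 (390628, 112223) (656253, 105940) := c133.trans b134

theorem c135 : Seg 6875 (390628, 112223) (878128, 125629) := c134.trans b135

theorem c136 : Seg 7500 (390628, 112223) (1100003, 72819) := c135.trans b136

theorem c137 : Seg 8125 (390628, 112223) (1321878, 98691) := c136.trans b137

theorem c138 : Seg 8750 (390628, 112223) (1543753, 76722) := c137.trans b138

theorem c139 : Seg 9375 (390628, 112223) (1765628, 109749) := c138.trans b139

theorem c140 : Seg 10000 (390628, 112223) (34378, 131696) := c139.trans b140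

theorem c141 : Seg 10625 (390628, 112223) (256253, 100487) := c140.trans b141

theorem c142 : Seg 11250 (390628, 112223) (478128, 89238) := c141.trans b142

theorem c143 : Seg 11875 (390628, 112223) (700003, 141950) := c142.trans b143

theorem c144 : Seg 12500 (390628, 112223) (921878, 90644) := c143.trans b144

theorem c145 : Seg 13125 (390628, 112223) (1143753, 101485) := c144.trans b145

theorem c146 : Seg 13750 (390628, 112223) (1365628, 83236) := c145.trans b146

theorem c147 : Seg 14375 (390628, 112223) (1587503, 67602) := c146.trans b147

theorem c148 : Seg 15000 (390628, 112223) (1809378, 119007) := c147.trans b148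

theorem c149 : Seg 15625 (390628, 112223) (78128, 106439) := c148.trans b149

theorem c150 : Seg 16250 (390628, 112223) (300003, 91943) := c149.trans b150

theorem c151 : Seg 16875 (390628, 112223) (521878, 89819) := c150.trans b151

theorem c152 : Seg 17500 (390628, 112223) (743753, 88692) := c151.trans b152

theorem c153 : Seg 18125 (390628, 112223) (965628, 250876) := c152.trans b153

theorem c154 : Seg 18750 (390628, 112223) (1187503, 125617) := c153.trans b154

theorem c155 : Seg 19375 (390628, 112223) (1409378, 95297) := c154.trans b155

theorem c156 : Seg 20000 (390628, 112223) (1631253, 107398) := c155.trans b156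

theorem c157 : Seg 20625 (390628, 112223) (1853128, 87285) := c156.trans b157

theorem c158 : Seg 21250 (390628, 112223) (121878, 151251) := c157.trans b158

theorem c159 : Seg 21875 (390628, 112223) (343753, 125111) := c158.trans b159

theorem c160 : Seg 22500 (390628, 112223) (565628, 125123) := c159.trans b160

theorem c161 : Seg 23125 (390628, 112223) (787503, 98902) := c160.trans b161

theorem c162 : Seg 23750 (390628, 112223) (1009378, 117414) := c161.trans b162

theorem c163 : Seg 24375 (390628, 112223) (1231253, 91784) := c162.trans b163

theorem c164 : Seg 25000 (390628, 112223) (1453128, 137271) := c163.trans b164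

theorem c165 : Seg 25625 (390628, 112223) (1675003, 191655) := c164.trans b165

theorem c166 : Seg 26250 (390628, 112223) (1896878, 93397) := c165.trans b166

theorem c167 : Seg 26875 (390628, 112223) (165628, 87602) := c166.trans b167

theorem c168 : Seg 27500 (390628, 112223) (387503, 143535) := c167.trans b168

theorem c169 : Seg 28125 (390628, 112223) (609378, 96770) := c168.trans b169

theorem c170 : Seg 28750 (390628, 112223) (831253, 85221) := c169.trans b170

theorem c171 : Seg 29375 (390628, 112223) (1053128, 126709) := c170.trans b171

theorem c172 : Seg 30000 (390628, 112223) (1275003, 76054) := c171.trans b172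

theorem c173 : Seg 30625 (390628, 112223) (1496878, 94859) := c172.trans b173

theorem c174 : Seg 31250 (390628, 112223) (1718753, 106918) := c173.trans b174

theorem c175 : Seg 31875 (390628, 112223) (1940628, 85913) := c174.trans b175

theorem c176 : Seg 32500 (390628, 112223) (209378, 83033) := c175.trans b176

theorem c177 : Seg 33125 (390628, 112223) (431253, 71099) := c176.trans b177

theorem c178 : Seg 33750 (390628, 112223) (653128, 118963) := c177.trans b178

theorem c179 : Seg 34375 (390628, 112223) (875003, 88059) := c178.trans b179

theorem c180 : Seg 35000 (390628, 112223) (1096878, 129753) := c179.trans b180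

theorem c181 : Seg 35625 (390628, 112223) (1318753, 107807) := c180.trans b181

theorem c182 : Seg 36250 (390628, 112223) (1540628, 88104) := c181.trans b182

theorem c183 : Seg 36875 (390628, 112223) (1762503, 176991) := c182.trans b183

theorem c184 : Seg 37500 (390628, 112223) (31253, 126878) := c183.trans b184

theorem c185 : Seg 38125 (390628, 112223) (253128, 123905) := c184.trans b185

theorem c186 : Seg 38750 (390628, 112223) (475003, 101734) := c185.trans b186

theorem c187 : Seg 39375 (390628, 112223) (696878, 81801) := c186.trans b187

theorem c188 : Seg 40000 (390628, 112223) (918753, 103834) := c187.trans b188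

theorem c189 : Seg 40625 (390628, 112223) (1140628, 116902) := c188.trans b189

theorem c190 : Seg 41250 (390628, 112223) (1362503, 154882) := c189.trans b190

theorem c191 : Seg 41875 (390628, 112223) (1584378, 122181) := c190.trans b191

theorem c192 : Seg 42500 (390628, 112223) (1806253, 77306) := c191.trans b192

theorem c193 : Seg 43125 (390628, 112223) (75003, 116616) := c192.trans b193

theorem c194 : Seg 43750 (390628, 112223) (296878, 115803) := c193.trans b194

theorem c195 : Seg 44375 (390628, 112223) (518753, 91425) := c194.trans b195

theorem c196 : Seg 45000 (390628, 112223) (740628, 121041) := c195.trans b196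

theorem c197 : Seg 45625 (390628, 112223) (962503, 69420) := c196.trans b197

theorem c198 : Seg 46250 (390628, 112223) (1184378, 98403) := c197.trans b198

theorem c199 : Seg 46875 (390628, 112223) (1406253, 114830) := c198.trans b199

theorem c200 : Seg 47500 (390628, 112223) (1628128, 103539) := c199.trans b200

theorem c201 : Seg 48125 (390628, 112223) (1850003, 90285) := c200.trans b201

theorem c202 : Seg 48750 (390628, 112223) (118753, 103278) := c201.trans b202

theorem c203 : Seg 49375 (390628, 112223) (340628, 154668) := c202.trans b203

theorem c204 : Seg 50000 (390628, 112223) (562503, 132823) := c203.trans b204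

theorem c205 : Seg 50625 (390628, 112223) (784378, 133590) := c204.trans b205

theorem c206 : Seg 51250 (390628, 112223) (1006253, 98989) := c205.trans b206

theorem c207 : Seg 51875 (390628, 112223) (1228128, 81022) := c206.trans b207

theorem c208 : Seg 52500 (390628, 112223) (1450003, 138502) := c207.trans b208

theorem c209 : Seg 53125 (390628, 112223) (1671878, 113804) := c208.trans b209

theorem c210 : Seg 53750 (390628, 112223) (1893753, 160235) := c209.trans b210

theorem c211 : Seg 54375 (390628, 112223) (162503, 84603) := c210.trans b211

theorem c212 : Seg 55000 (390628, 112223) (384378, 94599) := c211.trans b212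

theorem c213 : Seg 55625 (390628, 112223) (606253, 95152) := c212.trans b213

theorem c214 : Seg 56250 (390628, 112223) (828128, 128913) := c213.trans b214

theorem c215 : Seg 56875 (390628, 112223) (1050003, 148536) := c214.trans b215

theorem c216 : Seg 57500 (390628, 112223) (1271878, 106875) := c215.trans b216

theorem c217 : Seg 58125 (390628, 112223) (1493753, 100958) := c216.trans b217

theorem c218 : Seg 58750 (390628, 112223) (1715628, 138518) := c217.trans b218

theorem c219 : Seg 59375 (390628, 112223) (1937503, 89629) := c218.trans b219

theorem c220 : Seg 60000 (390628, 112223) (206253, 76276) := c219.trans b220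

theorem c221 : Seg 60625 (390628, 112223) (428128, 108390) := c220.trans b221

theorem c222 : Seg 61250 (390628, 112223) (650003, 81054) := c221.trans b222

theorem c223 : Seg 61875 (390628, 112223) (871878, 115937) := c222.trans b223

theorem c224 : Seg 62500 (390628, 112223) (1093753, 94971) := c223.trans b224

theorem c225 : Seg 63125 (390628, 112223) (1315628, 104725) := c224.trans b225

theorem c226 : Seg 63750 (390628, 112223) (1537503, 96977) := c225.trans b226

theorem c227 : Seg 64375 (390628, 112223) (1759378, 94719) := c226.trans b227

theorem c228 : Seg 65000 (390628, 112223) (28128, 201786) := c227.trans b228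

theorem c229 : Seg 65625 (390628, 112223) (250003, 106454) := c228.trans b229

theorem c230 : Seg 66250 (390628, 112223) (471878, 119658) := c229.trans b230

theorem c231 : Seg 66875 (390628, 112223) (693753, 86284) := c230.trans b231

theorem c232 : Seg 67500 (390628, 112223) (915628, 79848) := c231.trans b232

theorem c233 : Seg 68125 (390628, 112223) (1137503, 153365) := c232.trans b233

theorem c234 : Seg 68750 (390628, 112223) (1359378, 113091) := c233.trans b234

theorem c235 : Seg 69375 (390628, 112223) (1581253, 160651) := c234.trans b235

theorem c236 : Seg 70000 (390628, 112223) (1803128, 84174) := c235.trans b236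

theorem c237 : Seg 70625 (390628, 112223) (71878, 103552) := c236.trans b237

theorem c238 : Seg 71250 (390628, 112223) (293753, 133215) := c237.trans b238

theorem c239 : Seg 71875 (390628, 112223) (515628, 96768) := c238.trans b239

theorem c240 : Seg 72500 (390628, 112223) (737503, 112927) := c239.trans b240

theorem c241 : Seg 73125 (390628, 112223) (959378, 154158) := c240.trans b241

theorem c242 : Seg 73750 (390628, 112223) (1181253, 98257) := c241.trans b242

theorem c243 : Seg 74375 (390628, 112223) (1403128, 138102) := c242.trans b243

theorem c244 : Seg 75000 (390628, 112223) (1625003, 89039) := c243.trans b244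

theorem c245 : Seg 75625 (390628, 112223) (1846878, 91893) := c244.trans b245

theorem c246 : Seg 76250 (390628, 112223) (115628, 101226) := c245.trans b246

theorem c247 : Seg 76875 (390628, 112223) (337503, 69827) := c246.trans b247

theorem c248 : Seg 77500 (390628, 112223) (559378, 123558) := c247.trans b248

theorem c249 : Seg 78125 (390628, 112223) (781253, 95084) := c248.trans b249

end Pool.Agent.Lib.MP_02a951_nt
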