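import Pool.Agent.Lib.MP_02a951_nt.Run

set_option autoImplicit false

set_option maxRecDepth 100000

namespace Pool.Agent.Lib.MP_02a951_nt

theorem b250 : Seg 625 (781253, 95084) (1003128, 129635) :=
  seg_of_run (by decide +kernel) (by norm_num) (by norm_num) (by norm_num)

theorem b251 : Seg 625 (1003128, 129635) (1225003, 89556) :=
  seg_of_run (by decide +kernel) (by norm_num) (by norm_num) (by norm_num)

theorem b252 : Seg 625 (1225003, 89556) (1446878, 104779) :=
  seg_of_run (by decide +kernel) (by norm_num) (by norm_num) (by norm_num)

theorem b253 : Seg 625 (1446878, 104779) (1668753, 206062) :=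
  seg_of_run (by decide +kernel) (by norm_num) (by norm_num) (by norm_num)

theorem b254 : Seg 625 (1668753, 206062) (1890628, 112439) :=
  seg_of_run (by decide +kernel) (by norm_num) (by norm_num) (by norm_num)

theorem b255 : Seg 625 (1890628, 112439) (159378, 101363) :=
  seg_of_run (by decide +kernel) (by norm_num) (by norm_num) (by norm_num)

theorem b256 : Seg 625 (159378, 101363) (381253, 106614) :=
  seg_of_run (by decide +kernel) (by norm_num) (by norm_num) (by norm_num)

theorem b257 : Seg 625 (381253, 106614) (603128, 66625) :=
  seg_of_run (by decide +kernel) (by norm_num) (by norm_num) (by norm_num)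

theorem b258 : Seg 625 (603128, 66625) (825003, 117404) :=
  seg_of_run (by decide +kernel) (by norm_num) (by norm_num) (by norm_num)

theorem b259 : Seg 625 (825003, 117404) (1046878, 107842) :=
  seg_of_run (by decide +kernel) (by norm_num) (by norm_num) (by norm_num)

theorem b260 : Seg 625 (1046878, 107842) (1268753, 115943) :=
  seg_of_run (by decide +kernel) (by norm_num) (by norm_num) (by norm_num)

theorem b261 : Seg 625 (1268753, 115943) (1490628, 74036) :=
  seg_of_run (by decide +kernel) (by norm_num) (by norm_num) (by norm_num)

theorem b262 : Seg 625 (1490628, 74036) (1712503, 96731) :=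
  seg_of_run (by decide +kernel) (by norm_num) (by norm_num) (by norm_num)

theorem b263 : Seg 625 (1712503, 96731) (1934378, 89269) :=
  seg_of_run (by decide +kernel) (by norm_num) (by norm_num) (by norm_num)

theorem b264 : Seg 625 (1934378, 89269) (203128, 114502) :=
  seg_of_run (by decide +kernel) (by norm_num) (by norm_num) (by norm_num)

theorem b265 : Seg 625 (203128, 114502) (425003, 156167) :=
  seg_of_run (by decide +kernel) (by norm_num) (by norm_num) (by norm_num)

theorem b266 : Seg 625 (425003, 156167) (646878, 109960) :=
  seg_of_run (by decide +kernel) (by norm_num) (by norm_num) (by norm_num)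

theorem b267 : Seg 625 (646878, 109960) (868753, 79063) :=
  seg_of_run (by decide +kernel) (by norm_num) (by norm_num) (by norm_num)

theorem b268 : Seg 625 (868753, 79063) (1090628, 143642) :=
  seg_of_run (by decide +kernel) (by norm_num) (by norm_num) (by norm_num)

theorem b269 : Seg 625 (1090628, 143642) (1312503, 86386) :=
  seg_of_run (by decide +kernel) (by norm_num) (by norm_num) (by norm_num)

theorem b270 : Seg 625 (1312503, 86386) (1534378, 101060) :=
  seg_of_run (by decide +kernel) (by norm_num) (by norm_num) (by norm_num)

theorem b271 : Seg 625 (1534378, 101060) (1756253, 87489) :=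
  seg_of_run (by decide +kernel) (by norm_num) (by norm_num) (by norm_num)

theorem b272 : Seg 625 (1756253, 87489) (25003, 68328) :=
  seg_of_run (by decide +kernel) (by norm_num) (by norm_num) (by norm_num)

theorem b273 : Seg 625 (25003, 68328) (246878, 97441) :=
  seg_of_run (by decide +kernel) (by norm_num) (by norm_num) (by norm_num)

theorem b274 : Seg 625 (246878, 97441) (468753, 89155) :=
  seg_of_run (by decide +kernel) (by norm_num) (by norm_num) (by norm_num)

theorem b275 : Seg 625 (468753, 89155) (690628, 115203) :=
  seg_of_run (by decide +kernel) (by norm_num) (by norm_num) (by norm_num)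

theorem b276 : Seg 625 (690628, 115203) (912503, 109528) :=
  seg_of_run (by decide +kernel) (by norm_num) (by norm_num) (by norm_num)

theorem b277 : Seg 625 (912503, 109528) (1134378, 81437) :=
  seg_of_run (by decide +kernel) (by norm_num) (by norm_num) (by norm_num)

theorem b278 : Seg 625 (1134378, 81437) (1356253, 167394) :=
  seg_of_run (by decide +kernel) (by norm_num) (by norm_num) (by norm_num)

theorem b279 : Seg 625 (1356253, 167394) (1578128, 108545) :=
  seg_of_run (by decide +kernel) (by norm_num) (by norm_num) (by norm_num)

theorem b280 : Seg 625 (1578128, 108545) (1800003, 105154) :=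
  seg_of_run (by decide +kernel) (by norm_num) (by norm_num) (by norm_num)

theorem b281 : Seg 625 (1800003, 105154) (68753, 98493) :=
  seg_of_run (by decide +kernel) (by norm_num) (by norm_num) (by norm_num)

theorem b282 : Seg 625 (68753, 98493) (290628, 76718) :=
  seg_of_run (by decide +kernel) (by norm_num) (by norm_num) (by norm_num)

theorem b283 : Seg 625 (290628, 76718) (512503, 198441) :=
  seg_of_run (by decide +kernel) (by norm_num) (by norm_num) (by norm_num)

theorem b284 : Seg 625 (512503, 198441) (734378, 131626) :=
  seg_of_run (by decide +kernel) (by norm_num) (by norm_num) (by norm_num)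

theorem b285 : Seg 625 (734378, 131626) (956253, 137912) :=
  seg_of_run (by decide +kernel) (by norm_num) (by norm_num) (by norm_num)

theorem b286 : Seg 625 (956253, 137912) (1178128, 94358) :=
  seg_of_run (by decide +kernel) (by norm_num) (by norm_num) (by norm_num)

theorem b287 : Seg 625 (1178128, 94358) (1400003, 98279) :=
  seg_of_run (by decide +kernel) (by norm_num) (by norm_num) (by norm_num)

theorem b288 : Seg 625 (1400003, 98279) (1621878, 109061) :=
  seg_of_run (by decide +kernel) (by norm_num) (by norm_num) (by norm_num)

theorem b289 : Seg 625 (1621878, 109061) (1843753, 122030) :=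
  seg_of_run (by decide +kernel) (by norm_num) (by norm_num) (by norm_num)

theorem b290 : Seg 625 (1843753, 122030) (112503, 161893) :=
  seg_of_run (by decide +kernel) (by norm_num) (by norm_num) (by norm_num)

theorem b291 : Seg 625 (112503, 161893) (334378, 96775) :=
  seg_of_run (by decide +kernel) (by norm_num) (by norm_num) (by norm_num)

theorem b292 : Seg 625 (334378, 96775) (556253, 92933) :=
  seg_of_run (by decide +kernel) (by norm_num) (by norm_num) (by norm_num)

theorem b293 : Seg 625 (556253, 92933) (778128, 139957) :=
  seg_of_run (by decide +kernel) (by norm_num) (by norm_num) (by norm_num)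

theorem b294 : Seg 625 (778128, 139957) (1000003, 106177) :=
  seg_of_run (by decide +kernel) (by norm_num) (by norm_num) (by norm_num)

theorem b295 : Seg 625 (1000003, 106177) (1221878, 87931) :=
  seg_of_run (by decide +kernel) (by norm_num) (by norm_num) (by norm_num)

theorem b296 : Seg 625 (1221878, 87931) (1443753, 167795) :=
  seg_of_run (by decide +kernel) (by norm_num) (by norm_num) (by norm_num)

theorem b297 : Seg 625 (1443753, 167795) (1665628, 76689) :=
  seg_of_run (by decide +kernel) (by norm_num) (by norm_num) (by norm_num)

theorem b298 : Seg 625 (1665628, 76689) (1887503, 103853) :=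
  seg_of_run (by decide +kernel) (by norm_num) (by norm_num) (by norm_num)

theorem b299 : Seg 625 (1887503, 103853) (156253, 125001) :=
  seg_of_run (by decide +kernel) (by norm_num) (by norm_num) (by norm_num)

theorem b300 : Seg 625 (156253, 125001) (378128, 88805) :=
  seg_of_run (by decide +kernel) (by norm_num) (by norm_num) (by norm_num)

theorem b301 : Seg 625 (378128, 88805) (600003, 72437) :=
  seg_of_run (by decide +kernel) (by norm_num) (by norm_num) (by norm_num)

theorem b302 : Seg 625 (600003, 72437) (821878, 80302) :=
  seg_of_run (by decide +kernel) (by norm_num) (by norm_num) (by norm_num)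

theorem b303 : Seg 625 (821878, 80302) (1043753, 162889) :=
  seg_of_run (by decide +kernel) (by norm_num) (by norm_num) (by norm_num)

theorem b304 : Seg 625 (1043753, 162889) (1265628, 105095) :=
  seg_of_run (by decide +kernel) (by norm_num) (by norm_num) (by norm_num)

theorem b305 : Seg 625 (1265628, 105095) (1487503, 158542) :=
  seg_of_run (by decide +kernel) (by norm_num) (by norm_num) (by norm_num)

theorem b306 : Seg 625 (1487503, 158542) (1709378, 90285) :=
  seg_of_run (by decide +kernel) (by norm_num) (by norm_num) (by norm_num)

theorem b307 : Seg 625 (1709378, 90285) (1931253, 78372) :=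
  seg_of_run (by decide +kernel) (by norm_num) (by norm_num) (by norm_num)

theorem b308 : Seg 625 (1931253, 78372) (200003, 177712) :=
  seg_of_run (by decide +kernel) (by norm_num) (by norm_num) (by norm_num)

theorem b309 : Seg 625 (200003, 177712) (421878, 112830) :=
  seg_of_run (by decide +kernel) (by norm_num) (by norm_num) (by norm_num)

theorem b310 : Seg 625 (421878, 112830) (643753, 103051) :=
  seg_of_run (by decide +kernel) (by norm_num) (by norm_num) (by norm_num)

theorem b311 : Seg 625 (643753, 103051) (865628, 86947) :=
  seg_of_run (by decide +kernel) (by norm_num) (by norm_num) (by norm_num)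

theorem b312 : Seg 625 (865628, 86947) (1087503, 89137) :=
  seg_of_run (by decide +kernel) (by norm_num) (by norm_num) (by norm_num)

theorem b313 : Seg 625 (1087503, 89137) (1309378, 110983) :=
  seg_of_run (by decide +kernel) (by norm_num) (by norm_num) (by norm_num)

theorem b314 : Seg 625 (1309378, 110983) (1531253, 107327) :=
  seg_of_run (by decide +kernel) (by norm_num) (by norm_num) (by norm_num)

theorem b315 : Seg 625 (1531253, 107327) (1753128, 149778) :=
  seg_of_run (by decide +kernel) (by norm_num) (by norm_num) (by norm_num)

theorem b316 : Seg 625 (1753128, 149778) (21878, 122403) :=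
  seg_of_run (by decide +kernel) (by norm_num) (by norm_num) (by norm_num)

theorem b317 : Seg 625 (21878, 122403) (243753, 84437) :=
  seg_of_run (by decide +kernel) (by norm_num) (by norm_num) (by norm_num)

theorem b318 : Seg 625 (243753, 84437) (465628, 135495) :=
  seg_of_run (by decide +kernel) (by norm_num) (by norm_num) (by norm_num)

theorem b319 : Seg 625 (465628, 135495) (687503, 122123) :=
  seg_of_run (by decide +kernel) (by norm_num) (by norm_num) (by norm_num)

theorem b320 : Seg 625 (687503, 122123) (909378, 91045) :=
  seg_of_run (by decide +kernel) (by norm_num) (by norm_num) (by norm_num)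

theorem b321 : Seg 625 (909378, 91045) (1131253, 130322) :=
  seg_of_run (by decide +kernel) (by norm_num) (by norm_num) (by norm_num)

theorem b322 : Seg 625 (1131253, 130322) (1353128, 64550) :=
  seg_of_run (by decide +kernel) (by norm_num) (by norm_num) (by norm_num)

theorem b323 : Seg 625 (1353128, 64550) (1575003, 140946) :=
  seg_of_run (by decide +kernel) (by norm_num) (by norm_num) (by norm_num)

theorem b324 : Seg 625 (1575003, 140946) (1796878, 116622) :=
  seg_of_run (by decide +kernel) (by norm_num) (by norm_num) (by norm_num)

theorem b325 : Seg 625 (1796878, 116622) (65628, 103125) :=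
  seg_of_run (by decide +kernel) (by norm_num) (by norm_num) (by norm_num)

theorem b326 : Seg 625 (65628, 103125) (287503, 74435) :=
  seg_of_run (by decide +kernel) (by norm_num) (by norm_num) (by norm_num)

theorem b327 : Seg 625 (287503, 74435) (509378, 105918) :=
  seg_of_run (by decide +kernel) (by norm_num) (by norm_num) (by norm_num)

theorem b328 : Seg 625 (509378, 105918) (731253, 146681) :=
  seg_of_run (by decide +kernel) (by norm_num) (by norm_num) (by norm_num)

theorem b329 : Seg 625 (731253, 146681) (953128, 117736) :=
  seg_of_run (by decide +kernel) (by norm_num) (by norm_num) (by norm_num)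

theorem b330 : Seg 625 (953128, 117736) (1175003, 143554) :=
  seg_of_run (by decide +kernel) (by norm_num) (by norm_num) (by norm_num)

theorem b331 : Seg 625 (1175003, 143554) (1396878, 104612) :=
  seg_of_run (by decide +kernel) (by norm_num) (by norm_num) (by norm_num)

theorem b332 : Seg 625 (1396878, 104612) (1618753, 86414) :=
  seg_of_run (by decide +kernel) (by norm_num) (by norm_num) (by norm_num)

theorem b333 : Seg 625 (1618753, 86414) (1840628, 148689) :=
  seg_of_run (by decide +kernel) (by norm_num) (by norm_num) (by norm_num)

theorem b334 : Seg 625 (1840628, 148689) (109378, 124041) :=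
  seg_of_run (by decide +kernel) (by norm_num) (by norm_num) (by norm_num)

theorem b335 : Seg 625 (109378, 124041) (331253, 139532) :=
  seg_of_run (by decide +kernel) (by norm_num) (by norm_num) (by norm_num)

theorem b336 : Seg 625 (331253, 139532) (553128, 74311) :=
  seg_of_run (by decide +kernel) (by norm_num) (by norm_num) (by norm_num)

theorem b337 : Seg 625 (553128, 74311) (775003, 100089) :=
  seg_of_run (by decide +kernel) (by norm_num) (by norm_num) (by norm_num)

theorem b338 : Seg 625 (775003, 100089) (996878, 112513) :=
  seg_of_run (by decide +kernel) (by norm_num) (by norm_num) (by norm_num)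

theorem b339 : Seg 625 (996878, 112513) (1218753, 127238) :=
  seg_of_run (by decide +kernel) (by norm_num) (by norm_num) (by norm_num)

theorem b340 : Seg 625 (1218753, 127238) (1440628, 145243) :=
  seg_of_run (by decide +kernel) (by norm_num) (by norm_num) (by norm_num)

theorem b341 : Seg 625 (1440628, 145243) (1662503, 102825) :=
  seg_of_run (by decide +kernel) (by norm_num) (by norm_num) (by norm_num)

theorem b342 : Seg 625 (1662503, 102825) (1884378, 81391) :=
  seg_of_run (by decide +kernel) (by norm_num) (by norm_num) (by norm_num)

theorem b343 : Seg 625 (1884378, 81391) (153128, 143735) :=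
  seg_of_run (by decide +kernel) (by norm_num) (by norm_num) (by norm_num)

theorem b344 : Seg 625 (153128, 143735) (375003, 83329) :=
  seg_of_run (by decide +kernel) (by norm_num) (by norm_num) (by norm_num)

theorem b345 : Seg 625 (375003, 83329) (596878, 81627) :=
  seg_of_run (by decide +kernel) (by norm_num) (by norm_num) (by norm_num)

theorem b346 : Seg 625 (596878, 81627) (818753, 130372) :=
  seg_of_run (by decide +kernel) (by norm_num) (by norm_num) (by norm_num)

theorem b347 : Seg 625 (818753, 130372) (1040628, 66465) :=
  seg_of_run (by decide +kernel) (by norm_num) (by norm_num) (by norm_num)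

theorem b348 : Seg 625 (1040628, 66465) (1262503, 134635) :=
  seg_of_run (by decide +kernel) (by norm_num) (by norm_num) (by norm_num)

theorem b349 : Seg 625 (1262503, 134635) (1484378, 83133) :=
  seg_of_run (by decide +kernel) (by norm_num) (by norm_num) (by norm_num)

theorem b350 : Seg 625 (1484378, 83133) (1706253, 107805) :=
  seg_of_run (by decide +kernel) (by norm_num) (by norm_num) (by norm_num)

theorem b351 : Seg 625 (1706253, 107805) (1928128, 88071) :=
  seg_of_run (by decide +kernel) (by norm_num) (by norm_num) (by norm_num)

theorem b352 : Seg 625 (1928128, 88071) (196878, 86427) :=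
  seg_of_run (by decide +kernel) (by norm_num) (by norm_num) (by norm_num)

theorem b353 : Seg 625 (196878, 86427) (418753, 187799) :=
  seg_of_run (by decide +kernel) (by norm_num) (by norm_num) (by norm_num)

theorem b354 : Seg 625 (418753, 187799) (640628, 109013) :=
  seg_of_run (by decide +kernel) (by norm_num) (by norm_num) (by norm_num)

theorem b355 : Seg 625 (640628, 109013) (862503, 128883) :=
  seg_of_run (by decide +kernel) (by norm_num) (by norm_num) (by norm_num)

theorem b356 : Seg 625 (862503, 128883) (1084378, 91548) :=
  seg_of_run (by decide +kernel) (by norm_num) (by norm_num) (by norm_num)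

theorem b357 : Seg 625 (1084378, 91548) (1306253, 67353) :=
  seg_of_run (by decide +kernel) (by norm_num) (by norm_num) (by norm_num)

theorem b358 : Seg 625 (1306253, 67353) (1528128, 174896) :=
  seg_of_run (by decide +kernel) (by norm_num) (by norm_num) (by norm_num)

theorem b359 : Seg 625 (1528128, 174896) (1750003, 95968) :=
  seg_of_run (by decide +kernel) (by norm_num) (by norm_num) (by norm_num)

theorem b360 : Seg 625 (1750003, 95968) (18753, 145009) :=
  seg_of_run (by decide +kernel) (by norm_num) (by norm_num) (by norm_num)

theorem b361 : Seg 625 (18753, 145009) (240628, 82251) :=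
  seg_of_run (by decide +kernel) (by norm_num) (by norm_num) (by norm_num)

theorem b362 : Seg 625 (240628, 82251) (462503, 104662) :=
  seg_of_run (by decide +kernel) (by norm_num) (by norm_num) (by norm_num)

theorem b363 : Seg 625 (462503, 104662) (684378, 105201) :=
  seg_of_run (by decide +kernel) (by norm_num) (by norm_num) (by norm_num)

theorem b364 : Seg 625 (684378, 105201) (906253, 88998) :=
  seg_of_run (by decide +kernel) (by norm_num) (by norm_num) (by norm_num)

theorem b365 : Seg 625 (906253, 88998) (1128128, 98661) :=
  seg_of_run (by decide +kernel) (by norm_num) (by norm_num) (by norm_num)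

theorem b366 : Seg 625 (1128128, 98661) (1350003, 112856) :=
  seg_of_run (by decide +kernel) (by norm_num) (by norm_num) (by norm_num)

theorem b367 : Seg 625 (1350003, 112856) (1571878, 94909) :=
  seg_of_run (by decide +kernel) (by norm_num) (by norm_num) (by norm_num)

theorem b368 : Seg 625 (1571878, 94909) (1793753, 154504) :=
  seg_of_run (by decide +kernel) (by norm_num) (by norm_num) (by norm_num)

theorem b369 : Seg 625 (1793753, 154504) (62503, 101252) :=
  seg_of_run (by decide +kernel) (by norm_num) (by norm_num) (by norm_num)

theorem b370 : Seg 625 (62503, 101252) (284378, 87934) :=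
  seg_of_run (by decide +kernel) (by norm_num) (by norm_num) (by norm_num)

theorem b371 : Seg 625 (284378, 87934) (506253, 117177) :=
  seg_of_run (by decide +kernel) (by norm_num) (by norm_num) (by norm_num)

theorem b372 : Seg 625 (506253, 117177) (728128, 71489) :=
  seg_of_run (by decide +kernel) (by norm_num) (by norm_num) (by norm_num)

theorem b373 : Seg 625 (728128, 71489) (950003, 111229) :=
  seg_of_run (by decide +kernel) (by norm_num) (by norm_num) (by norm_num)

theorem b374 : Seg 625 (950003, 111229) (1171878, 103582) :=
  seg_of_run (by decide +kernel) (by norm_num) (by norm_num) (by norm_num)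

theorem c250 : Seg 625 (781253, 95084) (1003128, 129635) := b250

theorem c251 : Seg 1250 (781253, 95084) (1225003, 89556) := c250.trans b251

theorem c252 : Seg 1875 (781253, 95084) (1446878, 104779) := c251.trans b252

theorem c253 : Seg 2500 (781253, 95084) (1668753, 206062) := c252.trans b253

theorem c254 : Seg 3125 (781253, 95084) (1890628, 112439) := c253.trans b254

theorem c255 : Seg 3750 (781253, 95084) (159378, 101363) := c254.trans b255

theorem c256 : Seg 4375 (781253, 95084) (381253, 106614) := c255.trans b256

theorem c257 : Seg 5000 (781253, 95084) (603128, 66625) := c256.trans b257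

theorem c258 : Seg 5625 (781253, 95084) (825003, 117404) := c257.trans b258

theorem c259 : Seg 6250 (781253, 95084) (1046878, 107842) := c258.trans b259

theorem c260 : Seg 6875 (781253, 95084) (1268753, 115943) := c259.trans b260

theorem c261 : Seg 7500 (781253, 95084) (1490628, 74036) := c260.trans b261

theorem c262 : Seg 8125 (781253, 95084) (1712503, 96731) := c261.trans b262

theorem c263 : Seg 8750 (781253, 95084) (1934378, 89269) := c262.trans b263

theorem c264 : Seg 9375 (781253, 95084) (203128, 114502) := c263.trans b264

theorem c265 : Seg 10000 (781253, 95084) (425003, 156167) := c264.trans b265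

theorem c266 : Seg 10625 (781253, 95084) (646878, 109960) := c265.trans b266

theorem c267 : Seg 11250 (781253, 95084) (868753, 79063) := c266.trans b267

theorem c268 : Seg 11875 (781253, 95084) (1090628, 143642) := c267.trans b268

theorem c269 : Seg 12500 (781253, 95084) (1312503, 86386) := c268.trans b269

theorem c270 : Seg 13125 (781253, 95084) (1534378, 101060) := c269.trans b270

theorem c271 : Seg 13750 (781253, 95084) (1756253, 87489) := c270.trans b271

theorem c272 : Seg 14375 (781253, 95084) (25003, 68328) := c271.trans b272

theorem c273 : Seg 15000 (781253, 95084) (246878, 97441) := c272.trans b273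

theorem c274 : Seg 15625 (781253, 95084) (468753, 89155) := c273.trans b274

theorem c275 : Seg 16250 (781253, 95084) (690628, 115203) := c274.trans b275

theorem c276 : Seg 16875 (781253, 95084) (912503, 109528) := c275.trans b276

theorem c277 : Seg 17500 (781253, 95084) (1134378, 81437) := c276.trans b277

theorem c278 : Seg 18125 (781253, 95084) (1356253, 167394) := c277.trans b278

theorem c279 : Seg 18750 (781253, 95084) (1578128, 108545) := c278.trans b279

theorem c280 : Seg 19375 (781253, 95084) (1800003, 105154) := c279.trans b280

theorem c281 : Seg 20000 (781253, 95084) (68753, 98493) := c280.trans b281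

theorem c282 : Seg 20625 (781253, 95084) (290628, 76718) := c281.trans b282

theorem c283 : Seg 21250 (781253, 95084) (512503, 198441) := c282.trans b283

theorem c284 : Seg 21875 (781253, 95084) (734378, 131626) := c283.trans b284

theorem c285 : Seg 22500 (781253, 95084) (956253, 137912) := c284.trans b285

theorem c286 : Seg 23125 (781253, 95084) (1178128, 94358) := c285.trans b286

theorem c287 : Seg 23750 (781253, 95084) (1400003, 98279) := c286.trans b287

theorem c288 : Seg 24375 (781253, 95084) (1621878, 109061) := c287.trans b288

theorem c289 : Seg 25000 (781253, 95084) (1843753, 122030) := c288.trans b289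

theorem c290 : Seg 25625 (781253, 95084) (112503, 161893) := c289.trans b290

theorem c291 : Seg 26250 (781253, 95084) (334378, 96775) := c290.trans b291

theorem c292 : Seg 26875 (781253, 95084) (556253, 92933) := c291.trans b292

theorem c293 : Seg 27500 (781253, 95084) (778128, 139957) := c292.trans b293

theorem c294 : Seg 28125 (781253, 95084) (1000003, 106177) := c293.trans b294

theorem c295 : Seg 28750 (781253, 95084) (1221878, 87931) := c294.trans b295

theorem c296 : Seg 29375 (781253, 95084) (1443753, 167795) := c295.trans b296

theorem c297 : Seg 30000 (781253, 95084) (1665628, 76689) := c296.trans b297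

theorem c298 : Seg 30625 (781253, 95084) (1887503, 103853) := c297.trans b298

theorem c299 : Seg 31250 (781253, 95084) (156253, 125001) := c298.trans b299

theorem c300 : Seg 31875 (781253, 95084) (378128, 88805) := c299.trans b300

theorem c301 : Seg 32500 (781253, 95084) (600003, 72437) := c300.trans b301

theorem c302 : Seg 33125 (781253, 95084) (821878, 80302) := c301.trans b302

theorem c303 : Seg 33750 (781253, 95084) (1043753, 162889) := c302.trans b303

theorem c304 : Seg 34375 (781253, 95084) (1265628, 105095) := c303.trans b304

theorem c305 : Seg 35000 (781253, 95084) (1487503, 158542) := c304.trans b305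

theorem c306 : Seg 35625 (781253, 95084) (1709378, 90285) := c305.trans b306

theorem c307 : Seg 36250 (781253, 95084) (1931253, 78372) := c306.trans b307

theorem c308 : Seg 36875 (781253, 95084) (200003, 177712) := c307.trans b308

theorem c309 : Seg 37500 (781253, 95084) (421878, 112830) := c308.trans b309

theorem c310 : Seg 38125 (781253, 95084) (643753, 103051) := c309.trans b310

theorem c311 : Seg 38750 (781253, 95084) (865628, 86947) := c310.trans b311

theorem c312 : Seg 39375 (781253, 95084) (1087503, 89137) := c311.trans b312

theorem c313 : Seg 40000 (781253, 95084) (1309378, 110983) := c312.trans b313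

theorem c314 : Seg 40625 (781253, 95084) (1531253, 107327) := c313.trans b314

theorem c315 : Seg 41250 (781253, 95084) (1753128, 149778) := c314.trans b315

theorem c316 : Seg 41875 (781253, 95084) (21878, 122403) := c315.trans b316

theorem c317 : Seg 42500 (781253, 95084) (243753, 84437) := c316.trans b317

theorem c318 : Seg 43125 (781253, 95084) (465628, 135495) := c317.trans b318

theorem c319 : Seg 43750 (781253, 95084) (687503, 122123) := c318.trans b319

theorem c320 : Seg 44375 (781253, 95084) (909378, 91045) := c319.trans b320

theorem c321 : Seg 45000 (781253, 95084) (1131253, 130322) := c320.trans b321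

theorem c322 : Seg 45625 (781253, 95084) (1353128, 64550) := c321.trans b322

theorem c323 : Seg 46250 (781253, 95084) (1575003, 140946) := c322.trans b323

theorem c324 : Seg 46875 (781253, 95084) (1796878, 116622) := c323.trans b324

theorem c325 : Seg 47500 (781253, 95084) (65628, 103125) := c324.trans b325

theorem c326 : Seg 48125 (781253, 95084) (287503, 74435) := c325.trans b326

theorem c327 : Seg 48750 (781253, 95084) (509378, 105918) := c326.trans b327

theorem c328 : Seg 49375 (781253, 95084) (731253, 146681) := c327.trans b328

theorem c329 : Seg 50000 (781253, 95084) (953128, 117736) := c328.trans b329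

theorem c330 : Seg 50625 (781253, 95084) (1175003, 143554) := c329.trans b330

theorem c331 : Seg 51250 (781253, 95084) (1396878, 104612) := c330.trans b331

theorem c332 : Seg 51875 (781253, 95084) (1618753, 86414) := c331.trans b332

theorem c333 : Seg 52500 (781253, 95084) (1840628, 148689) := c332.trans b333

theorem c334 : Seg 53125 (781253, 95084) (109378, 124041) := c333.trans b334

theorem c335 : Seg 53750 (781253, 95084) (331253, 139532) := c334.trans b335

theorem c336 : Seg 54375 (781253, 95084) (553128, 74311) := c335.trans b336

theorem c337 : Seg 55000 (781253, 95084) (775003, 100089) := c336.trans b337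

theorem c338 : Seg 55625 (781253, 95084) (996878, 112513) := c337.trans b338

theorem c339 : Seg 56250 (781253, 95084) (1218753, 127238) := c338.trans b339

theorem c340 : Seg 56875 (781253, 95084) (1440628, 145243) := c339.trans b340

theorem c341 : Seg 57500 (781253, 95084) (1662503, 102825) := c340.trans b341

theorem c342 : Seg 58125 (781253, 95084) (1884378, 81391) := c341.trans b342

theorem c343 : Seg 58750 (781253, 95084) (153128, 143735) := c342.trans b343

theorem c344 : Seg 59375 (781253, 95084) (375003, 83329) := c343.trans b344

theorem c345 : Seg 60000 (781253, 95084) (596878, 81627) := c344.trans b345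

theorem c346 : Seg 60625 (781253, 95084) (818753, 130372) := c345.trans b346

theorem c347 : Seg 61250 (781253, 95084) (1040628, 66465) := c346.trans b347

theorem c348 : Seg 61875 (781253, 95084) (1262503, 134635) := c347.trans b348

theorem c349 : Seg 62500 (781253, 95084) (1484378, 83133) := c348.trans b349

theorem c350 : Seg 63125 (781253, 95084) (1706253, 107805) := c349.trans b350

theorem c351 : Seg 63750 (781253, 95084) (1928128, 88071) := c350.trans b351

theorem c352 : Seg 64375 (781253, 95084) (196878, 86427) := c351.trans b352

theorem c353 : Seg 65000 (781253, 95084) (418753, 187799) := c352.trans b353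

theorem c354 : Seg 65625 (781253, 95084) (640628, 109013) := c353.trans b354

theorem c355 : Seg 66250 (781253, 95084) (862503, 128883) := c354.trans b355

theorem c356 : Seg 66875 (781253, 95084) (1084378, 91548) := c355.trans b356

theorem c357 : Seg 67500 (781253, 95084) (1306253, 67353) := c356.trans b357

theorem c358 : Seg 68125 (781253, 95084) (1528128, 174896) := c357.trans b358

theorem c359 : Seg 68750 (781253, 95084) (1750003, 95968) := c358.trans b359

theorem c360 : Seg 69375 (781253, 95084) (18753, 145009) := c359.trans b360

theorem c361 : Seg 70000 (781253, 95084) (240628, 82251) := c360.trans b361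

theorem c362 : Seg 70625 (781253, 95084) (462503, 104662) := c361.trans b362

theorem c363 : Seg 71250 (781253, 95084) (684378, 105201) := c362.trans b363

theorem c364 : Seg 71875 (781253, 95084) (906253, 88998) := c363.trans b364

theorem c365 : Seg 72500 (781253, 95084) (1128128, 98661) := c364.trans b365

theorem c366 : Seg 73125 (781253, 95084) (1350003, 112856) := c365.trans b366

theorem c367 : Seg 73750 (781253, 95084) (1571878, 94909) := c366.trans b367

theorem c368 : Seg 74375 (781253, 95084) (1793753, 154504) := c367.trans b368

theorem c369 : Seg 75000 (781253, 95084) (62503, 101252) := c368.trans b369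

theorem c370 : Seg 75625 (781253, 95084) (284378, 87934) := c369.trans b370

theorem c371 : Seg 76250 (781253, 95084) (506253, 117177) := c370.trans b371

theorem c372 : Seg 76875 (781253, 95084) (728128, 71489) := c371.trans b372

theorem c373 : Seg 77500 (781253, 95084) (950003, 111229) := c372.trans b373

theorem c374 : Seg 78125 (781253, 95084) (1171878, 103582) := c373.trans b374

end Pool.Agent.Lib.MP_02a951_nt
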