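import Pool.Agent.Lib.MP_02a951_nt.Run

set_option autoImplicit false

set_option maxRecDepth 100000

namespace Pool.Agent.Lib.MP_02a951_nt

theorem b375 : Seg 625 (1171878, 103582) (1393753, 90536) :=
  seg_of_run (by decide +kernel) (by norm_num) (by norm_num) (by norm_num)

theorem b376 : Seg 625 (1393753, 90536) (1615628, 92883) :=
  seg_of_run (by decide +kernel) (by norm_num) (by norm_num) (by norm_num)

theorem b377 : Seg 625 (1615628, 92883) (1837503, 92614) :=
  seg_of_run (by decide +kernel) (by norm_num) (by norm_num) (by norm_num)

theorem b378 : Seg 625 (1837503, 92614) (106253, 173142) :=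
  seg_of_run (by decide +kernel) (by norm_num) (by norm_num) (by norm_num)

theorem b379 : Seg 625 (106253, 173142) (328128, 112475) :=
  seg_of_run (by decide +kernel) (by norm_num) (by norm_num) (by norm_num)

theorem b380 : Seg 625 (328128, 112475) (550003, 127341) :=
  seg_of_run (by decide +kernel) (by norm_num) (by norm_num) (by norm_num)

theorem b381 : Seg 625 (550003, 127341) (771878, 94689) :=
  seg_of_run (by decide +kernel) (by norm_num) (by norm_num) (by norm_num)

theorem b382 : Seg 625 (771878, 94689) (993753, 74896) :=
  seg_of_run (by decide +kernel) (by norm_num) (by norm_num) (by norm_num)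

theorem b383 : Seg 625 (993753, 74896) (1215628, 114459) :=
  seg_of_run (by decide +kernel) (by norm_num) (by norm_num) (by norm_num)

theorem b384 : Seg 625 (1215628, 114459) (1437503, 101369) :=
  seg_of_run (by decide +kernel) (by norm_num) (by norm_num) (by norm_num)

theorem b385 : Seg 625 (1437503, 101369) (1659378, 125648) :=
  seg_of_run (by decide +kernel) (by norm_num) (by norm_num) (by norm_num)

theorem b386 : Seg 625 (1659378, 125648) (1881253, 72615) :=
  seg_of_run (by decide +kernel) (by norm_num) (by norm_num) (by norm_num)

theorem b387 : Seg 625 (1881253, 72615) (150003, 97183) :=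
  seg_of_run (by decide +kernel) (by norm_num) (by norm_num) (by norm_num)

theorem b388 : Seg 625 (150003, 97183) (371878, 84849) :=
  seg_of_run (by decide +kernel) (by norm_num) (by norm_num) (by norm_num)

theorem b389 : Seg 625 (371878, 84849) (593753, 106240) :=
  seg_of_run (by decide +kernel) (by norm_num) (by norm_num) (by norm_num)

theorem b390 : Seg 625 (593753, 106240) (815628, 136925) :=
  seg_of_run (by decide +kernel) (by norm_num) (by norm_num) (by norm_num)

theorem b391 : Seg 625 (815628, 136925) (1037503, 97345) :=
  seg_of_run (by decide +kernel) (by norm_num) (by norm_num) (by norm_num)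

theorem b392 : Seg 625 (1037503, 97345) (1259378, 82543) :=
  seg_of_run (by decide +kernel) (by norm_num) (by norm_num) (by norm_num)

theorem b393 : Seg 625 (1259378, 82543) (1481253, 119941) :=
  seg_of_run (by decide +kernel) (by norm_num) (by norm_num) (by norm_num)

theorem b394 : Seg 625 (1481253, 119941) (1703128, 88411) :=
  seg_of_run (by decide +kernel) (by norm_num) (by norm_num) (by norm_num)

theorem b395 : Seg 625 (1703128, 88411) (1925003, 102406) :=
  seg_of_run (by decide +kernel) (by norm_num) (by norm_num) (by norm_num)

theorem b396 : Seg 625 (1925003, 102406) (193753, 86681) :=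
  seg_of_run (by decide +kernel) (by norm_num) (by norm_num) (by norm_num)

theorem b397 : Seg 625 (193753, 86681) (415628, 69689) :=
  seg_of_run (by decide +kernel) (by norm_num) (by norm_num) (by norm_num)

theorem b398 : Seg 625 (415628, 69689) (637503, 115502) :=
  seg_of_run (by decide +kernel) (by norm_num) (by norm_num) (by norm_num)

theorem b399 : Seg 625 (637503, 115502) (859378, 88328) :=
  seg_of_run (by decide +kernel) (by norm_num) (by norm_num) (by norm_num)

theorem b400 : Seg 625 (859378, 88328) (1081253, 104362) :=
  seg_of_run (by decide +kernel) (by norm_num) (by norm_num) (by norm_num)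

theorem b401 : Seg 625 (1081253, 104362) (1303128, 112360) :=
  seg_of_run (by decide +kernel) (by norm_num) (by norm_num) (by norm_num)

theorem b402 : Seg 625 (1303128, 112360) (1525003, 81045) :=
  seg_of_run (by decide +kernel) (by norm_num) (by norm_num) (by norm_num)

theorem b403 : Seg 625 (1525003, 81045) (1746878, 244622) :=
  seg_of_run (by decide +kernel) (by norm_num) (by norm_num) (by norm_num)

theorem b404 : Seg 625 (1746878, 244622) (15628, 116842) :=
  seg_of_run (by decide +kernel) (by norm_num) (by norm_num) (by norm_num)

theorem b405 : Seg 625 (15628, 116842) (237503, 102430) :=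
  seg_of_run (by decide +kernel) (by norm_num) (by norm_num) (by norm_num)

theorem b406 : Seg 625 (237503, 102430) (459378, 81929) :=
  seg_of_run (by decide +kernel) (by norm_num) (by norm_num) (by norm_num)

theorem b407 : Seg 625 (459378, 81929) (681253, 94660) :=
  seg_of_run (by decide +kernel) (by norm_num) (by norm_num) (by norm_num)

theorem b408 : Seg 625 (681253, 94660) (903128, 198588) :=
  seg_of_run (by decide +kernel) (by norm_num) (by norm_num) (by norm_num)

theorem b409 : Seg 625 (903128, 198588) (1125003, 116372) :=
  seg_of_run (by decide +kernel) (by norm_num) (by norm_num) (by norm_num)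

theorem b410 : Seg 625 (1125003, 116372) (1346878, 141666) :=
  seg_of_run (by decide +kernel) (by norm_num) (by norm_num) (by norm_num)

theorem b411 : Seg 625 (1346878, 141666) (1568753, 80751) :=
  seg_of_run (by decide +kernel) (by norm_num) (by norm_num) (by norm_num)

theorem b412 : Seg 625 (1568753, 80751) (1790628, 114203) :=
  seg_of_run (by decide +kernel) (by norm_num) (by norm_num) (by norm_num)

theorem b413 : Seg 625 (1790628, 114203) (59378, 91973) :=
  seg_of_run (by decide +kernel) (by norm_num) (by norm_num) (by norm_num)

theorem b414 : Seg 625 (59378, 91973) (281253, 132206) :=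
  seg_of_run (by decide +kernel) (by norm_num) (by norm_num) (by norm_num)

theorem b415 : Seg 625 (281253, 132206) (503128, 136090) :=
  seg_of_run (by decide +kernel) (by norm_num) (by norm_num) (by norm_num)

theorem b416 : Seg 625 (503128, 136090) (725003, 95123) :=
  seg_of_run (by decide +kernel) (by norm_num) (by norm_num) (by norm_num)

theorem b417 : Seg 625 (725003, 95123) (946878, 87466) :=
  seg_of_run (by decide +kernel) (by norm_num) (by norm_num) (by norm_num)

theorem b418 : Seg 625 (946878, 87466) (1168753, 138120) :=
  seg_of_run (by decide +kernel) (by norm_num) (by norm_num) (by norm_num)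

theorem b419 : Seg 625 (1168753, 138120) (1390628, 89791) :=
  seg_of_run (by decide +kernel) (by norm_num) (by norm_num) (by norm_num)

theorem b420 : Seg 625 (1390628, 89791) (1612503, 95797) :=
  seg_of_run (by decide +kernel) (by norm_num) (by norm_num) (by norm_num)

theorem b421 : Seg 625 (1612503, 95797) (1834378, 143380) :=
  seg_of_run (by decide +kernel) (by norm_num) (by norm_num) (by norm_num)

theorem b422 : Seg 625 (1834378, 143380) (103128, 77230) :=
  seg_of_run (by decide +kernel) (by norm_num) (by norm_num) (by norm_num)

theorem b423 : Seg 625 (103128, 77230) (325003, 92343) :=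
  seg_of_run (by decide +kernel) (by norm_num) (by norm_num) (by norm_num)

theorem b424 : Seg 625 (325003, 92343) (546878, 126658) :=
  seg_of_run (by decide +kernel) (by norm_num) (by norm_num) (by norm_num)

theorem b425 : Seg 625 (546878, 126658) (768753, 89501) :=
  seg_of_run (by decide +kernel) (by norm_num) (by norm_num) (by norm_num)

theorem b426 : Seg 625 (768753, 89501) (990628, 70593) :=
  seg_of_run (by decide +kernel) (by norm_num) (by norm_num) (by norm_num)

theorem b427 : Seg 625 (990628, 70593) (1212503, 80775) :=
  seg_of_run (by decide +kernel) (by norm_num) (by norm_num) (by norm_num)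

theorem b428 : Seg 625 (1212503, 80775) (1434378, 148047) :=
  seg_of_run (by decide +kernel) (by norm_num) (by norm_num) (by norm_num)

theorem b429 : Seg 625 (1434378, 148047) (1656253, 88716) :=
  seg_of_run (by decide +kernel) (by norm_num) (by norm_num) (by norm_num)

theorem b430 : Seg 625 (1656253, 88716) (1878128, 140939) :=
  seg_of_run (by decide +kernel) (by norm_num) (by norm_num) (by norm_num)

theorem b431 : Seg 625 (1878128, 140939) (146878, 94083) :=
  seg_of_run (by decide +kernel) (by norm_num) (by norm_num) (by norm_num)

theorem b432 : Seg 625 (146878, 94083) (368753, 82484) :=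
  seg_of_run (by decide +kernel) (by norm_num) (by norm_num) (by norm_num)

theorem b433 : Seg 625 (368753, 82484) (590628, 146447) :=
  seg_of_run (by decide +kernel) (by norm_num) (by norm_num) (by norm_num)

theorem b434 : Seg 625 (590628, 146447) (812503, 114068) :=
  seg_of_run (by decide +kernel) (by norm_num) (by norm_num) (by norm_num)

theorem b435 : Seg 625 (812503, 114068) (1034378, 120118) :=
  seg_of_run (by decide +kernel) (by norm_num) (by norm_num) (by norm_num)

theorem b436 : Seg 625 (1034378, 120118) (1256253, 92664) :=
  seg_of_run (by decide +kernel) (by norm_num) (by norm_num) (by norm_num)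

theorem b437 : Seg 625 (1256253, 92664) (1478128, 80082) :=
  seg_of_run (by decide +kernel) (by norm_num) (by norm_num) (by norm_num)

theorem b438 : Seg 625 (1478128, 80082) (1700003, 124034) :=
  seg_of_run (by decide +kernel) (by norm_num) (by norm_num) (by norm_num)

theorem b439 : Seg 625 (1700003, 124034) (1921878, 102993) :=
  seg_of_run (by decide +kernel) (by norm_num) (by norm_num) (by norm_num)

theorem b440 : Seg 625 (1921878, 102993) (190628, 127567) :=
  seg_of_run (by decide +kernel) (by norm_num) (by norm_num) (by norm_num)

theorem b441 : Seg 625 (190628, 127567) (412503, 140656) :=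
  seg_of_run (by decide +kernel) (by norm_num) (by norm_num) (by norm_num)

theorem b442 : Seg 625 (412503, 140656) (634378, 78824) :=
  seg_of_run (by decide +kernel) (by norm_num) (by norm_num) (by norm_num)

theorem b443 : Seg 625 (634378, 78824) (856253, 129281) :=
  seg_of_run (by decide +kernel) (by norm_num) (by norm_num) (by norm_num)

theorem b444 : Seg 625 (856253, 129281) (1078128, 92099) :=
  seg_of_run (by decide +kernel) (by norm_num) (by norm_num) (by norm_num)

theorem b445 : Seg 625 (1078128, 92099) (1300003, 92903) :=
  seg_of_run (by decide +kernel) (by norm_num) (by norm_num) (by norm_num)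

theorem b446 : Seg 625 (1300003, 92903) (1521878, 111237) :=
  seg_of_run (by decide +kernel) (by norm_num) (by norm_num) (by norm_num)

theorem b447 : Seg 625 (1521878, 111237) (1743753, 66369) :=
  seg_of_run (by decide +kernel) (by norm_num) (by norm_num) (by norm_num)

theorem b448 : Seg 625 (1743753, 66369) (12503, 124804) :=
  seg_of_run (by decide +kernel) (by norm_num) (by norm_num) (by norm_num)

theorem b449 : Seg 625 (12503, 124804) (234378, 98048) :=
  seg_of_run (by decide +kernel) (by norm_num) (by norm_num) (by norm_num)

theorem b450 : Seg 625 (234378, 98048) (456253, 110619) :=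
  seg_of_run (by decide +kernel) (by norm_num) (by norm_num) (by norm_num)

theorem b451 : Seg 625 (456253, 110619) (678128, 87918) :=
  seg_of_run (by decide +kernel) (by norm_num) (by norm_num) (by norm_num)

theorem b452 : Seg 625 (678128, 87918) (900003, 87925) :=
  seg_of_run (by decide +kernel) (by norm_num) (by norm_num) (by norm_num)

theorem b453 : Seg 625 (900003, 87925) (1121878, 164584) :=
  seg_of_run (by decide +kernel) (by norm_num) (by norm_num) (by norm_num)

theorem b454 : Seg 625 (1121878, 164584) (1343753, 119555) :=
  seg_of_run (by decide +kernel) (by norm_num) (by norm_num) (by norm_num)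

theorem b455 : Seg 625 (1343753, 119555) (1565628, 131031) :=
  seg_of_run (by decide +kernel) (by norm_num) (by norm_num) (by norm_num)

theorem b456 : Seg 625 (1565628, 131031) (1787503, 110802) :=
  seg_of_run (by decide +kernel) (by norm_num) (by norm_num) (by norm_num)

theorem b457 : Seg 625 (1787503, 110802) (56253, 84872) :=
  seg_of_run (by decide +kernel) (by norm_num) (by norm_num) (by norm_num)

theorem b458 : Seg 625 (56253, 84872) (278128, 137793) :=
  seg_of_run (by decide +kernel) (by norm_num) (by norm_num) (by norm_num)

theorem b459 : Seg 625 (278128, 137793) (500003, 109734) :=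
  seg_of_run (by decide +kernel) (by norm_num) (by norm_num) (by norm_num)

theorem b460 : Seg 625 (500003, 109734) (721878, 179238) :=
  seg_of_run (by decide +kernel) (by norm_num) (by norm_num) (by norm_num)

theorem b461 : Seg 625 (721878, 179238) (943753, 79787) :=
  seg_of_run (by decide +kernel) (by norm_num) (by norm_num) (by norm_num)

theorem b462 : Seg 625 (943753, 79787) (1165628, 93616) :=
  seg_of_run (by decide +kernel) (by norm_num) (by norm_num) (by norm_num)

theorem b463 : Seg 625 (1165628, 93616) (1387503, 100097) :=
  seg_of_run (by decide +kernel) (by norm_num) (by norm_num) (by norm_num)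

theorem b464 : Seg 625 (1387503, 100097) (1609378, 137976) :=
  seg_of_run (by decide +kernel) (by norm_num) (by norm_num) (by norm_num)

theorem b465 : Seg 625 (1609378, 137976) (1831253, 148911) :=
  seg_of_run (by decide +kernel) (by norm_num) (by norm_num) (by norm_num)

theorem b466 : Seg 625 (1831253, 148911) (100003, 118949) :=
  seg_of_run (by decide +kernel) (by norm_num) (by norm_num) (by norm_num)

theorem b467 : Seg 625 (100003, 118949) (321878, 97627) :=
  seg_of_run (by decide +kernel) (by norm_num) (by norm_num) (by norm_num)

theorem b468 : Seg 625 (321878, 97627) (543753, 146826) :=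
  seg_of_run (by decide +kernel) (by norm_num) (by norm_num) (by norm_num)

theorem b469 : Seg 625 (543753, 146826) (765628, 94713) :=
  seg_of_run (by decide +kernel) (by norm_num) (by norm_num) (by norm_num)

theorem b470 : Seg 625 (765628, 94713) (987503, 90174) :=
  seg_of_run (by decide +kernel) (by norm_num) (by norm_num) (by norm_num)

theorem b471 : Seg 625 (987503, 90174) (1209378, 131954) :=
  seg_of_run (by decide +kernel) (by norm_num) (by norm_num) (by norm_num)

theorem b472 : Seg 625 (1209378, 131954) (1431253, 80472) :=
  seg_of_run (by decide +kernel) (by norm_num) (by norm_num) (by norm_num)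

theorem b473 : Seg 625 (1431253, 80472) (1653128, 125180) :=
  seg_of_run (by decide +kernel) (by norm_num) (by norm_num) (by norm_num)

theorem b474 : Seg 625 (1653128, 125180) (1875003, 83811) :=
  seg_of_run (by decide +kernel) (by norm_num) (by norm_num) (by norm_num)

theorem b475 : Seg 625 (1875003, 83811) (143753, 113111) :=
  seg_of_run (by decide +kernel) (by norm_num) (by norm_num) (by norm_num)

theorem b476 : Seg 625 (143753, 113111) (365628, 89255) :=
  seg_of_run (by decide +kernel) (by norm_num) (by norm_num) (by norm_num)

theorem b477 : Seg 625 (365628, 89255) (587503, 83139) :=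
  seg_of_run (by decide +kernel) (by norm_num) (by norm_num) (by norm_num)

theorem b478 : Seg 625 (587503, 83139) (809378, 159721) :=
  seg_of_run (by decide +kernel) (by norm_num) (by norm_num) (by norm_num)

theorem b479 : Seg 625 (809378, 159721) (1031253, 108064) :=
  seg_of_run (by decide +kernel) (by norm_num) (by norm_num) (by norm_num)

theorem b480 : Seg 625 (1031253, 108064) (1253128, 158836) :=
  seg_of_run (by decide +kernel) (by norm_num) (by norm_num) (by norm_num)

theorem b481 : Seg 625 (1253128, 158836) (1475003, 96340) :=
  seg_of_run (by decide +kernel) (by norm_num) (by norm_num) (by norm_num)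

theorem b482 : Seg 625 (1475003, 96340) (1696878, 75680) :=
  seg_of_run (by decide +kernel) (by norm_num) (by norm_num) (by norm_num)

theorem b483 : Seg 625 (1696878, 75680) (1918753, 166129) :=
  seg_of_run (by decide +kernel) (by norm_num) (by norm_num) (by norm_num)

theorem b484 : Seg 625 (1918753, 166129) (187503, 107798) :=
  seg_of_run (by decide +kernel) (by norm_num) (by norm_num) (by norm_num)

theorem b485 : Seg 625 (187503, 107798) (409378, 133983) :=
  seg_of_run (by decide +kernel) (by norm_num) (by norm_num) (by norm_num)

theorem b486 : Seg 625 (409378, 133983) (631253, 79974) :=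
  seg_of_run (by decide +kernel) (by norm_num) (by norm_num) (by norm_num)

theorem b487 : Seg 625 (631253, 79974) (853128, 100715) :=
  seg_of_run (by decide +kernel) (by norm_num) (by norm_num) (by norm_num)

theorem b488 : Seg 625 (853128, 100715) (1075003, 126423) :=
  seg_of_run (by decide +kernel) (by norm_num) (by norm_num) (by norm_num)

theorem b489 : Seg 625 (1075003, 126423) (1296878, 82993) :=
  seg_of_run (by decide +kernel) (by norm_num) (by norm_num) (by norm_num)

theorem b490 : Seg 625 (1296878, 82993) (1518753, 123421) :=
  seg_of_run (by decide +kernel) (by norm_num) (by norm_num) (by norm_num)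

theorem b491 : Seg 625 (1518753, 123421) (1740628, 128838) :=
  seg_of_run (by decide +kernel) (by norm_num) (by norm_num) (by norm_num)

theorem b492 : Seg 625 (1740628, 128838) (9378, 88737) :=
  seg_of_run (by decide +kernel) (by norm_num) (by norm_num) (by norm_num)

theorem b493 : Seg 625 (9378, 88737) (231253, 142126) :=
  seg_of_run (by decide +kernel) (by norm_num) (by norm_num) (by norm_num)

theorem b494 : Seg 625 (231253, 142126) (453128, 93997) :=
  seg_of_run (by decide +kernel) (by norm_num) (by norm_num) (by norm_num)

theorem b495 : Seg 625 (453128, 93997) (675003, 89325) :=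
  seg_of_run (by decide +kernel) (by norm_num) (by norm_num) (by norm_num)

theorem b496 : Seg 625 (675003, 89325) (896878, 106522) :=
  seg_of_run (by decide +kernel) (by norm_num) (by norm_num) (by norm_num)

theorem b497 : Seg 625 (896878, 106522) (1118753, 73299) :=
  seg_of_run (by decide +kernel) (by norm_num) (by norm_num) (by norm_num)

theorem b498 : Seg 625 (1118753, 73299) (1340628, 132061) :=
  seg_of_run (by decide +kernel) (by norm_num) (by norm_num) (by norm_num)

theorem b499 : Seg 625 (1340628, 132061) (1562503, 96899) :=
  seg_of_run (by decide +kernel) (by norm_num) (by norm_num) (by norm_num)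

theorem c375 : Seg 625 (1171878, 103582) (1393753, 90536) := b375

theorem c376 : Seg 1250 (1171878, 103582) (1615628, 92883) := c375.trans b376

theorem c377 : Seg 1875 (1171878, 103582) (1837503, 92614) := c376.trans b377

theorem c378 : Seg 2500 (1171878, 103582) (106253, 173142) := c377.trans b378

theorem c379 : Seg 3125 (1171878, 103582) (328128, 112475) := c378.trans b379

theorem c380 : Seg 3750 (1171878, 103582) (550003, 127341) := c379.trans b380

theorem c381 : Seg 4375 (1171878, 103582) (771878, 94689) := c380.trans b381

theorem c382 : Seg 5000 (1171878, 103582) (993753, 74896) := c381.trans b382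

theorem c383 : Seg 5625 (1171878, 103582) (1215628, 114459) := c382.trans b383

theorem c384 : Seg 6250 (1171878, 103582) (1437503, 101369) := c383.trans b384

theorem c385 : Seg 6875 (1171878, 103582) (1659378, 125648) := c384.trans b385

theorem c386 : Seg 7500 (1171878, 103582) (1881253, 72615) := c385.trans b386

theorem c387 : Seg 8125 (1171878, 103582) (150003, 97183) := c386.trans b387

theorem c388 : Seg 8750 (1171878, 103582) (371878, 84849) := c387.trans b388

theorem c389 : Seg 9375 (1171878, 103582) (593753, 106240) := c388.trans b389

theorem c390 : Seg 10000 (1171878, 103582) (815628, 136925) := c389.trans b390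

theorem c391 : Seg 10625 (1171878, 103582) (1037503, 97345) := c390.trans b391

theorem c392 : Seg 11250 (1171878, 103582) (1259378, 82543) := c391.trans b392

theorem c393 : Seg 11875 (1171878, 103582) (1481253, 119941) := c392.trans b393

theorem c394 : Seg 12500 (1171878, 103582) (1703128, 88411) := c393.trans b394

theorem c395 : Seg 13125 (1171878, 103582) (1925003, 102406) := c394.trans b395

theorem c396 : Seg 13750 (1171878, 103582) (193753, 86681) := c395.trans b396

theorem c397 : Seg 14375 (1171878, 103582) (415628, 69689) := c396.trans b397

theorem c398 : Seg 15000 (1171878, 103582) (637503, 115502) := c397.trans b398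

theorem c399 : Seg 15625 (1171878, 103582) (859378, 88328) := c398.trans b399

theorem c400 : Seg 16250 (1171878, 103582) (1081253, 104362) := c399.trans b400

theorem c401 : Seg 16875 (1171878, 103582) (1303128, 112360) := c400.trans b401

theorem c402 : Seg 17500 (1171878, 103582) (1525003, 81045) := c401.trans b402

theorem c403 : Seg 18125 (1171878, 103582) (1746878, 244622) := c402.trans b403

theorem c404 : Seg 18750 (1171878, 103582) (15628, 116842) := c403.trans b404

theorem c405 : Seg 19375 (1171878, 103582) (237503, 102430) := c404.trans b405

theorem c406 : Seg 20000 (1171878, 103582) (459378, 81929) := c405.trans b406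

theorem c407 : Seg 20625 (1171878, 103582) (681253, 94660) := c406.trans b407

theorem c408 : Seg 21250 (1171878, 103582) (903128, 198588) := c407.trans b408

theorem c409 : Seg 21875 (1171878, 103582) (1125003, 116372) := c408.trans b409

theorem c410 : Seg 22500 (1171878, 103582) (1346878, 141666) := c409.trans b410

theorem c411 : Seg 23125 (1171878, 103582) (1568753, 80751) := c410.trans b411

theorem c412 : Seg 23750 (1171878, 103582) (1790628, 114203) := c411.trans b412

theorem c413 : Seg 24375 (1171878, 103582) (59378, 91973) := c412.trans b413

theorem c414 : Seg 25000 (1171878, 103582) (281253, 132206) := c413.trans b414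

theorem c415 : Seg 25625 (1171878, 103582) (503128, 136090) := c414.trans b415

theorem c416 : Seg 26250 (1171878, 103582) (725003, 95123) := c415.trans b416

theorem c417 : Seg 26875 (1171878, 103582) (946878, 87466) := c416.trans b417

theorem c418 : Seg 27500 (1171878, 103582) (1168753, 138120) := c417.trans b418

theorem c419 : Seg 28125 (1171878, 103582) (1390628, 89791) := c418.trans b419

theorem c420 : Seg 28750 (1171878, 103582) (1612503, 95797) := c419.trans b420

theorem c421 : Seg 29375 (1171878, 103582) (1834378, 143380) := c420.trans b421

theorem c422 : Seg 30000 (1171878, 103582) (103128, 77230) := c421.trans b422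

theorem c423 : Seg 30625 (1171878, 103582) (325003, 92343) := c422.trans b423

theorem c424 : Seg 31250 (1171878, 103582) (546878, 126658) := c423.trans b424

theorem c425 : Seg 31875 (1171878, 103582) (768753, 89501) := c424.trans b425

theorem c426 : Seg 32500 (1171878, 103582) (990628, 70593) := c425.trans b426

theorem c427 : Seg 33125 (1171878, 103582) (1212503, 80775) := c426.trans b427

theorem c428 : Seg 33750 (1171878, 103582) (1434378, 148047) := c427.trans b428

theorem c429 : Seg 34375 (1171878, 103582) (1656253, 88716) := c428.trans b429

theorem c430 : Seg 35000 (1171878, 103582) (1878128, 140939) := c429.trans b430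

theorem c431 : Seg 35625 (1171878, 103582) (146878, 94083) := c430.trans b431

theorem c432 : Seg 36250 (1171878, 103582) (368753, 82484) := c431.trans b432

theorem c433 : Seg 36875 (1171878, 103582) (590628, 146447) := c432.trans b433

theorem c434 : Seg 37500 (1171878, 103582) (812503, 114068) := c433.trans b434

theorem c435 : Seg 38125 (1171878, 103582) (1034378, 120118) := c434.trans b435

theorem c436 : Seg 38750 (1171878, 103582) (1256253, 92664) := c435.trans b436

theorem c437 : Seg 39375 (1171878, 103582) (1478128, 80082) := c436.trans b437

theorem c438 : Seg 40000 (1171878, 103582) (1700003, 124034) := c437.trans b438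

theorem c439 : Seg 40625 (1171878, 103582) (1921878, 102993) := c438.trans b439

theorem c440 : Seg 41250 (1171878, 103582) (190628, 127567) := c439.trans b440

theorem c441 : Seg 41875 (1171878, 103582) (412503, 140656) := c440.trans b441

theorem c442 : Seg 42500 (1171878, 103582) (634378, 78824) := c441.trans b442

theorem c443 : Seg 43125 (1171878, 103582) (856253, 129281) := c442.trans b443

theorem c444 : Seg 43750 (1171878, 103582) (1078128, 92099) := c443.trans b444

theorem c445 : Seg 44375 (1171878, 103582) (1300003, 92903) := c444.trans b445

theorem c446 : Seg 45000 (1171878, 103582) (1521878, 111237) := c445.trans b446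

theorem c447 : Seg 45625 (1171878, 103582) (1743753, 66369) := c446.trans b447

theorem c448 : Seg 46250 (1171878, 103582) (12503, 124804) := c447.trans b448

theorem c449 : Seg 46875 (1171878, 103582) (234378, 98048) := c448.trans b449

theorem c450 : Seg 47500 (1171878, 103582) (456253, 110619) := c449.trans b450

theorem c451 : Seg 48125 (1171878, 103582) (678128, 87918) := c450.trans b451

theorem c452 : Seg 48750 (1171878, 103582) (900003, 87925) := c451.trans b452

theorem c453 : Seg 49375 (1171878, 103582) (1121878, 164584) := c452.trans b453

theorem c454 : Seg 50000 (1171878, 103582) (1343753, 119555) := c453.trans b454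

theorem c455 : Seg 50625 (1171878, 103582) (1565628, 131031) := c454.trans b455

theorem c456 : Seg 51250 (1171878, 103582) (1787503, 110802) := c455.trans b456

theorem c457 : Seg 51875 (1171878, 103582) (56253, 84872) := c456.trans b457

theorem c458 : Seg 52500 (1171878, 103582) (278128, 137793) := c457.trans b458

theorem c459 : Seg 53125 (1171878, 103582) (500003, 109734) := c458.trans b459

theorem c460 : Seg 53750 (1171878, 103582) (721878, 179238) := c459.trans b460

theorem c461 : Seg 54375 (1171878, 103582) (943753, 79787) := c460.trans b461

theorem c462 : Seg 55000 (1171878, 103582) (1165628, 93616) := c461.trans b462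

theorem c463 : Seg 55625 (1171878, 103582) (1387503, 100097) := c462.trans b463

theorem c464 : Seg 56250 (1171878, 103582) (1609378, 137976) := c463.trans b464

theorem c465 : Seg 56875 (1171878, 103582) (1831253, 148911) := c464.trans b465

theorem c466 : Seg 57500 (1171878, 103582) (100003, 118949) := c465.trans b466

theorem c467 : Seg 58125 (1171878, 103582) (321878, 97627) := c466.trans b467

theorem c468 : Seg 58750 (1171878, 103582) (543753, 146826) := c467.trans b468

theorem c469 : Seg 59375 (1171878, 103582) (765628, 94713) := c468.trans b469

theorem c470 : Seg 60000 (1171878, 103582) (987503, 90174) := c469.trans b470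

theorem c471 : Seg 60625 (1171878, 103582) (1209378, 131954) := c470.trans b471

theorem c472 : Seg 61250 (1171878, 103582) (1431253, 80472) := c471.trans b472

theorem c473 : Seg 61875 (1171878, 103582) (1653128, 125180) := c472.trans b473

theorem c474 : Seg 62500 (1171878, 103582) (1875003, 83811) := c473.trans b474

theorem c475 : Seg 63125 (1171878, 103582) (143753, 113111) := c474.trans b475

theorem c476 : Seg 63750 (1171878, 103582) (365628, 89255) := c475.trans b476

theorem c477 : Seg 64375 (1171878, 103582) (587503, 83139) := c476.trans b477

theorem c478 : Seg 65000 (1171878, 103582) (809378, 159721) := c477.trans b478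

theorem c479 : Seg 65625 (1171878, 103582) (1031253, 108064) := c478.trans b479

theorem c480 : Seg 66250 (1171878, 103582) (1253128, 158836) := c479.trans b480

theorem c481 : Seg 66875 (1171878, 103582) (1475003, 96340) := c480.trans b481

theorem c482 : Seg 67500 (1171878, 103582) (1696878, 75680) := c481.trans b482

theorem c483 : Seg 68125 (1171878, 103582) (1918753, 166129) := c482.trans b483

theorem c484 : Seg 68750 (1171878, 103582) (187503, 107798) := c483.trans b484

theorem c485 : Seg 69375 (1171878, 103582) (409378, 133983) := c484.trans b485

theorem c486 : Seg 70000 (1171878, 103582) (631253, 79974) := c485.trans b486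

theorem c487 : Seg 70625 (1171878, 103582) (853128, 100715) := c486.trans b487

theorem c488 : Seg 71250 (1171878, 103582) (1075003, 126423) := c487.trans b488

theorem c489 : Seg 71875 (1171878, 103582) (1296878, 82993) := c488.trans b489

theorem c490 : Seg 72500 (1171878, 103582) (1518753, 123421) := c489.trans b490

theorem c491 : Seg 73125 (1171878, 103582) (1740628, 128838) := c490.trans b491

theorem c492 : Seg 73750 (1171878, 103582) (9378, 88737) := c491.trans b492

theorem c493 : Seg 74375 (1171878, 103582) (231253, 142126) := c492.trans b493

theorem c494 : Seg 75000 (1171878, 103582) (453128, 93997) := c493.trans b494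

theorem c495 : Seg 75625 (1171878, 103582) (675003, 89325) := c494.trans b495

theorem c496 : Seg 76250 (1171878, 103582) (896878, 106522) := c495.trans b496

theorem c497 : Seg 76875 (1171878, 103582) (1118753, 73299) := c496.trans b497

theorem c498 : Seg 77500 (1171878, 103582) (1340628, 132061) := c497.trans b498

theorem c499 : Seg 78125 (1171878, 103582) (1562503, 96899) := c498.trans b499

end Pool.Agent.Lib.MP_02a951_nt
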