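import Pool.Agent.Lib.MP_02a951_nt.Run

set_option autoImplicit false

set_option maxRecDepth 100000

namespace Pool.Agent.Lib.MP_02a951_nt

theorem b500 : Seg 625 (1562503, 96899) (1784378, 101921) :=
  seg_of_run (by decide +kernel) (by norm_num) (by norm_num) (by norm_num)

theorem b501 : Seg 625 (1784378, 101921) (53128, 95801) :=
  seg_of_run (by decide +kernel) (by norm_num) (by norm_num) (by norm_num)

theorem b502 : Seg 625 (53128, 95801) (275003, 84788) :=
  seg_of_run (by decide +kernel) (by norm_num) (by norm_num) (by norm_num)

theorem b503 : Seg 625 (275003, 84788) (496878, 165946) :=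
  seg_of_run (by decide +kernel) (by norm_num) (by norm_num) (by norm_num)

theorem b504 : Seg 625 (496878, 165946) (718753, 120599) :=
  seg_of_run (by decide +kernel) (by norm_num) (by norm_num) (by norm_num)

theorem b505 : Seg 625 (718753, 120599) (940628, 142251) :=
  seg_of_run (by decide +kernel) (by norm_num) (by norm_num) (by norm_num)

theorem b506 : Seg 625 (940628, 142251) (1162503, 112143) :=
  seg_of_run (by decide +kernel) (by norm_num) (by norm_num) (by norm_num)

theorem b507 : Seg 625 (1162503, 112143) (1384378, 67580) :=
  seg_of_run (by decide +kernel) (by norm_num) (by norm_num) (by norm_num)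

theorem b508 : Seg 625 (1384378, 67580) (1606253, 145939) :=
  seg_of_run (by decide +kernel) (by norm_num) (by norm_num) (by norm_num)

theorem b509 : Seg 625 (1606253, 145939) (1828128, 103722) :=
  seg_of_run (by decide +kernel) (by norm_num) (by norm_num) (by norm_num)

theorem b510 : Seg 625 (1828128, 103722) (96878, 146023) :=
  seg_of_run (by decide +kernel) (by norm_num) (by norm_num) (by norm_num)

theorem b511 : Seg 625 (96878, 146023) (318753, 81269) :=
  seg_of_run (by decide +kernel) (by norm_num) (by norm_num) (by norm_num)

theorem b512 : Seg 625 (318753, 81269) (540628, 100953) :=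
  seg_of_run (by decide +kernel) (by norm_num) (by norm_num) (by norm_num)

theorem b513 : Seg 625 (540628, 100953) (762503, 85865) :=
  seg_of_run (by decide +kernel) (by norm_num) (by norm_num) (by norm_num)

theorem b514 : Seg 625 (762503, 85865) (984378, 97308) :=
  seg_of_run (by decide +kernel) (by norm_num) (by norm_num) (by norm_num)

theorem b515 : Seg 625 (984378, 97308) (1206253, 116759) :=
  seg_of_run (by decide +kernel) (by norm_num) (by norm_num) (by norm_num)

theorem b516 : Seg 625 (1206253, 116759) (1428128, 119119) :=
  seg_of_run (by decide +kernel) (by norm_num) (by norm_num) (by norm_num)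

theorem b517 : Seg 625 (1428128, 119119) (1650003, 90133) :=
  seg_of_run (by decide +kernel) (by norm_num) (by norm_num) (by norm_num)

theorem b518 : Seg 625 (1650003, 90133) (1871878, 128039) :=
  seg_of_run (by decide +kernel) (by norm_num) (by norm_num) (by norm_num)

theorem b519 : Seg 625 (1871878, 128039) (140628, 81391) :=
  seg_of_run (by decide +kernel) (by norm_num) (by norm_num) (by norm_num)

theorem b520 : Seg 625 (140628, 81391) (362503, 98485) :=
  seg_of_run (by decide +kernel) (by norm_num) (by norm_num) (by norm_num)

theorem b521 : Seg 625 (362503, 98485) (584378, 100655) :=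
  seg_of_run (by decide +kernel) (by norm_num) (by norm_num) (by norm_num)

theorem b522 : Seg 625 (584378, 100655) (806253, 65315) :=
  seg_of_run (by decide +kernel) (by norm_num) (by norm_num) (by norm_num)

theorem b523 : Seg 625 (806253, 65315) (1028128, 112056) :=
  seg_of_run (by decide +kernel) (by norm_num) (by norm_num) (by norm_num)

theorem b524 : Seg 625 (1028128, 112056) (1250003, 97744) :=
  seg_of_run (by decide +kernel) (by norm_num) (by norm_num) (by norm_num)

theorem b525 : Seg 625 (1250003, 97744) (1471878, 111989) :=
  seg_of_run (by decide +kernel) (by norm_num) (by norm_num) (by norm_num)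

theorem b526 : Seg 625 (1471878, 111989) (1693753, 100972) :=
  seg_of_run (by decide +kernel) (by norm_num) (by norm_num) (by norm_num)

theorem b527 : Seg 625 (1693753, 100972) (1915628, 92668) :=
  seg_of_run (by decide +kernel) (by norm_num) (by norm_num) (by norm_num)

theorem b528 : Seg 625 (1915628, 92668) (184378, 251827) :=
  seg_of_run (by decide +kernel) (by norm_num) (by norm_num) (by norm_num)

theorem b529 : Seg 625 (184378, 251827) (406253, 114061) :=
  seg_of_run (by decide +kernel) (by norm_num) (by norm_num) (by norm_num)

theorem b530 : Seg 625 (406253, 114061) (628128, 109077) :=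
  seg_of_run (by decide +kernel) (by norm_num) (by norm_num) (by norm_num)

theorem b531 : Seg 625 (628128, 109077) (850003, 105988) :=
  seg_of_run (by decide +kernel) (by norm_num) (by norm_num) (by norm_num)

theorem b532 : Seg 625 (850003, 105988) (1071878, 82512) :=
  seg_of_run (by decide +kernel) (by norm_num) (by norm_num) (by norm_num)

theorem b533 : Seg 625 (1071878, 82512) (1293753, 137346) :=
  seg_of_run (by decide +kernel) (by norm_num) (by norm_num) (by norm_num)

theorem b534 : Seg 625 (1293753, 137346) (1515628, 150517) :=
  seg_of_run (by decide +kernel) (by norm_num) (by norm_num) (by norm_num)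

theorem b535 : Seg 625 (1515628, 150517) (1737503, 117871) :=
  seg_of_run (by decide +kernel) (by norm_num) (by norm_num) (by norm_num)

theorem b536 : Seg 625 (1737503, 117871) (6253, 91367) :=
  seg_of_run (by decide +kernel) (by norm_num) (by norm_num) (by norm_num)

theorem b537 : Seg 625 (6253, 91367) (228128, 112507) :=
  seg_of_run (by decide +kernel) (by norm_num) (by norm_num) (by norm_num)

theorem b538 : Seg 625 (228128, 112507) (450003, 106348) :=
  seg_of_run (by decide +kernel) (by norm_num) (by norm_num) (by norm_num)

theorem b539 : Seg 625 (450003, 106348) (671878, 115848) :=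
  seg_of_run (by decide +kernel) (by norm_num) (by norm_num) (by norm_num)

theorem b540 : Seg 625 (671878, 115848) (893753, 191481) :=
  seg_of_run (by decide +kernel) (by norm_num) (by norm_num) (by norm_num)

theorem b541 : Seg 625 (893753, 191481) (1115628, 102133) :=
  seg_of_run (by decide +kernel) (by norm_num) (by norm_num) (by norm_num)

theorem b542 : Seg 625 (1115628, 102133) (1337503, 83319) :=
  seg_of_run (by decide +kernel) (by norm_num) (by norm_num) (by norm_num)

theorem b543 : Seg 625 (1337503, 83319) (1559378, 163311) :=
  seg_of_run (by decide +kernel) (by norm_num) (by norm_num) (by norm_num)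

theorem b544 : Seg 625 (1559378, 163311) (1781253, 111087) :=
  seg_of_run (by decide +kernel) (by norm_num) (by norm_num) (by norm_num)

theorem b545 : Seg 625 (1781253, 111087) (50003, 95980) :=
  seg_of_run (by decide +kernel) (by norm_num) (by norm_num) (by norm_num)

theorem b546 : Seg 625 (50003, 95980) (271878, 159735) :=
  seg_of_run (by decide +kernel) (by norm_num) (by norm_num) (by norm_num)

theorem b547 : Seg 625 (271878, 159735) (493753, 78040) :=
  seg_of_run (by decide +kernel) (by norm_num) (by norm_num) (by norm_num)

theorem b548 : Seg 625 (493753, 78040) (715628, 109938) :=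
  seg_of_run (by decide +kernel) (by norm_num) (by norm_num) (by norm_num)

theorem b549 : Seg 625 (715628, 109938) (937503, 130743) :=
  seg_of_run (by decide +kernel) (by norm_num) (by norm_num) (by norm_num)

theorem b550 : Seg 625 (937503, 130743) (1159378, 98121) :=
  seg_of_run (by decide +kernel) (by norm_num) (by norm_num) (by norm_num)

theorem b551 : Seg 625 (1159378, 98121) (1381253, 82962) :=
  seg_of_run (by decide +kernel) (by norm_num) (by norm_num) (by norm_num)

theorem b552 : Seg 625 (1381253, 82962) (1603128, 83225) :=
  seg_of_run (by decide +kernel) (by norm_num) (by norm_num) (by norm_num)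

theorem b553 : Seg 625 (1603128, 83225) (1825003, 136003) :=
  seg_of_run (by decide +kernel) (by norm_num) (by norm_num) (by norm_num)

theorem b554 : Seg 625 (1825003, 136003) (93753, 101745) :=
  seg_of_run (by decide +kernel) (by norm_num) (by norm_num) (by norm_num)

theorem b555 : Seg 625 (93753, 101745) (315628, 179002) :=
  seg_of_run (by decide +kernel) (by norm_num) (by norm_num) (by norm_num)

theorem b556 : Seg 625 (315628, 179002) (537503, 100431) :=
  seg_of_run (by decide +kernel) (by norm_num) (by norm_num) (by norm_num)

theorem b557 : Seg 625 (537503, 100431) (759378, 87231) :=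
  seg_of_run (by decide +kernel) (by norm_num) (by norm_num) (by norm_num)

theorem b558 : Seg 625 (759378, 87231) (981253, 220736) :=
  seg_of_run (by decide +kernel) (by norm_num) (by norm_num) (by norm_num)

theorem b559 : Seg 625 (981253, 220736) (1203128, 98232) :=
  seg_of_run (by decide +kernel) (by norm_num) (by norm_num) (by norm_num)

theorem b560 : Seg 625 (1203128, 98232) (1425003, 120439) :=
  seg_of_run (by decide +kernel) (by norm_num) (by norm_num) (by norm_num)

theorem b561 : Seg 625 (1425003, 120439) (1646878, 80986) :=
  seg_of_run (by decide +kernel) (by norm_num) (by norm_num) (by norm_num)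

theorem b562 : Seg 625 (1646878, 80986) (1868753, 94669) :=
  seg_of_run (by decide +kernel) (by norm_num) (by norm_num) (by norm_num)

theorem b563 : Seg 625 (1868753, 94669) (137503, 125272) :=
  seg_of_run (by decide +kernel) (by norm_num) (by norm_num) (by norm_num)

theorem b564 : Seg 625 (137503, 125272) (359378, 100151) :=
  seg_of_run (by decide +kernel) (by norm_num) (by norm_num) (by norm_num)

theorem b565 : Seg 625 (359378, 100151) (581253, 122291) :=
  seg_of_run (by decide +kernel) (by norm_num) (by norm_num) (by norm_num)

theorem b566 : Seg 625 (581253, 122291) (803128, 104668) :=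
  seg_of_run (by decide +kernel) (by norm_num) (by norm_num) (by norm_num)

theorem b567 : Seg 625 (803128, 104668) (1025003, 77968) :=
  seg_of_run (by decide +kernel) (by norm_num) (by norm_num) (by norm_num)

theorem b568 : Seg 625 (1025003, 77968) (1246878, 125236) :=
  seg_of_run (by decide +kernel) (by norm_num) (by norm_num) (by norm_num)

theorem b569 : Seg 625 (1246878, 125236) (1468753, 94869) :=
  seg_of_run (by decide +kernel) (by norm_num) (by norm_num) (by norm_num)

theorem b570 : Seg 625 (1468753, 94869) (1690628, 95335) :=
  seg_of_run (by decide +kernel) (by norm_num) (by norm_num) (by norm_num)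

theorem b571 : Seg 625 (1690628, 95335) (1912503, 106724) :=
  seg_of_run (by decide +kernel) (by norm_num) (by norm_num) (by norm_num)

theorem b572 : Seg 625 (1912503, 106724) (181253, 65881) :=
  seg_of_run (by decide +kernel) (by norm_num) (by norm_num) (by norm_num)

theorem b573 : Seg 625 (181253, 65881) (403128, 154379) :=
  seg_of_run (by decide +kernel) (by norm_num) (by norm_num) (by norm_num)

theorem b574 : Seg 625 (403128, 154379) (625003, 120188) :=
  seg_of_run (by decide +kernel) (by norm_num) (by norm_num) (by norm_num)

theorem b575 : Seg 625 (625003, 120188) (846878, 99654) :=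
  seg_of_run (by decide +kernel) (by norm_num) (by norm_num) (by norm_num)

theorem b576 : Seg 625 (846878, 99654) (1068753, 83011) :=
  seg_of_run (by decide +kernel) (by norm_num) (by norm_num) (by norm_num)

theorem b577 : Seg 625 (1068753, 83011) (1290628, 105956) :=
  seg_of_run (by decide +kernel) (by norm_num) (by norm_num) (by norm_num)

theorem b578 : Seg 625 (1290628, 105956) (1512503, 135511) :=
  seg_of_run (by decide +kernel) (by norm_num) (by norm_num) (by norm_num)

theorem b579 : Seg 625 (1512503, 135511) (1734378, 108778) :=
  seg_of_run (by decide +kernel) (by norm_num) (by norm_num) (by norm_num)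

theorem b580 : Seg 625 (1734378, 108778) (3128, 110562) :=
  seg_of_run (by decide +kernel) (by norm_num) (by norm_num) (by norm_num)

theorem b581 : Seg 625 (3128, 110562) (225003, 111297) :=
  seg_of_run (by decide +kernel) (by norm_num) (by norm_num) (by norm_num)

theorem b582 : Seg 625 (225003, 111297) (446878, 84168) :=
  seg_of_run (by decide +kernel) (by norm_num) (by norm_num) (by norm_num)

theorem b583 : Seg 625 (446878, 84168) (668753, 143064) :=
  seg_of_run (by decide +kernel) (by norm_num) (by norm_num) (by norm_num)

theorem b584 : Seg 625 (668753, 143064) (890628, 123863) :=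
  seg_of_run (by decide +kernel) (by norm_num) (by norm_num) (by norm_num)

theorem b585 : Seg 625 (890628, 123863) (1112503, 146931) :=
  seg_of_run (by decide +kernel) (by norm_num) (by norm_num) (by norm_num)

theorem b586 : Seg 625 (1112503, 146931) (1334378, 93779) :=
  seg_of_run (by decide +kernel) (by norm_num) (by norm_num) (by norm_num)

theorem b587 : Seg 625 (1334378, 93779) (1556253, 103942) :=
  seg_of_run (by decide +kernel) (by norm_num) (by norm_num) (by norm_num)

theorem b588 : Seg 625 (1556253, 103942) (1778128, 98343) :=
  seg_of_run (by decide +kernel) (by norm_num) (by norm_num) (by norm_num)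

theorem b589 : Seg 625 (1778128, 98343) (46878, 119277) :=
  seg_of_run (by decide +kernel) (by norm_num) (by norm_num) (by norm_num)

theorem b590 : Seg 625 (46878, 119277) (268753, 132082) :=
  seg_of_run (by decide +kernel) (by norm_num) (by norm_num) (by norm_num)

theorem b591 : Seg 625 (268753, 132082) (490628, 111366) :=
  seg_of_run (by decide +kernel) (by norm_num) (by norm_num) (by norm_num)

theorem b592 : Seg 625 (490628, 111366) (712503, 93558) :=
  seg_of_run (by decide +kernel) (by norm_num) (by norm_num) (by norm_num)

theorem b593 : Seg 625 (712503, 93558) (934378, 115865) :=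
  seg_of_run (by decide +kernel) (by norm_num) (by norm_num) (by norm_num)

theorem b594 : Seg 625 (934378, 115865) (1156253, 99282) :=
  seg_of_run (by decide +kernel) (by norm_num) (by norm_num) (by norm_num)

theorem b595 : Seg 625 (1156253, 99282) (1378128, 84957) :=
  seg_of_run (by decide +kernel) (by norm_num) (by norm_num) (by norm_num)

theorem b596 : Seg 625 (1378128, 84957) (1600003, 144476) :=
  seg_of_run (by decide +kernel) (by norm_num) (by norm_num) (by norm_num)

theorem b597 : Seg 625 (1600003, 144476) (1821878, 80869) :=
  seg_of_run (by decide +kernel) (by norm_num) (by norm_num) (by norm_num)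

theorem b598 : Seg 625 (1821878, 80869) (90628, 126478) :=
  seg_of_run (by decide +kernel) (by norm_num) (by norm_num) (by norm_num)

theorem b599 : Seg 625 (90628, 126478) (312503, 92294) :=
  seg_of_run (by decide +kernel) (by norm_num) (by norm_num) (by norm_num)

theorem b600 : Seg 625 (312503, 92294) (534378, 97167) :=
  seg_of_run (by decide +kernel) (by norm_num) (by norm_num) (by norm_num)

theorem b601 : Seg 625 (534378, 97167) (756253, 100475) :=
  seg_of_run (by decide +kernel) (by norm_num) (by norm_num) (by norm_num)

theorem b602 : Seg 625 (756253, 100475) (978128, 90357) :=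
  seg_of_run (by decide +kernel) (by norm_num) (by norm_num) (by norm_num)

theorem b603 : Seg 625 (978128, 90357) (1200003, 214286) :=
  seg_of_run (by decide +kernel) (by norm_num) (by norm_num) (by norm_num)

theorem b604 : Seg 625 (1200003, 214286) (1421878, 115224) :=
  seg_of_run (by decide +kernel) (by norm_num) (by norm_num) (by norm_num)

theorem b605 : Seg 625 (1421878, 115224) (1643753, 140942) :=
  seg_of_run (by decide +kernel) (by norm_num) (by norm_num) (by norm_num)

theorem b606 : Seg 625 (1643753, 140942) (1865628, 100946) :=
  seg_of_run (by decide +kernel) (by norm_num) (by norm_num) (by norm_num)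

theorem b607 : Seg 625 (1865628, 100946) (134378, 74152) :=
  seg_of_run (by decide +kernel) (by norm_num) (by norm_num) (by norm_num)

theorem b608 : Seg 625 (134378, 74152) (356253, 140324) :=
  seg_of_run (by decide +kernel) (by norm_num) (by norm_num) (by norm_num)

theorem b609 : Seg 625 (356253, 140324) (578128, 99255) :=
  seg_of_run (by decide +kernel) (by norm_num) (by norm_num) (by norm_num)

theorem b610 : Seg 625 (578128, 99255) (800003, 152055) :=
  seg_of_run (by decide +kernel) (by norm_num) (by norm_num) (by norm_num)

theorem b611 : Seg 625 (800003, 152055) (1021878, 73088) :=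
  seg_of_run (by decide +kernel) (by norm_num) (by norm_num) (by norm_num)

theorem b612 : Seg 625 (1021878, 73088) (1243753, 94256) :=
  seg_of_run (by decide +kernel) (by norm_num) (by norm_num) (by norm_num)

theorem b613 : Seg 625 (1243753, 94256) (1465628, 94055) :=
  seg_of_run (by decide +kernel) (by norm_num) (by norm_num) (by norm_num)

theorem b614 : Seg 625 (1465628, 94055) (1687503, 93123) :=
  seg_of_run (by decide +kernel) (by norm_num) (by norm_num) (by norm_num)

theorem b615 : Seg 625 (1687503, 93123) (1909378, 111935) :=
  seg_of_run (by decide +kernel) (by norm_num) (by norm_num) (by norm_num)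

theorem b616 : Seg 625 (1909378, 111935) (178128, 137784) :=
  seg_of_run (by decide +kernel) (by norm_num) (by norm_num) (by norm_num)

theorem b617 : Seg 625 (178128, 137784) (400003, 103643) :=
  seg_of_run (by decide +kernel) (by norm_num) (by norm_num) (by norm_num)

theorem b618 : Seg 625 (400003, 103643) (621878, 142762) :=
  seg_of_run (by decide +kernel) (by norm_num) (by norm_num) (by norm_num)

theorem b619 : Seg 625 (621878, 142762) (843753, 101924) :=
  seg_of_run (by decide +kernel) (by norm_num) (by norm_num) (by norm_num)

theorem b620 : Seg 625 (843753, 101924) (1065628, 87520) :=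
  seg_of_run (by decide +kernel) (by norm_num) (by norm_num) (by norm_num)

theorem b621 : Seg 625 (1065628, 87520) (1287503, 96364) :=
  seg_of_run (by decide +kernel) (by norm_num) (by norm_num) (by norm_num)

theorem b622 : Seg 625 (1287503, 96364) (1509378, 62986) :=
  seg_of_run (by decide +kernel) (by norm_num) (by norm_num) (by norm_num)

theorem b623 : Seg 625 (1509378, 62986) (1731253, 136932) :=
  seg_of_run (by decide +kernel) (by norm_num) (by norm_num) (by norm_num)

theorem b624 : Seg 625 (1731253, 136932) (3, 96795) :=
  seg_of_run (by decide +kernel) (by norm_num) (by norm_num) (by norm_num)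

theorem c500 : Seg 625 (1562503, 96899) (1784378, 101921) := b500

theorem c501 : Seg 1250 (1562503, 96899) (53128, 95801) := c500.trans b501

theorem c502 : Seg 1875 (1562503, 96899) (275003, 84788) := c501.trans b502

theorem c503 : Seg 2500 (1562503, 96899) (496878, 165946) := c502.trans b503

theorem c504 : Seg 3125 (1562503, 96899) (718753, 120599) := c503.trans b504

theorem c505 : Seg 3750 (1562503, 96899) (940628, 142251) := c504.trans b505

theorem c506 : Seg 4375 (1562503, 96899) (1162503, 112143) := c505.trans b506

theorem c507 : Seg 5000 (1562503, 96899) (1384378, 67580) := c506.trans b507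

theorem c508 : Seg 5625 (1562503, 96899) (1606253, 145939) := c507.trans b508

theorem c509 : Seg 6250 (1562503, 96899) (1828128, 103722) := c508.trans b509

theorem c510 : Seg 6875 (1562503, 96899) (96878, 146023) := c509.trans b510

theorem c511 : Seg 7500 (1562503, 96899) (318753, 81269) := c510.trans b511

theorem c512 : Seg 8125 (1562503, 96899) (540628, 100953) := c511.trans b512

theorem c513 : Seg 8750 (1562503, 96899) (762503, 85865) := c512.trans b513

theorem c514 : Seg 9375 (1562503, 96899) (984378, 97308) := c513.trans b514

theorem c515 : Seg 10000 (1562503, 96899) (1206253, 116759) := c514.trans b515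

theorem c516 : Seg 10625 (1562503, 96899) (1428128, 119119) := c515.trans b516

theorem c517 : Seg 11250 (1562503, 96899) (1650003, 90133) := c516.trans b517

theorem c518 : Seg 11875 (1562503, 96899) (1871878, 128039) := c517.trans b518

theorem c519 : Seg 12500 (1562503, 96899) (140628, 81391) := c518.trans b519

theorem c520 : Seg 13125 (1562503, 96899) (362503, 98485) := c519.trans b520

theorem c521 : Seg 13750 (1562503, 96899) (584378, 100655) := c520.trans b521

theorem c522 : Seg 14375 (1562503, 96899) (806253, 65315) := c521.trans b522

theorem c523 : Seg 15000 (1562503, 96899) (1028128, 112056) := c522.trans b523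

theorem c524 : Seg 15625 (1562503, 96899) (1250003, 97744) := c523.trans b524

theorem c525 : Seg 16250 (1562503, 96899) (1471878, 111989) := c524.trans b525

theorem c526 : Seg 16875 (1562503, 96899) (1693753, 100972) := c525.trans b526

theorem c527 : Seg 17500 (1562503, 96899) (1915628, 92668) := c526.trans b527

theorem c528 : Seg 18125 (1562503, 96899) (184378, 251827) := c527.trans b528

theorem c529 : Seg 18750 (1562503, 96899) (406253, 114061) := c528.trans b529

theorem c530 : Seg 19375 (1562503, 96899) (628128, 109077) := c529.trans b530

theorem c531 : Seg 20000 (1562503, 96899) (850003, 105988) := c530.trans b531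

theorem c532 : Seg 20625 (1562503, 96899) (1071878, 82512) := c531.trans b532

theorem c533 : Seg 21250 (1562503, 96899) (1293753, 137346) := c532.trans b533

theorem c534 : Seg 21875 (1562503, 96899) (1515628, 150517) := c533.trans b534

theorem c535 : Seg 22500 (1562503, 96899) (1737503, 117871) := c534.trans b535

theorem c536 : Seg 23125 (1562503, 96899) (6253, 91367) := c535.trans b536

theorem c537 : Seg 23750 (1562503, 96899) (228128, 112507) := c536.trans b537

theorem c538 : Seg 24375 (1562503, 96899) (450003, 106348) := c537.trans b538

theorem c539 : Seg 25000 (1562503, 96899) (671878, 115848) := c538.trans b539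

theorem c540 : Seg 25625 (1562503, 96899) (893753, 191481) := c539.trans b540

theorem c541 : Seg 26250 (1562503, 96899) (1115628, 102133) := c540.trans b541

theorem c542 : Seg 26875 (1562503, 96899) (1337503, 83319) := c541.trans b542

theorem c543 : Seg 27500 (1562503, 96899) (1559378, 163311) := c542.trans b543

theorem c544 : Seg 28125 (1562503, 96899) (1781253, 111087) := c543.trans b544

theorem c545 : Seg 28750 (1562503, 96899) (50003, 95980) := c544.trans b545

theorem c546 : Seg 29375 (1562503, 96899) (271878, 159735) := c545.trans b546

theorem c547 : Seg 30000 (1562503, 96899) (493753, 78040) := c546.trans b547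

theorem c548 : Seg 30625 (1562503, 96899) (715628, 109938) := c547.trans b548

theorem c549 : Seg 31250 (1562503, 96899) (937503, 130743) := c548.trans b549

theorem c550 : Seg 31875 (1562503, 96899) (1159378, 98121) := c549.trans b550

theorem c551 : Seg 32500 (1562503, 96899) (1381253, 82962) := c550.trans b551

theorem c552 : Seg 33125 (1562503, 96899) (1603128, 83225) := c551.trans b552

theorem c553 : Seg 33750 (1562503, 96899) (1825003, 136003) := c552.trans b553

theorem c554 : Seg 34375 (1562503, 96899) (93753, 101745) := c553.trans b554

theorem c555 : Seg 35000 (1562503, 96899) (315628, 179002) := c554.trans b555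

theorem c556 : Seg 35625 (1562503, 96899) (537503, 100431) := c555.trans b556

theorem c557 : Seg 36250 (1562503, 96899) (759378, 87231) := c556.trans b557

theorem c558 : Seg 36875 (1562503, 96899) (981253, 220736) := c557.trans b558

theorem c559 : Seg 37500 (1562503, 96899) (1203128, 98232) := c558.trans b559

theorem c560 : Seg 38125 (1562503, 96899) (1425003, 120439) := c559.trans b560

theorem c561 : Seg 38750 (1562503, 96899) (1646878, 80986) := c560.trans b561

theorem c562 : Seg 39375 (1562503, 96899) (1868753, 94669) := c561.trans b562

theorem c563 : Seg 40000 (1562503, 96899) (137503, 125272) := c562.trans b563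

theorem c564 : Seg 40625 (1562503, 96899) (359378, 100151) := c563.trans b564

theorem c565 : Seg 41250 (1562503, 96899) (581253, 122291) := c564.trans b565

theorem c566 : Seg 41875 (1562503, 96899) (803128, 104668) := c565.trans b566

theorem c567 : Seg 42500 (1562503, 96899) (1025003, 77968) := c566.trans b567

theorem c568 : Seg 43125 (1562503, 96899) (1246878, 125236) := c567.trans b568

theorem c569 : Seg 43750 (1562503, 96899) (1468753, 94869) := c568.trans b569

theorem c570 : Seg 44375 (1562503, 96899) (1690628, 95335) := c569.trans b570

theorem c571 : Seg 45000 (1562503, 96899) (1912503, 106724) := c570.trans b571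

theorem c572 : Seg 45625 (1562503, 96899) (181253, 65881) := c571.trans b572

theorem c573 : Seg 46250 (1562503, 96899) (403128, 154379) := c572.trans b573

theorem c574 : Seg 46875 (1562503, 96899) (625003, 120188) := c573.trans b574

theorem c575 : Seg 47500 (1562503, 96899) (846878, 99654) := c574.trans b575

theorem c576 : Seg 48125 (1562503, 96899) (1068753, 83011) := c575.trans b576

theorem c577 : Seg 48750 (1562503, 96899) (1290628, 105956) := c576.trans b577

theorem c578 : Seg 49375 (1562503, 96899) (1512503, 135511) := c577.trans b578

theorem c579 : Seg 50000 (1562503, 96899) (1734378, 108778) := c578.trans b579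

theorem c580 : Seg 50625 (1562503, 96899) (3128, 110562) := c579.trans b580

theorem c581 : Seg 51250 (1562503, 96899) (225003, 111297) := c580.trans b581

theorem c582 : Seg 51875 (1562503, 96899) (446878, 84168) := c581.trans b582

theorem c583 : Seg 52500 (1562503, 96899) (668753, 143064) := c582.trans b583

theorem c584 : Seg 53125 (1562503, 96899) (890628, 123863) := c583.trans b584

theorem c585 : Seg 53750 (1562503, 96899) (1112503, 146931) := c584.trans b585

theorem c586 : Seg 54375 (1562503, 96899) (1334378, 93779) := c585.trans b586

theorem c587 : Seg 55000 (1562503, 96899) (1556253, 103942) := c586.trans b587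

theorem c588 : Seg 55625 (1562503, 96899) (1778128, 98343) := c587.trans b588

theorem c589 : Seg 56250 (1562503, 96899) (46878, 119277) := c588.trans b589

theorem c590 : Seg 56875 (1562503, 96899) (268753, 132082) := c589.trans b590

theorem c591 : Seg 57500 (1562503, 96899) (490628, 111366) := c590.trans b591

theorem c592 : Seg 58125 (1562503, 96899) (712503, 93558) := c591.trans b592

theorem c593 : Seg 58750 (1562503, 96899) (934378, 115865) := c592.trans b593

theorem c594 : Seg 59375 (1562503, 96899) (1156253, 99282) := c593.trans b594

theorem c595 : Seg 60000 (1562503, 96899) (1378128, 84957) := c594.trans b595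

theorem c596 : Seg 60625 (1562503, 96899) (1600003, 144476) := c595.trans b596

theorem c597 : Seg 61250 (1562503, 96899) (1821878, 80869) := c596.trans b597

theorem c598 : Seg 61875 (1562503, 96899) (90628, 126478) := c597.trans b598

theorem c599 : Seg 62500 (1562503, 96899) (312503, 92294) := c598.trans b599

theorem c600 : Seg 63125 (1562503, 96899) (534378, 97167) := c599.trans b600

theorem c601 : Seg 63750 (1562503, 96899) (756253, 100475) := c600.trans b601

theorem c602 : Seg 64375 (1562503, 96899) (978128, 90357) := c601.trans b602

theorem c603 : Seg 65000 (1562503, 96899) (1200003, 214286) := c602.trans b603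

theorem c604 : Seg 65625 (1562503, 96899) (1421878, 115224) := c603.trans b604

theorem c605 : Seg 66250 (1562503, 96899) (1643753, 140942) := c604.trans b605

theorem c606 : Seg 66875 (1562503, 96899) (1865628, 100946) := c605.trans b606

theorem c607 : Seg 67500 (1562503, 96899) (134378, 74152) := c606.trans b607

theorem c608 : Seg 68125 (1562503, 96899) (356253, 140324) := c607.trans b608

theorem c609 : Seg 68750 (1562503, 96899) (578128, 99255) := c608.trans b609

theorem c610 : Seg 69375 (1562503, 96899) (800003, 152055) := c609.trans b610

theorem c611 : Seg 70000 (1562503, 96899) (1021878, 73088) := c610.trans b611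

theorem c612 : Seg 70625 (1562503, 96899) (1243753, 94256) := c611.trans b612

theorem c613 : Seg 71250 (1562503, 96899) (1465628, 94055) := c612.trans b613

theorem c614 : Seg 71875 (1562503, 96899) (1687503, 93123) := c613.trans b614

theorem c615 : Seg 72500 (1562503, 96899) (1909378, 111935) := c614.trans b615

theorem c616 : Seg 73125 (1562503, 96899) (178128, 137784) := c615.trans b616

theorem c617 : Seg 73750 (1562503, 96899) (400003, 103643) := c616.trans b617

theorem c618 : Seg 74375 (1562503, 96899) (621878, 142762) := c617.trans b618

theorem c619 : Seg 75000 (1562503, 96899) (843753, 101924) := c618.trans b619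

theorem c620 : Seg 75625 (1562503, 96899) (1065628, 87520) := c619.trans b620

theorem c621 : Seg 76250 (1562503, 96899) (1287503, 96364) := c620.trans b621

theorem c622 : Seg 76875 (1562503, 96899) (1509378, 62986) := c621.trans b622

theorem c623 : Seg 77500 (1562503, 96899) (1731253, 136932) := c622.trans b623

theorem c624 : Seg 78125 (1562503, 96899) (3, 96795) := c623.trans b624

end Pool.Agent.Lib.MP_02a951_nt
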