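import Pool.Agent.Lib.MP_02a951_nt.Weight
import Pool.Agent.Lib.MP_02a951_nt.Blk0
import Pool.Agent.Lib.MP_02a951_nt.Blk1
import Pool.Agent.Lib.MP_02a951_nt.Blk2
import Pool.Agent.Lib.MP_02a951_nt.Blk3
import Pool.Agent.Lib.MP_02a951_nt.Blk4

set_option autoImplicit false

namespace Pool.Agent.Lib.MP_02a951_nt

lemma stp_fst (n r W : ℕ) (hr : r < 1953125) : (stp^[n] (r, W)).1 = r * 366211 ^ n % 1953125 := by
  induction n with
  | zero => simp [Nat.mod_eq_of_lt hr]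
  | succ n ih =>
    rw [Function.iterate_succ_apply']
    show (stp^[n] (r, W)).1 * 366211 % 1953125 = _
    rw [ih, pow_succ, ← mul_assoc, Nat.mod_mul_mod]

lemma warm : stp^[60] (906203, 0) = (3, 96795) := by decide +kernel

lemma order_g : orderOf (366211 : ZMod 1953125) = 5 ^ 8 := by
  have h1 : ((366211 ^ 5 ^ 7 : ℕ) : ZMod 1953125) ≠ ((1 : ℕ) : ZMod 1953125) := by
    rw [Ne, ZMod.natCast_eq_natCast_iff']
    decide +kernel
  have h2 : ((366211 ^ 5 ^ 8 : ℕ) : ZMod 1953125) = ((1 : ℕ) : ZMod 1953125) := by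
    rw [ZMod.natCast_eq_natCast_iff']
    decide +kernel
  have : Fact (Nat.Prime 5) := ⟨by norm_num⟩
  refine orderOf_eq_prime_pow (p := 5) (n := 7) ?_ ?_
  · intro h; apply h1; push_cast; exact h
  · have h3 := h2; push_cast at h3; exact h3

lemma cover (r : ℕ) (hr : r < 1953125) (hr5 : r % 5 = 3) :
    ∃ k, k < 390625 ∧ 3 * 366211 ^ (k + 1) % 1953125 = r := by
  classical
  have hsub : (Finset.range 390625).image (fun k => 3 * 366211 ^ (k + 1) % 1953125) ⊆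
      (Finset.range 390625).image (fun u => 5 * u + 3) := by
    intro x hx
    rw [Finset.mem_image] at hx ⊢
    obtain ⟨k, -, rfl⟩ := hx
    have h1 : 3 * 366211 ^ (k + 1) % 1953125 < 1953125 := Nat.mod_lt _ (by norm_num)
    have h2 : 3 * 366211 ^ (k + 1) % 1953125 % 5 = 3 := by
      rw [Nat.mod_mod_of_dvd _ (by norm_num : 5 ∣ 1953125), Nat.mul_mod, Nat.pow_mod]
      norm_num
    generalize 3 * 366211 ^ (k + 1) % 1953125 = y at h1 h2 ⊢
    refine ⟨y / 5, ?_, ?_⟩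
    · rw [Finset.mem_range]; omega
    · show 5 * (y / 5) + 3 = _
      omega
  have hinj : Set.InjOn (fun k => 3 * 366211 ^ (k + 1) % 1953125)
      ((Finset.range 390625 : Finset ℕ) : Set ℕ) := by
    have key : ∀ k l : ℕ, k < l → l < 390625 →
        3 * 366211 ^ (k + 1) % 1953125 ≠ 3 * 366211 ^ (l + 1) % 1953125 := by
      intro k l hkl hl h
      have h3 : (3 * 366211 ^ (k + 1)) ≡ (3 * 366211 ^ (l + 1)) [MOD 1953125] := h
      have h4 : 3 * 366211 ^ (l + 1) = (3 * 366211 ^ (k + 1)) * 366211 ^ (l - k) := by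
        rw [mul_assoc, ← pow_add]; congr 2; omega
      have h5 : (3 * 366211 ^ (k + 1)) * 1 ≡ (3 * 366211 ^ (k + 1)) * 366211 ^ (l - k)
          [MOD 1953125] := by rw [← h4, mul_one]; exact h3
      have h6 : Nat.Coprime 1953125 (3 * 366211 ^ (k + 1)) := by
        refine Nat.Coprime.mul_right (by norm_num) ?_
        exact Nat.Coprime.pow_right _ (by norm_num)
      have h7 : 1 ≡ 366211 ^ (l - k) [MOD 1953125] := Nat.ModEq.cancel_left_of_coprime h6 h5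
      have h8 : (366211 : ZMod 1953125) ^ (l - k) = 1 := by
        have := (ZMod.natCast_eq_natCast_iff _ _ _).2 h7
        push_cast at this
        exact this.symm
      have h9 : 5 ^ 8 ∣ l - k := by rw [← order_g]; exact orderOf_dvd_of_pow_eq_one h8
      clear h h3 h4 h5 h6 h7 h8
      have h10 := Nat.le_of_dvd (by omega) h9
      norm_num at h10
      omega
    intro k hk l hl h
    rw [Finset.coe_range, Set.mem_Iio] at hk hl
    rcases lt_trichotomy k l with h1 | h1 | h1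
    · exact absurd h (key k l h1 hl)
    · exact h1
    · exact absurd h.symm (key l k h1 hk)
  have hcard : ((Finset.range 390625).image (fun u => 5 * u + 3)).card ≤
      ((Finset.range 390625).image (fun k => 3 * 366211 ^ (k + 1) % 1953125)).card := by
    rw [Finset.card_image_of_injOn hinj]
    exact Finset.card_image_le
  have heq := Finset.eq_of_subset_of_card_le hsub hcard
  have hmem : r ∈ (Finset.range 390625).image (fun u => 5 * u + 3) := by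
    rw [Finset.mem_image]
    clear heq hcard hinj hsub
    exact ⟨r / 5, by rw [Finset.mem_range]; omega, by show 5 * (r / 5) + 3 = r; omega⟩
  rw [← heq, Finset.mem_image] at hmem
  obtain ⟨k, hk, hk2⟩ := hmem
  exact ⟨k, Finset.mem_range.1 hk, hk2⟩

lemma seg_all : Seg 390625 (3, 96795) (3, 96795) :=
  (((c124.trans c249).trans c374).trans c499).trans c624

lemma res_facts {m : ℤ} (hm : m % 5 = 3) :
    res m < 1953125 ∧ res m % 5 = 3 ∧ res m % 390625 / 5 = idx m := by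
  have hr : (res m : ℤ) = m % 1953125 := by
    unfold res
    exact Int.toNat_of_nonneg (Int.emod_nonneg _ (by norm_num))
  unfold idx
  generalize res m = r at hr ⊢
  refine ⟨by omega, by omega, by omega⟩

lemma V_lt_w {m : ℤ} (hm : m % 5 = 3) : (V (idx m) : ℝ) < w m := by
  obtain ⟨g1, g2, g3⟩ := res_facts hm
  obtain ⟨k, hk, hk2⟩ := cover (res m) g1 g2
  have h1 := seg_all.1 k hk
  have h2 : stp^[k + 1] (3, 96795) = stp^[k + 1 + 60] (906203, 0) := by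
    rw [Function.iterate_add_apply stp (k + 1) 60, warm]
  have h3 : (stp^[k + 1] (3, 96795)).1 = res m := by
    rw [stp_fst _ _ _ (by norm_num)]; exact hk2
  have h4 := w_ge_run 906203 (by norm_num) (k + 1 + 60) m (by rw [← h2, h3])
  rw [← h2] at h4
  rw [h3] at h1
  have h5 : V (res m % 390625 / 5) < (stp^[k + 1] (3, 96795)).2 := by
    have h6 : Nat.blt (V (res m % 390625 / 5)) (stp^[k + 1] (3, 96795)).2 = true := h1
    simpa [Nat.blt_eq] using h6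
  rw [g3] at h5
  have h8 : (V (idx m) : ℝ) < ((stp^[k + 1] (3, 96795)).2 : ℝ) := by exact_mod_cast h5
  linarith

lemma w_pos {m : ℤ} (hm : m % 5 = 3) : 0 < w m := lt_of_le_of_lt (Nat.cast_nonneg _) (V_lt_w hm)

/-- comparison of a rational number with a power of exponent `-461/1000` -/
lemma le_rpow_neg {x ρ : ℝ} (hρ : 0 < ρ) (h : x ^ 1000 * ρ ^ 461 ≤ 1) :
    x ≤ ρ ^ (-(461 / 1000 : ℝ)) := by
  by_contra hlt
  push Not at hlt
  have h0 : 0 < ρ ^ (-(461 / 1000 : ℝ)) := Real.rpow_pos_of_pos hρ _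
  have h1 : (ρ ^ (-(461 / 1000 : ℝ))) ^ 1000 < x ^ 1000 :=
    pow_lt_pow_left₀ hlt h0.le (by norm_num)
  have h2 : (ρ ^ (-(461 / 1000 : ℝ))) ^ 1000 = (ρ ^ 461)⁻¹ := by
    rw [← Real.rpow_natCast, ← Real.rpow_mul hρ.le, ← Real.rpow_natCast, ← Real.rpow_neg hρ.le]
    norm_num
  rw [h2] at h1
  have h3 : 0 < ρ ^ 461 := pow_pos hρ _
  have h4 : (ρ ^ 461)⁻¹ * ρ ^ 461 < x ^ 1000 * ρ ^ 461 := mul_lt_mul_of_pos_right h1 h3
  rw [inv_mul_cancel₀ h3.ne'] at h4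
  linarith

set_option exponentiation.threshold 3000 in
lemma num_q : q ≤ (16 : ℝ) ^ (-(461 / 1000 : ℝ)) := by
  refine le_rpow_neg (by norm_num) ?_
  unfold q
  norm_num

set_option exponentiation.threshold 3000 in
lemma num_b0 : (1599006 / 2 ^ 20 : ℝ) ≤ (2 * 1001 / 5000 : ℝ) ^ (-(461 / 1000 : ℝ)) := by
  refine le_rpow_neg (by norm_num) ?_
  norm_num

set_option exponentiation.threshold 3000 in
lemma num_b1 : (1161650 / 2 ^ 20 : ℝ) ≤ (4 * 1001 / 5000 : ℝ) ^ (-(461 / 1000 : ℝ)) := by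
  refine le_rpow_neg (by norm_num) ?_
  norm_num

set_option exponentiation.threshold 3000 in
lemma num_b2 : (843918 / 2 ^ 20 : ℝ) ≤ (8 * 1001 / 5000 : ℝ) ^ (-(461 / 1000 : ℝ)) := by
  refine le_rpow_neg (by norm_num) ?_
  norm_num

set_option exponentiation.threshold 3000 in
lemma num_b3 : (613092 / 2 ^ 20 : ℝ) ≤ (16 * 1001 / 5000 : ℝ) ^ (-(461 / 1000 : ℝ)) := by
  refine le_rpow_neg (by norm_num) ?_
  norm_num

/-- the potential function of the counting argument -/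
noncomputable def f (m : ℤ) : ℝ := w m * |(m : ℝ)| ^ (-(461 / 1000 : ℝ))

lemma f_nonneg (m : ℤ) : 0 ≤ f m := mul_nonneg (w_nonneg m) (Real.rpow_nonneg (abs_nonneg _) _)

lemma f_child {m : ℤ} (hm : m % 5 = 3) (hbig : (500 : ℝ) ≤ |(m : ℝ)|) (β : ℕ) (κ : ℝ)
    (hκ : 0 < κ) (hal : ch m % 5 ≠ 0)
    (hF : F (res m) = β * V (idx (B m)))
    (hB : |((B m : ℤ) : ℝ)| ≤ κ * ((2 * |(m : ℝ)| + 1) / 5))
    (hβ : ((β : ℝ) / 2 ^ 20) ≤ (2 * κ * 1001 / 5000 : ℝ) ^ (-(461 / 1000 : ℝ))) :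
    ((F (res m) : ℝ) / 2 ^ 20) * |(m : ℝ)| ^ (-(461 / 1000 : ℝ)) ≤ f (B m) := by
  have hB5 := B_spec hm hal
  have hBne : (B m) ≠ 0 := by intro h; rw [h] at hB5; norm_num at hB5
  have hBpos : 0 < |((B m : ℤ) : ℝ)| := abs_pos.2 (by exact_mod_cast hBne)
  have hmpos : 0 < |(m : ℝ)| := by linarith
  have h1 : |((B m : ℤ) : ℝ)| ≤ (2 * κ * 1001 / 5000) * |(m : ℝ)| := by
    refine hB.trans ?_
    have : κ * ((2 * |(m : ℝ)| + 1) / 5) ≤ κ * (2 * 1001 / 5000 * |(m : ℝ)|) := by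
      apply mul_le_mul_of_nonneg_left _ hκ.le
      linarith
    linarith
  have h2 : ((2 * κ * 1001 / 5000) * |(m : ℝ)|) ^ (-(461 / 1000 : ℝ)) ≤
      |((B m : ℤ) : ℝ)| ^ (-(461 / 1000 : ℝ)) :=
    Real.rpow_le_rpow_of_nonpos hBpos h1 (by norm_num)
  rw [Real.mul_rpow (by positivity) hmpos.le] at h2
  have h3 : ((β : ℝ) / 2 ^ 20) * |(m : ℝ)| ^ (-(461 / 1000 : ℝ)) ≤
      |((B m : ℤ) : ℝ)| ^ (-(461 / 1000 : ℝ)) := by
    refine le_trans ?_ h2
    exact mul_le_mul_of_nonneg_right hβ (Real.rpow_nonneg hmpos.le _)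
  have h4 := (V_lt_w hB5).le
  rw [hF]
  unfold f
  push_cast
  calc (β : ℝ) * (V (idx (B m)) : ℝ) / 2 ^ 20 * |(m : ℝ)| ^ (-(461 / 1000 : ℝ))
      = (V (idx (B m)) : ℝ) * (((β : ℝ) / 2 ^ 20) * |(m : ℝ)| ^ (-(461 / 1000 : ℝ))) := by ring
    _ ≤ w (B m) * (|((B m : ℤ) : ℝ)| ^ (-(461 / 1000 : ℝ))) := by
        apply mul_le_mul h4 h3 (by positivity) (w_nonneg _)

lemma f_sub {m : ℤ} (hm : m % 5 = 3) (hbig : (500 : ℝ) ≤ |(m : ℝ)|) :
    f m ≤ f (16 * m) + if ch m % 5 ≠ 0 then f (B m) else 0 := by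
  have hmpos : 0 < |(m : ℝ)| := by linarith
  have h1 : q * w (16 * m) * |(m : ℝ)| ^ (-(461 / 1000 : ℝ)) ≤ f (16 * m) := by
    unfold f
    push_cast
    rw [abs_mul, abs_of_pos (by norm_num : (0 : ℝ) < 16), Real.mul_rpow (by norm_num) hmpos.le]
    have := mul_le_mul_of_nonneg_right num_q (w_nonneg (16 * m))
    calc q * w (16 * m) * |(m : ℝ)| ^ (-(461 / 1000 : ℝ))
        ≤ ((16 : ℝ) ^ (-(461 / 1000 : ℝ)) * w (16 * m)) * |(m : ℝ)| ^ (-(461 / 1000 : ℝ)) :=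
          mul_le_mul_of_nonneg_right this (Real.rpow_nonneg hmpos.le _)
      _ = w (16 * m) * ((16 : ℝ) ^ (-(461 / 1000 : ℝ)) * |(m : ℝ)| ^ (-(461 / 1000 : ℝ))) := by
          ring
  have h2 : ((F (res m) : ℝ) / 2 ^ 20) * |(m : ℝ)| ^ (-(461 / 1000 : ℝ)) ≤
      if ch m % 5 ≠ 0 then f (B m) else 0 := by
    obtain ⟨g0, g3, g4, g2, g1⟩ := F_spec hm
    obtain ⟨a3, a4, a2, a1⟩ := abs_B_le hm
    have hcases : ch m % 5 = 0 ∨ ch m % 5 = 1 ∨ ch m % 5 = 2 ∨ ch m % 5 = 3 ∨ ch m % 5 = 4 := by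
      omega
    rcases hcases with h | h | h | h | h
    · rw [if_neg (by omega), g0 h]; simp
    · rw [if_pos (by omega)]
      refine f_child hm hbig 613092 8 (by norm_num) (by omega) (g1 h) (a1 h) ?_
      have := num_b3; norm_num at this ⊢; exact this
    · rw [if_pos (by omega)]
      refine f_child hm hbig 843918 4 (by norm_num) (by omega) (g2 h) (a2 h) ?_
      have := num_b2; norm_num at this ⊢; exact this
    · rw [if_pos (by omega)]
      refine f_child hm hbig 1599006 1 (by norm_num) (by omega) (g3 h) (by simpa using a3 h) ?_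
      have := num_b0; norm_num at this ⊢; exact this
    · rw [if_pos (by omega)]
      refine f_child hm hbig 1161650 2 (by norm_num) (by omega) (g4 h) (a4 h) ?_
      have := num_b1; norm_num at this ⊢; exact this
  have h3 : f m = ((F (res m) : ℝ) / 2 ^ 20) * |(m : ℝ)| ^ (-(461 / 1000 : ℝ)) +
      q * w (16 * m) * |(m : ℝ)| ^ (-(461 / 1000 : ℝ)) := by
    unfold f; rw [w_rec m]; ring
  rw [h3]
  linarith

/-- the number of integers of absolute value at most `x` whose orbit contains `a` -/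
noncomputable def cnt (a : ℤ) (x : ℝ) : ℕ :=
  Set.ncard {n : ℤ | |(n : ℝ)| ≤ x ∧ ∃ k : ℕ, T^[k] n = a}

theorem main_bound {a : ℤ} (ha : ¬ (5 : ℤ) ∣ a) :
    ∃ c : ℝ, 0 < c ∧ ∃ x0 : ℝ, ∀ x : ℝ, x0 ≤ x → c * x ^ (461 / 1000 : ℝ) ≤ (cnt a x : ℝ) := by
  have ha0 : a ≠ 0 := by rintro rfl; exact ha (dvd_zero _)
  obtain ⟨j0, hj0⟩ := exists_good ha0 500
  -- choose the exponent
  obtain ⟨j, hj, hj5⟩ : ∃ j, j0 ≤ j ∧ (2 ^ j * a) % 5 = 3 := by
    have h16 : ∀ i : ℕ, (2 : ℤ) ^ (4 * j0 + i) * a % 5 = 2 ^ i * a % 5 := by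
      intro i
      have h1 : (2 : ℤ) ^ (4 * j0 + i) * a ≡ 1 * (2 ^ i * a) [ZMOD 5] := by
        rw [pow_add, mul_assoc]
        refine Int.ModEq.mul_right _ ?_
        rw [pow_mul]
        have h2 : ((2 : ℤ) ^ 4) ^ j0 ≡ 1 ^ j0 [ZMOD 5] := Int.ModEq.pow _ (by decide)
        simpa using h2
      rw [one_mul] at h1
      exact h1
    have ha5 : a % 5 = 1 ∨ a % 5 = 2 ∨ a % 5 = 3 ∨ a % 5 = 4 := by
      have : ¬ (a % 5 = 0) := fun h => ha (Int.dvd_of_emod_eq_zero h)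
      omega
    rcases ha5 with h | h | h | h
    · exact ⟨4 * j0 + 3, by omega, by rw [h16 3]; omega⟩
    · exact ⟨4 * j0 + 2, by omega, by rw [h16 2]; omega⟩
    · exact ⟨4 * j0 + 0, by omega, by rw [h16 0]; omega⟩
    · exact ⟨4 * j0 + 1, by omega, by rw [h16 1]; omega⟩
  obtain ⟨hsmall, hper⟩ := hj0 j hj
  set b : ℤ := 2 ^ j * a with hb
  have hbne : b ≠ 0 := by intro h; rw [h] at hj5; norm_num at hj5
  have hbpos : 0 < |(b : ℝ)| := abs_pos.2 (by exact_mod_cast hbne)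
  have hbig : ∀ m : ℤ, (∃ k : ℕ, T^[k] m = b) → (500 : ℝ) ≤ |(m : ℝ)| := by
    intro m ⟨k, hk⟩
    by_contra hlt
    push Not at hlt
    have h1 : |m| ≤ ((500 : ℕ) : ℤ) := by
      have h2 : |(m : ℝ)| ≤ ((500 : ℤ) : ℝ) := by push_cast; exact hlt.le
      have h3 : ((|m| : ℤ) : ℝ) ≤ ((500 : ℤ) : ℝ) := by push_cast; exact h2
      exact_mod_cast h3
    exact hsmall m h1 k hk
  have hfb : 0 < f b := mul_pos (w_pos hj5) (Real.rpow_pos_of_pos hbpos _)
  refine ⟨f b / 2 ^ 23, by positivity, |(b : ℝ)|, ?_⟩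
  intro x hx
  have hxpos : 0 < x := lt_of_lt_of_le hbpos hx
  have h1 := count_bound hj5 hper f f_nonneg (fun m hm hk => f_sub hm (hbig m hk)) x
    (2 ^ 22 * x ^ (-(461 / 1000 : ℝ))) (by positivity) (by
      intro m hm
      unfold f
      refine mul_le_mul (w_le m) ?_ (Real.rpow_nonneg (abs_nonneg _) _) (by norm_num)
      exact Real.rpow_le_rpow_of_nonpos hxpos hm.le (by norm_num)) hx
  have hle : (Set.ncard {n : ℤ | |(n : ℝ)| ≤ x ∧ n % 5 = 3 ∧ ∃ k : ℕ, T^[k] n = b} : ℕ) ≤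
      cnt a x := by
    unfold cnt
    refine Set.ncard_le_ncard ?_ ?_
    · rintro n ⟨h2, h3, k, hk⟩
      refine ⟨h2, j + k, ?_⟩
      rw [Function.iterate_add_apply, hk, hb, T_iter_two_pow]
    · refine Set.Finite.subset (Set.finite_Icc (-⌈x⌉) ⌈x⌉) ?_
      rintro n ⟨h1, -⟩
      rw [abs_le] at h1
      constructor
      · have h3 : (-(⌈x⌉ : ℝ)) ≤ (n : ℝ) := by have := Int.le_ceil x; linarith
        exact_mod_cast h3
      · have h3 : (n : ℝ) ≤ (⌈x⌉ : ℝ) := by have := Int.le_ceil x; linarith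
        exact_mod_cast h3
  have hle' : ((Set.ncard {n : ℤ | |(n : ℝ)| ≤ x ∧ n % 5 = 3 ∧ ∃ k : ℕ, T^[k] n = b} : ℕ) : ℝ) ≤
      (cnt a x : ℝ) := by exact_mod_cast hle
  have hxs : 0 < x ^ (461 / 1000 : ℝ) := Real.rpow_pos_of_pos hxpos _
  have hxn : x ^ (-(461 / 1000 : ℝ)) * x ^ (461 / 1000 : ℝ) = 1 := by
    rw [← Real.rpow_add hxpos]; norm_num
  set Nn : ℝ := ((Set.ncard {n : ℤ | |(n : ℝ)| ≤ x ∧ n % 5 = 3 ∧ ∃ k : ℕ, T^[k] n = b} : ℕ) : ℝ)
  have h4 : f b * x ^ (461 / 1000 : ℝ) ≤ 2 ^ 23 * Nn := by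
    have h5 := mul_le_mul_of_nonneg_right h1 hxs.le
    calc f b * x ^ (461 / 1000 : ℝ)
        ≤ 2 * (2 ^ 22 * x ^ (-(461 / 1000 : ℝ))) * Nn * x ^ (461 / 1000 : ℝ) := h5
      _ = 2 ^ 23 * Nn * (x ^ (-(461 / 1000 : ℝ)) * x ^ (461 / 1000 : ℝ)) := by ring
      _ = 2 ^ 23 * Nn := by rw [hxn, mul_one]
  calc f b / 2 ^ 23 * x ^ (461 / 1000 : ℝ) = (f b * x ^ (461 / 1000 : ℝ)) / 2 ^ 23 := by ring
    _ ≤ (2 ^ 23 * Nn) / 2 ^ 23 := by gcongr
    _ = Nn := by ring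
    _ ≤ _ := hle'

theorem main_eventually {a : ℤ} (ha : ¬ (5 : ℤ) ∣ a) :
    ∀ᶠ x : ℝ in Filter.atTop, x ^ (0.46 : ℝ) ≤ (cnt a x : ℝ) := by
  obtain ⟨c, hc, x0, hx0⟩ := main_bound ha
  have h1 : Filter.Tendsto (fun x : ℝ => x ^ (1 / 1000 : ℝ)) Filter.atTop Filter.atTop :=
    tendsto_rpow_atTop (by norm_num)
  filter_upwards [Filter.eventually_ge_atTop x0, Filter.eventually_gt_atTop 0,
    h1.eventually_ge_atTop (1 / c)] with x hx hxpos hx3
  refine le_trans ?_ (hx0 x hx)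
  have h2 : x ^ (461 / 1000 : ℝ) = x ^ (0.46 : ℝ) * x ^ (1 / 1000 : ℝ) := by
    rw [← Real.rpow_add hxpos]; norm_num
  rw [h2]
  have h3 : 1 ≤ c * x ^ (1 / 1000 : ℝ) := by
    have := mul_le_mul_of_nonneg_left hx3 hc.le
    rwa [mul_one_div_cancel hc.ne'] at this
  have h4 : 0 < x ^ (0.46 : ℝ) := Real.rpow_pos_of_pos hxpos _
  nlinarith

end Pool.Agent.Lib.MP_02a951_nt
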