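import Pool.Agent.Lib.MP_02a951_nt.Table

set_option autoImplicit false

namespace Pool.Agent.Lib.MP_02a951_nt

/-- one step on pairs (residue, weight) -/
noncomputable def stp (s : ℕ × ℕ) : ℕ × ℕ := (rn s.1, wn (rn s.1) s.2)

/-- all checks on a run of length `n` starting at `s` succeed and the run ends in `s'` -/
def Seg (n : ℕ) (s s' : ℕ × ℕ) : Prop :=
  (∀ k, k < n → ck (stp^[k + 1] s).1 (stp^[k + 1] s).2 = true) ∧ stp^[n] s = s'

lemma Seg.trans {n m : ℕ} {s s' s'' : ℕ × ℕ} (h1 : Seg n s s') (h2 : Seg m s' s'') :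
    Seg (n + m) s s'' := by
  refine ⟨fun k hk => ?_, ?_⟩
  · by_cases hkn : k < n
    · exact h1.1 k hkn
    · have h3 := h2.1 (k - n) (by omega)
      rw [← h1.2, ← Function.iterate_add_apply] at h3
      rwa [show k - n + 1 + n = k + 1 by omega] at h3
  · rw [add_comm n m, Function.iterate_add_apply, h1.2, h2.2]

lemma run_succ (n r W : ℕ) : run (n + 1) r W =
    Bool.rec 0 (run n (rn r) (wn (rn r) W)) (ck (rn r) (wn (rn r) W)) := rfl

lemma rn_lt (r : ℕ) : rn r < 2 ^ 32 := by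
  unfold rn
  have : Nat.mod (Nat.mul r 366211) 1953125 < 1953125 := Nat.mod_lt _ (by norm_num)
  omega

lemma run_spec (n : ℕ) : ∀ r W, r < 2 ^ 32 → run n r W ≠ 0 →
    (∀ k, k < n → ck (stp^[k + 1] (r, W)).1 (stp^[k + 1] (r, W)).2 = true) ∧
    run n r W = (stp^[n] (r, W)).2 * 2 ^ 32 + (stp^[n] (r, W)).1 ∧ (stp^[n] (r, W)).1 < 2 ^ 32 := by
  induction n with
  | zero =>
    intro r W hr _
    refine ⟨fun k hk => absurd hk (by omega), ?_, hr⟩
    show Nat.add (Nat.shiftLeft W 32) r = W * 2 ^ 32 + r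
    have : Nat.shiftLeft W 32 = W * 2 ^ 32 := Nat.shiftLeft_eq W 32
    rw [this]; rfl
  | succ n ih =>
    intro r W hr hne
    rw [run_succ] at hne ⊢
    cases hck : ck (rn r) (wn (rn r) W) with
    | false => rw [hck] at hne; exact absurd rfl hne
    | true =>
      rw [hck] at hne
      obtain ⟨h1, h2, h3⟩ := ih (rn r) (wn (rn r) W) (rn_lt r) hne
      refine ⟨fun k hk => ?_, ?_, ?_⟩
      · rcases Nat.eq_zero_or_pos k with rfl | hk0
        · simpa [stp] using hck
        · obtain ⟨k', rfl⟩ : ∃ k', k = k' + 1 := ⟨k - 1, by omega⟩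
          rw [Function.iterate_succ_apply]
          exact h1 k' (by omega)
      · rw [Function.iterate_succ_apply]; exact h2
      · rw [Function.iterate_succ_apply]; exact h3

lemma seg_of_run {n r W r' W' : ℕ} (h : run n r W = W' * 2 ^ 32 + r') (hr : r < 2 ^ 32)
    (hr' : 0 < r') (hr2 : r' < 2 ^ 32) : Seg n (r, W) (r', W') := by
  obtain ⟨h1, h2, h3⟩ := run_spec n r W hr (by rw [h]; omega)
  refine ⟨h1, ?_⟩
  rw [h] at h2
  have h4 : (stp^[n] (r, W)).1 = r' := by omega
  have h5 : (stp^[n] (r, W)).2 = W' := by omega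
  exact Prod.ext h4 h5

end Pool.Agent.Lib.MP_02a951_nt
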