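import Mathlib

set_option autoImplicit false

namespace Pool.Agent.Lib.MP_02a951_nt

/-- the `5x+1` map -/
def T (m : ℤ) : ℤ := if m % 2 = 0 then m / 2 else (5 * m + 1) / 2

lemma T_two_mul (m : ℤ) : T (2 * m) = m := by
  unfold T
  have h : (2 * m) % 2 = 0 := by omega
  rw [if_pos h]; omega

lemma T_odd {m n : ℤ} (h : 5 * m + 1 = 2 * n) : T m = n := by
  unfold T
  have h2 : ¬ (m % 2 = 0) := by omega
  rw [if_neg h2]; omega

lemma T_iter_two_pow (j : ℕ) (m : ℤ) : T^[j] (2 ^ j * m) = m := by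
  induction j generalizing m with
  | zero => simp
  | succ j ih => rw [Function.iterate_succ_apply, pow_succ', mul_assoc, T_two_mul, ih]

lemma two_pow_mul_inj {a : ℤ} (ha : a ≠ 0) : Function.Injective (fun j : ℕ => (2 : ℤ) ^ j * a) := by
  intro i j h
  have h' : (2 : ℤ) ^ i = 2 ^ j := mul_right_cancel₀ ha h
  exact Int.pow_right_injective (by norm_num) h'

lemma finite_hits {a : ℤ} (ha : a ≠ 0) (n : ℤ) :
    {j : ℕ | ∃ k : ℕ, T^[k] n = 2 ^ j * a}.Finite := by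
  classical
  by_cases h : ∃ t1 t2 : ℕ, t1 < t2 ∧ T^[t1] n = a ∧ T^[t2] n = a
  · obtain ⟨t1, t2, hlt, h1, h2⟩ := h
    have horb : ∀ k, ∃ i < t2, T^[k] n = T^[i] n := by
      intro k
      induction k using Nat.strong_induction_on with
      | _ k ih =>
        by_cases hk : k < t2
        · exact ⟨k, hk, rfl⟩
        · push Not at hk
          obtain ⟨i, hi, hi2⟩ := ih (k - t2 + t1) (by omega)
          refine ⟨i, hi, ?_⟩
          rw [← hi2, Function.iterate_add_apply, h1, ← h2, ← Function.iterate_add_apply]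
          congr 2
          omega
    refine Set.Finite.subset (Set.Finite.preimage (f := fun j : ℕ => (2 : ℤ) ^ j * a)
      ((two_pow_mul_inj ha).injOn) ((Finset.range t2).image (fun i => T^[i] n)).finite_toSet) ?_
    rintro j ⟨k, hk⟩
    obtain ⟨i, hi, hi2⟩ := horb k
    simp only [Set.mem_preimage, Finset.coe_image, Set.mem_image, Finset.mem_coe, Finset.mem_range]
    exact ⟨i, hi, by rw [← hi2, hk]⟩
  · push Not at h
    by_cases hne : ∃ t, T^[t] n = a
    · obtain ⟨t, ht⟩ := hne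
      refine Set.Finite.subset (Set.finite_Iic t) ?_
      rintro j ⟨k, hk⟩
      have hjk : T^[j + k] n = a := by
        rw [Function.iterate_add_apply, hk, T_iter_two_pow]
      have : j + k = t := by
        rcases lt_trichotomy (j + k) t with h1 | h1 | h1
        · exact absurd ht (h _ _ h1 hjk)
        · exact h1
        · exact absurd hjk (h _ _ h1 ht)
      simp only [Set.mem_Iic]; omega
    · push Not at hne
      refine Set.Finite.subset Set.finite_empty ?_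
      rintro j ⟨k, hk⟩
      exact absurd (by rw [Function.iterate_add_apply, hk, T_iter_two_pow]) (hne (j + k))

/-- far up the doubling line, points are not periodic and not reached from small integers -/
lemma exists_good {a : ℤ} (ha : a ≠ 0) (n0 : ℕ) :
    ∃ j0 : ℕ, ∀ j, j0 ≤ j →
      (∀ n : ℤ, |n| ≤ n0 → ∀ k : ℕ, T^[k] n ≠ 2 ^ j * a) ∧
      (∀ k : ℕ, 1 ≤ k → T^[k] (2 ^ j * a) ≠ 2 ^ j * a) := by
  classical
  have hfin : (⋃ n ∈ (Finset.Icc (-(n0 : ℤ)) n0 : Finset ℤ) ∪ {a},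
      {j : ℕ | ∃ k : ℕ, T^[k] n = 2 ^ j * a}).Finite := by
    refine Set.Finite.biUnion (Finset.finite_toSet _) ?_
    intro n _
    exact finite_hits ha n
  obtain ⟨j0, hj0⟩ := hfin.bddAbove
  have key : ∀ j, j0 + 1 ≤ j → ∀ n ∈ (Finset.Icc (-(n0 : ℤ)) n0 : Finset ℤ) ∪ {a},
      ∀ k : ℕ, T^[k] n ≠ 2 ^ j * a := by
    intro j hj n hn k hk
    have : j ≤ j0 := hj0 (by
      simp only [Set.mem_iUnion]
      exact ⟨n, hn, k, hk⟩)
    omega
  refine ⟨j0 + 1, fun j hj => ⟨?_, ?_⟩⟩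
  · intro n hn k
    refine key j hj n ?_ k
    rw [abs_le] at hn
    simp [hn.1, hn.2]
  · intro k hk hper
    have hmul : ∀ m : ℕ, T^[m * k] (2 ^ j * a) = 2 ^ j * a := by
      intro m
      induction m with
      | zero => simp
      | succ m ih => rw [Nat.succ_mul, Function.iterate_add_apply, hper, ih]
    have h1 : j ≤ j * k := Nat.le_mul_of_pos_right _ hk
    have h2 := hmul j
    have h3 : j * k = (j * k - j) + j := by omega
    rw [h3, Function.iterate_add_apply, T_iter_two_pow] at h2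
    exact key j hj a (by simp) _ h2

/-- `c = (2 m - 1) / 5` -/
def ch (m : ℤ) : ℤ := (2 * m - 1) / 5

/-- the second child -/
def B (m : ℤ) : ℤ :=
  if ch m % 5 = 3 then ch m else if ch m % 5 = 4 then 2 * ch m
    else if ch m % 5 = 2 then 4 * ch m else 8 * ch m

lemma ch_spec {m : ℤ} (hm : m % 5 = 3) : 5 * ch m + 1 = 2 * m := by
  unfold ch; omega

lemma B_spec {m : ℤ} (hm : m % 5 = 3) (hal : ch m % 5 ≠ 0) : (B m) % 5 = 3 := by
  have h1 := ch_spec hm
  unfold B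
  split_ifs <;> omega

lemma B_iter {m : ℤ} (hm : m % 5 = 3) : ∃ k : ℕ, 1 ≤ k ∧ T^[k] (B m) = m := by
  have h1 := ch_spec hm
  have h2 : T (ch m) = m := T_odd h1
  unfold B
  split_ifs
  · exact ⟨1, le_refl _, by simpa using h2⟩
  · refine ⟨2, by norm_num, ?_⟩
    rw [show (2 : ℤ) * ch m = 2 ^ 1 * ch m by ring, show 2 = 1 + 1 by norm_num,
      Function.iterate_add_apply, T_iter_two_pow]
    simpa using h2
  · refine ⟨3, by norm_num, ?_⟩
    rw [show (4 : ℤ) * ch m = 2 ^ 2 * ch m by ring, show 3 = 1 + 2 by norm_num,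
      Function.iterate_add_apply, T_iter_two_pow]
    simpa using h2
  · refine ⟨4, by norm_num, ?_⟩
    rw [show (8 : ℤ) * ch m = 2 ^ 3 * ch m by ring, show 4 = 1 + 3 by norm_num,
      Function.iterate_add_apply, T_iter_two_pow]
    simpa using h2

lemma B_inj {m m' : ℤ} (hm : m % 5 = 3) (hm' : m' % 5 = 3) (h : B m = B m') : m = m' := by
  have h1 := ch_spec hm
  have h2 := ch_spec hm'
  unfold B at h
  split_ifs at h <;> omega

lemma B_ne {m m' : ℤ} (hm' : m' % 5 = 3) : 16 * m ≠ B m' := by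
  intro h
  have h2 := ch_spec hm'
  unfold B at h
  split_ifs at h <;> omega

lemma abs_B_le {m : ℤ} (hm : m % 5 = 3) :
    (ch m % 5 = 3 → |((B m : ℤ) : ℝ)| ≤ (2 * |(m : ℝ)| + 1) / 5) ∧
    (ch m % 5 = 4 → |((B m : ℤ) : ℝ)| ≤ 2 * ((2 * |(m : ℝ)| + 1) / 5)) ∧
    (ch m % 5 = 2 → |((B m : ℤ) : ℝ)| ≤ 4 * ((2 * |(m : ℝ)| + 1) / 5)) ∧
    (ch m % 5 = 1 → |((B m : ℤ) : ℝ)| ≤ 8 * ((2 * |(m : ℝ)| + 1) / 5)) := by
  have h1 := ch_spec hm
  have h2 : ((ch m : ℤ) : ℝ) = (2 * (m : ℝ) - 1) / 5 := by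
    have : ((5 * ch m + 1 : ℤ) : ℝ) = ((2 * m : ℤ) : ℝ) := by rw [h1]
    push_cast at this
    linarith
  have h3 : |((ch m : ℤ) : ℝ)| ≤ (2 * |(m : ℝ)| + 1) / 5 := by
    rw [h2, abs_div, abs_of_pos (by norm_num : (0 : ℝ) < 5)]
    gcongr
    calc |2 * (m : ℝ) - 1| ≤ |2 * (m : ℝ)| + |1| := abs_sub _ _
      _ = 2 * |(m : ℝ)| + 1 := by rw [abs_mul]; norm_num
  refine ⟨?_, ?_, ?_, ?_⟩ <;> intro h <;> unfold B
  · rw [if_pos h]; exact h3
  · rw [if_neg (by omega), if_pos h]; push_cast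
    rw [abs_mul, abs_of_pos (by norm_num : (0 : ℝ) < 2)]; gcongr
  · rw [if_neg (by omega), if_neg (by omega), if_pos h]; push_cast
    rw [abs_mul, abs_of_pos (by norm_num : (0 : ℝ) < 4)]; gcongr
  · rw [if_neg (by omega), if_neg (by omega), if_neg (by omega)]; push_cast
    rw [abs_mul, abs_of_pos (by norm_num : (0 : ℝ) < 8)]; gcongr

open Classical in
/-- the counting argument -/
theorem count_bound {b : ℤ} (hb : b % 5 = 3) (hper : ∀ k : ℕ, 1 ≤ k → T^[k] b ≠ b)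
    (f : ℤ → ℝ) (hf0 : ∀ m, 0 ≤ f m)
    (hsub : ∀ m : ℤ, m % 5 = 3 → (∃ k : ℕ, T^[k] m = b) →
      f m ≤ f (16 * m) + if ch m % 5 ≠ 0 then f (B m) else 0)
    (x C : ℝ) (hC0 : 0 ≤ C) (hC : ∀ m : ℤ, x < |(m : ℝ)| → f m ≤ C) (hbx : |(b : ℝ)| ≤ x) :
    f b ≤ 2 * C * (Set.ncard {n : ℤ | |(n : ℝ)| ≤ x ∧ n % 5 = 3 ∧ ∃ k : ℕ, T^[k] n = b} : ℕ) := by
  set S0 : Set ℤ := {n : ℤ | |(n : ℝ)| ≤ x ∧ n % 5 = 3 ∧ ∃ k : ℕ, T^[k] n = b} with hS0
  have hfin : S0.Finite := by
    refine Set.Finite.subset (Set.finite_Icc (-⌈x⌉) ⌈x⌉) ?_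
    rintro n ⟨h1, -⟩
    rw [abs_le] at h1
    constructor
    · have h3 : (-(⌈x⌉ : ℝ)) ≤ (n : ℝ) := by have := Int.le_ceil x; linarith
      exact_mod_cast h3
    · have h3 : (n : ℝ) ≤ (⌈x⌉ : ℝ) := by have := Int.le_ceil x; linarith
      exact_mod_cast h3
  set S : Finset ℤ := hfin.toFinset with hS
  have hmem : ∀ n : ℤ, n ∈ S ↔ (|(n : ℝ)| ≤ x ∧ n % 5 = 3 ∧ ∃ k : ℕ, T^[k] n = b) := by
    intro n; rw [hS, Set.Finite.mem_toFinset]; rfl
  have hbS : b ∈ S := (hmem b).2 ⟨hbx, hb, 0, rfl⟩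
  have hcard : (Set.ncard S0 : ℕ) = S.card := by
    rw [hS, Set.ncard_eq_toFinset_card _ hfin]
  rw [hcard]
  -- inside parts
  set S1 := S.filter (fun m => |((16 * m : ℤ) : ℝ)| ≤ x) with hS1
  set S2 := S.filter (fun m => ch m % 5 ≠ 0 ∧ |((B m : ℤ) : ℝ)| ≤ x) with hS2
  have hT16 : ∀ m : ℤ, T^[4] (16 * m) = m := by
    intro m
    have := T_iter_two_pow 4 m
    norm_num at this
    simpa using this
  have e1 : ∑ m ∈ S, f (16 * m) ≤ ∑ m ∈ S1, f (16 * m) + C * S.card := by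
    rw [hS1, Finset.sum_filter]
    rw [show C * (S.card : ℝ) = ∑ m ∈ S, C by rw [Finset.sum_const, nsmul_eq_mul, mul_comm]]
    rw [← Finset.sum_add_distrib]
    refine Finset.sum_le_sum ?_
    intro m _
    split_ifs with h
    · linarith
    · push Not at h
      have := hC (16 * m) h
      linarith
  have e2 : ∑ m ∈ S, (if ch m % 5 ≠ 0 then f (B m) else 0) ≤ ∑ m ∈ S2, f (B m) + C * S.card := by
    rw [hS2, Finset.sum_filter]
    rw [show C * (S.card : ℝ) = ∑ m ∈ S, C by rw [Finset.sum_const, nsmul_eq_mul, mul_comm]]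
    rw [← Finset.sum_add_distrib]
    refine Finset.sum_le_sum ?_
    intro m _
    by_cases h1 : ch m % 5 ≠ 0
    · by_cases h2 : |((B m : ℤ) : ℝ)| ≤ x
      · rw [if_pos h1, if_pos ⟨h1, h2⟩]; linarith
      · rw [if_pos h1, if_neg (fun h => h2 h.2)]
        push Not at h2
        have := hC (B m) h2
        linarith
    · rw [if_neg h1, if_neg (fun h => h1 h.1)]; linarith
  have e3 : ∑ m ∈ S1, f (16 * m) + ∑ m ∈ S2, f (B m) ≤ ∑ c ∈ S.erase b, f c := by
    have i1 : ∑ m ∈ S1, f (16 * m) = ∑ c ∈ S1.image (fun m => 16 * m), f c := by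
      rw [Finset.sum_image]
      intro m _ m' _ h
      have h' : (16 : ℤ) * m = 16 * m' := h
      omega
    have i2 : ∑ m ∈ S2, f (B m) = ∑ c ∈ S2.image B, f c := by
      rw [Finset.sum_image]
      intro m hm m' hm' h
      have h1 : m ∈ S := (Finset.mem_filter.1 (Finset.mem_coe.1 hm)).1
      have h2 : m' ∈ S := (Finset.mem_filter.1 (Finset.mem_coe.1 hm')).1
      exact B_inj ((hmem m).1 h1).2.1 ((hmem m').1 h2).2.1 h
    rw [i1, i2, ← Finset.sum_union]
    · refine Finset.sum_le_sum_of_subset_of_nonneg ?_ (fun c _ _ => hf0 c)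
      intro c hc
      rw [Finset.mem_union, Finset.mem_image, Finset.mem_image] at hc
      rw [Finset.mem_erase]
      rcases hc with ⟨m, hm, rfl⟩ | ⟨m, hm, rfl⟩
      · rw [hS1, Finset.mem_filter] at hm
        obtain ⟨hm1, hm2⟩ := hm
        obtain ⟨h1, h2, k, hk⟩ := (hmem m).1 hm1
        have hk4 : T^[k + 4] (16 * m) = b := by
          rw [Function.iterate_add_apply, hT16, hk]
        refine ⟨?_, (hmem _).2 ⟨hm2, by omega, k + 4, hk4⟩⟩
        intro heq
        rw [heq] at hk4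
        exact hper (k + 4) (by omega) hk4
      · rw [hS2, Finset.mem_filter] at hm
        obtain ⟨hm1, hm2, hm3⟩ := hm
        obtain ⟨h1, h2, k, hk⟩ := (hmem m).1 hm1
        obtain ⟨l, hl, hl2⟩ := B_iter h2
        have hk4 : T^[k + l] (B m) = b := by
          rw [Function.iterate_add_apply, hl2, hk]
        refine ⟨?_, (hmem _).2 ⟨hm3, B_spec h2 hm2, k + l, hk4⟩⟩
        intro heq
        rw [heq] at hk4
        exact hper (k + l) (by omega) hk4
    · rw [Finset.disjoint_left]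
      intro c hc1 hc2
      rw [Finset.mem_image] at hc1 hc2
      obtain ⟨m, hm, rfl⟩ := hc1
      obtain ⟨m', hm', h⟩ := hc2
      have h2 : m' ∈ S := (Finset.mem_filter.1 hm').1
      exact B_ne ((hmem m').1 h2).2.1 h.symm
  have e4 : ∑ m ∈ S, f m ≤ ∑ m ∈ S, f (16 * m) + ∑ m ∈ S, (if ch m % 5 ≠ 0 then f (B m) else 0) := by
    rw [← Finset.sum_add_distrib]
    refine Finset.sum_le_sum ?_
    intro m hm
    obtain ⟨h1, h2, h3⟩ := (hmem m).1 hm
    exact hsub m h2 h3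
  have e5 : f b + ∑ c ∈ S.erase b, f c = ∑ c ∈ S, f c := Finset.add_sum_erase _ _ hbS
  nlinarith [e1, e2, e3, e4, e5]

end Pool.Agent.Lib.MP_02a951_nt
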