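import Pool.Agent.Lib.MP_02a951_nt.Tree
import Pool.Agent.Lib.MP_02a951_nt.Run

set_option autoImplicit false

namespace Pool.Agent.Lib.MP_02a951_nt

lemma V_lt (u : ℕ) : V u < 2 ^ 20 := by
  unfold V
  exact Nat.mod_lt _ (by norm_num)

lemma F1_eq0 (m' : ℕ) : F1 m' 0 = 0 := rfl
lemma F1_eq1 (m' : ℕ) : F1 m' 1 = 613092 * V ((8 * m') % 390625 / 5) := rfl
lemma F1_eq2 (m' : ℕ) : F1 m' 2 = 843918 * V ((4 * m') % 390625 / 5) := rfl
lemma F1_eq3 (m' : ℕ) : F1 m' 3 = 1599006 * V (m' / 5) := rfl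
lemma F1_eq4 (m' : ℕ) : F1 m' 4 = 1161650 * V ((2 * m') % 390625 / 5) := rfl

lemma F_le (r : ℕ) : F r ≤ 2 ^ 41 := by
  unfold F F0
  generalize Nat.mod (Nat.div (Nat.sub (Nat.mul 2 r) 1) 5) 390625 = m'
  have hc : Nat.mod m' 5 < 5 := Nat.mod_lt _ (by norm_num)
  have h0 : Nat.mod m' 5 = 0 ∨ Nat.mod m' 5 = 1 ∨ Nat.mod m' 5 = 2 ∨ Nat.mod m' 5 = 3 ∨
      Nat.mod m' 5 = 4 := by omega
  rcases h0 with h | h | h | h | h <;> rw [h]
  · rw [F1_eq0]; norm_num
  · rw [F1_eq1]; have := V_lt ((8 * m') % 390625 / 5); omega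
  · rw [F1_eq2]; have := V_lt ((4 * m') % 390625 / 5); omega
  · rw [F1_eq3]; have := V_lt (m' / 5); omega
  · rw [F1_eq4]; have := V_lt ((2 * m') % 390625 / 5); omega

/-- residue of an integer modulo `5 ^ 9` -/
def res (m : ℤ) : ℕ := (m % 1953125).toNat

/-- index of the table entry of an integer -/
def idx (m : ℤ) : ℕ := (m % 390625).toNat / 5

/-- `F` at `m` in terms of the second child -/
lemma F_spec {m : ℤ} (hm : m % 5 = 3) :
    (ch m % 5 = 0 → F (res m) = 0) ∧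
    (ch m % 5 = 3 → F (res m) = 1599006 * V (idx (B m))) ∧
    (ch m % 5 = 4 → F (res m) = 1161650 * V (idx (B m))) ∧
    (ch m % 5 = 2 → F (res m) = 843918 * V (idx (B m))) ∧
    (ch m % 5 = 1 → F (res m) = 613092 * V (idx (B m))) := by
  have hr : (res m : ℤ) = m % 1953125 := by
    unfold res
    exact Int.toNat_of_nonneg (Int.emod_nonneg _ (by norm_num))
  have hF : F (res m) = F1 ((2 * res m - 1) / 5 % 390625) ((2 * res m - 1) / 5 % 390625 % 5) := rfl
  rw [hF]
  set m' := (2 * res m - 1) / 5 % 390625 with hm'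
  have h1 : (m' : ℤ) = (ch m) % 390625 := by
    have h2 : 1 ≤ res m := by omega
    have h3 : (m' : ℤ) = (2 * (res m : ℤ) - 1) / 5 % 390625 := by
      rw [hm']; push_cast [show 1 ≤ 2 * res m by omega]; rfl
    rw [h3, hr]; unfold ch; omega
  have hB : ∀ k : ℕ, (k : ℤ) * ch m = B m → (k * m') % 390625 / 5 = idx (B m) := by
    intro k hk
    have h4 : (((k * m') % 390625 : ℕ) : ℤ) = B m % 390625 := by
      push_cast
      rw [h1, ← hk]
      exact (Int.ModEq.mul_left (k : ℤ) (Int.mod_modEq (ch m) 390625))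
    unfold idx
    rw [← h4]; rfl
  refine ⟨?_, ?_, ?_, ?_, ?_⟩ <;> intro h
  · have : m' % 5 = 0 := by omega
    rw [this, F1_eq0]
  · have h5 : m' % 5 = 3 := by omega
    rw [h5, F1_eq3]
    have h6 := hB 1 (by unfold B; rw [if_pos h]; ring)
    rw [← h6, one_mul, Nat.mod_eq_of_lt (by omega)]
  · have h5 : m' % 5 = 4 := by omega
    rw [h5, F1_eq4]
    have h6 := hB 2 (by unfold B; rw [if_neg (by omega), if_pos h]; ring)
    rw [← h6]
  · have h5 : m' % 5 = 2 := by omega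
    rw [h5, F1_eq2]
    have h6 := hB 4 (by unfold B; rw [if_neg (by omega), if_neg (by omega), if_pos h]; ring)
    rw [← h6]
  · have h5 : m' % 5 = 1 := by omega
    rw [h5, F1_eq1]
    have h6 := hB 8 (by
      unfold B; rw [if_neg (by omega), if_neg (by omega), if_neg (by omega)]; ring)
    rw [← h6]

/-- the ratio `q ≤ 2 ^ (-4 s)` -/
noncomputable def q : ℝ := 292079 / 2 ^ 20

/-- the potential -/
noncomputable def w (m : ℤ) : ℝ := ∑' j : ℕ, q ^ j * ((F (res (16 ^ j * m)) : ℝ) / 2 ^ 20)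

lemma q_pos : 0 < q := by unfold q; norm_num
lemma q_lt : q < 1 / 2 := by unfold q; norm_num

lemma term_nonneg (m : ℤ) (j : ℕ) : 0 ≤ q ^ j * ((F (res (16 ^ j * m)) : ℝ) / 2 ^ 20) := by
  have := q_pos; positivity

lemma term_le (m : ℤ) (j : ℕ) :
    q ^ j * ((F (res (16 ^ j * m)) : ℝ) / 2 ^ 20) ≤ (1 / 2) ^ j * 2 ^ 21 := by
  have h1 : (F (res (16 ^ j * m)) : ℝ) / 2 ^ 20 ≤ 2 ^ 21 := by
    rw [div_le_iff₀ (by norm_num)]
    have h2 : (F (res (16 ^ j * m)) : ℝ) ≤ ((2 ^ 41 : ℕ) : ℝ) := by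
      exact_mod_cast F_le _
    refine h2.trans ?_
    norm_num
  have h3 : q ^ j ≤ (1 / 2) ^ j := pow_le_pow_left₀ q_pos.le q_lt.le j
  exact mul_le_mul h3 h1 (by positivity) (by positivity)

lemma summ (m : ℤ) : Summable (fun j : ℕ => q ^ j * ((F (res (16 ^ j * m)) : ℝ) / 2 ^ 20)) := by
  refine Summable.of_nonneg_of_le (term_nonneg m) (term_le m) ?_
  exact (summable_geometric_of_lt_one (by norm_num) (by norm_num)).mul_right _

lemma w_nonneg (m : ℤ) : 0 ≤ w m := tsum_nonneg (term_nonneg m)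

lemma w_le (m : ℤ) : w m ≤ 2 ^ 22 := by
  have h1 : w m ≤ ∑' j : ℕ, ((1 : ℝ) / 2) ^ j * 2 ^ 21 := by
    refine Summable.tsum_le_tsum (term_le m) (summ m) ?_
    exact (summable_geometric_of_lt_one (by norm_num) (by norm_num)).mul_right _
  rw [tsum_mul_right, tsum_geometric_two] at h1
  refine h1.trans ?_
  norm_num

lemma w_rec (m : ℤ) : w m = (F (res m) : ℝ) / 2 ^ 20 + q * w (16 * m) := by
  unfold w
  rw [(summ m).tsum_eq_zero_add, ← tsum_mul_left]
  congr 1
  · simp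
  · refine tsum_congr (fun j => ?_)
    rw [show (16 : ℤ) ^ (j + 1) * m = 16 ^ j * (16 * m) by ring]
    ring

lemma stp_lt (r0 : ℕ) (hr0 : r0 < 1953125) (n : ℕ) : (stp^[n] (r0, 0)).1 < 1953125 := by
  cases n with
  | zero => exact hr0
  | succ n =>
    rw [Function.iterate_succ_apply']
    exact Nat.mod_lt _ (by norm_num)

/-- lower bound of `w` from a run -/
lemma w_ge_run (r0 : ℕ) (hr0 : r0 < 1953125) (n : ℕ) : ∀ m : ℤ, res m = (stp^[n] (r0, 0)).1 →
    ((stp^[n] (r0, 0)).2 : ℝ) ≤ w m := by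
  induction n with
  | zero => intro m _; simpa using w_nonneg m
  | succ n ih =>
    intro m hm
    rw [Function.iterate_succ_apply'] at hm ⊢
    set s := stp^[n] (r0, 0) with hs
    have h1 : (stp s).1 = s.1 * 366211 % 1953125 := rfl
    have h2 : (stp s).2 = (292079 * s.2 + F (stp s).1) / 2 ^ 20 := by
      show wn (rn s.1) s.2 = _
      unfold wn
      exact Nat.shiftRight_eq_div_pow _ 20
    rw [w_rec]
    by_cases hlt : s.1 < 1953125
    · have h3 : res (16 * m) = s.1 := by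
        have h4 : (res m : ℤ) = m % 1953125 := by
          unfold res
          exact Int.toNat_of_nonneg (Int.emod_nonneg _ (by norm_num))
        have h5 : ((s.1 * 366211 % 1953125 : ℕ) : ℤ) = m % 1953125 := by
          rw [← h4, hm, h1]
        unfold res
        push_cast at h5
        omega
      have h6 := ih (16 * m) h3
      have h7 : (((stp s).2 : ℕ) : ℝ) ≤ ((292079 * s.2 + F (stp s).1 : ℕ) : ℝ) / 2 ^ 20 := by
        rw [h2, le_div_iff₀ (by norm_num)]
        have h9 := Nat.div_mul_le_self (292079 * s.2 + F (stp s).1) (2 ^ 20)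
        exact_mod_cast h9
      refine h7.trans ?_
      push_cast
      rw [hm]
      have h8 : q * (s.2 : ℝ) ≤ q * w (16 * m) := mul_le_mul_of_nonneg_left h6 q_pos.le
      unfold q at h8 ⊢
      linarith
    · exact absurd (stp_lt r0 hr0 n) hlt

end Pool.Agent.Lib.MP_02a951_nt
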